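import Pool.Agent.N875.P17.Fin
import Pool.Agent.N969.P17G.Defs2

/-!
# Finiteness of the twists of `17a2` by the positive even discriminants from the criterion `SxP`
-/

set_option autoImplicit false

open Finset

namespace Pool.Agent.N875.P17

open Pool.Agent.N875.X15
open Pool.Agent.N972.P17 (nu Cp Cpe Sx)
open Pool.Agent.N969.P17G (CpE SxP starP lsP LLP alP)

/-- `A = 4 M` is a positive fundamental discriminant -/
def FP (A M : ℕ) : Prop := A = 4 * M ∧ Squarefree M ∧ (M % 4 = 2 ∨ M % 4 = 3)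

lemma FP_sq {A M : ℕ} (h : FP A M) : Squarefree (M : ℤ) := Int.squarefree_natCast.2 h.2.1

lemma PR_P {A M : ℕ} (h : FP A M) : PR (M : ℤ) = A.primeFactors := by
  obtain ⟨rfl, hsq, h4⟩ := h
  unfold PR
  rw [if_neg (by omega), Int.natAbs_natCast]
  have hk : M ≠ 0 := hsq.ne_zero
  have e : (4 : ℕ) = 2 ^ 2 := by norm_num
  rw [Nat.primeFactors_mul (by norm_num) hk, Nat.primeFactors_mul (by norm_num) hk, e,
    Nat.primeFactors_pow 2 (by norm_num)]

lemma starP_odd {A p : ℕ} (hp : p ≠ 2) : starP A p = sgp p := by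
  unfold starP sgp
  rw [if_neg hp]

lemma starP_two {A M : ℕ} (h : FP A M) : starP A 2 = 4 * ps (M : ℤ) 2 := by
  obtain ⟨rfl, hsq, h4⟩ := id h
  rw [ps_two]
  obtain ⟨h1, h2⟩ := d2_spec (FP_sq h)
  have ho := oe_mod (M : ℤ)
  unfold starP
  rw [if_pos rfl]
  rcases h4 with h4 | h4
  · rw [if_neg (by omega)]
    rcases h2 with ⟨h2, -⟩ | ⟨-, h2 | h2⟩
    · omega
    · rw [h2] at h1 ⊢
      rw [if_pos (by omega)]
      norm_num
    · rw [h2] at h1 ⊢
      rw [if_neg (by omega)]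
      norm_num
  · rw [if_pos (by omega)]
    rcases h2 with ⟨-, h2 | h2⟩ | ⟨h2, -⟩
    · rw [h2] at h1
      omega
    · rw [h2]
      norm_num
    · omega

lemma starP_neg {A M : ℕ} (h : FP A M) (q : ℕ) : starP A q < 0 ↔ ps (M : ℤ) q < 0 := by
  by_cases hq2 : q = 2
  · subst hq2
    rw [starP_two h]
    omega
  · rw [starP_odd hq2, ps_odd hq2]

lemma alP_eq {A M : ℕ} (h : FP A M) (q : ℕ) : alP A q = al (M : ℤ) q := by
  unfold alP al
  have := starP_neg h q
  by_cases h1 : starP A q < 0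
  · rw [if_pos h1, if_pos (this.1 h1)]
  · rw [if_neg h1, if_neg (fun h2 => h1 (this.2 h2))]

lemma lsP_eq {A M : ℕ} (h : FP A M) {p q : ℕ} (hp : p ∈ A.primeFactors) (hq : q ∈ A.primeFactors)
    (hpq : p ≠ q) : lsP A q p = ra p (ps (M : ℤ) q) := by
  have hqp := (Nat.mem_primeFactors.1 hq).1
  have hpp := (Nat.mem_primeFactors.1 hp).1
  unfold lsP ra
  by_cases hp2 : p = 2
  · subst hp2
    have hq2 : q ≠ 2 := hpq.symm
    have h1 := sgp_mod hqp hq2
    rw [if_pos rfl, starP_odd hq2, ps_odd hq2, ch_two]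
    by_cases h2 : sgp q % 8 = 1
    · rw [if_pos (Or.inl h2), if_pos h2, if_pos rfl]
    · rw [if_neg (by omega), if_neg h2, if_neg (by decide)]
  · rw [if_neg hp2, ch_odd hp2]
    by_cases hq2 : q = 2
    · subst hq2
      rw [starP_two h]
      have h4 : jacobiSym (4 * ps (M : ℤ) 2) p = jacobiSym (ps (M : ℤ) 2) p := by
        rw [jacobiSym.mul_left]
        have h5 : jacobiSym 4 p = 1 := by
          have e : (4 : ℤ) = 2 ^ 2 := by norm_num
          rw [e]
          refine jacobiSym.sq_one' ?_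
          have : Nat.Coprime 2 p := (Nat.coprime_primes Nat.prime_two hpp).2 (Ne.symm hp2)
          exact_mod_cast this
        rw [h5, one_mul]
      rw [h4]
    · rw [starP_odd hq2, ps_odd hq2]

lemma LLP_eq {A M : ℕ} (h : FP A M) {p q : ℕ} (hp : p ∈ A.primeFactors)
    (hq : q ∈ A.primeFactors) : LLP A p q = Lm (M : ℤ) p q := by
  unfold LLP Lm
  by_cases hpq : p = q
  · rw [if_pos hpq, if_pos hpq, PR_P h]
    refine Finset.sum_congr rfl fun r hr => ?_
    exact lsP_eq h hp (Finset.mem_of_mem_erase hr) (Finset.ne_of_mem_erase hr).symm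
  · rw [if_neg hpq, if_neg hpq]
    exact lsP_eq h hp hq hpq

theorem sg_of_SxP {A M : ℕ} (h : FP A M) (h17 : ¬ 17 ∣ A) (hS : SxP A) : Sg (M : ℤ) := by
  intro x y _ h1 h2
  rw [PR_P h] at h1 h2 ⊢
  refine hS x y (fun p hp => ?_) (fun q hq => ?_)
  · rw [nu_eq, ← h1 p hp (by
      rintro rfl
      exact h17 (Nat.mem_primeFactors.1 hp).2.1)]
    congr 1
    exact Finset.sum_congr rfl fun q hq => by rw [LLP_eq h hp hq]
  · rw [alP_eq h, ← h2 q hq]
    congr 1
    exact Finset.sum_congr rfl fun p hp => by rw [LLP_eq h hp hq]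

/-- positive even discriminants, `17` split -/
theorem desc_CpE {A : ℕ} (h : CpE A) (hS : SxP A) :
    Fin2 (WS ((A / 4 : ℕ) : ℤ)) ∧ FinPts ((A / 4 : ℕ) : ℤ) := by
  obtain ⟨M, hA, hM⟩ := h
  have e : A / 4 = M := by omega
  rw [e]
  have hF : FP A M := ⟨hA, hM.1, hM.2.1⟩
  refine (desc (FP_sq hF) (sg_of_SxP hF ?_ hS)).2
  intro h17
  have h18 : 17 ∣ M := by omega
  obtain ⟨k, rfl⟩ := h18
  have h1 : jacobiSym ((17 * k : ℕ) : ℤ) 17 = 0 := by
    rw [jacobiSym.eq_zero_iff_not_coprime, Int.gcd_natCast_natCast]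
    norm_num
  exact absurd (h1.symm.trans hM.2.2) (by norm_num)

end Pool.Agent.N875.P17
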