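import Pool.Agent.N875.P17.Cn4
import Pool.Agent.N875.P17.FinE

/-!
# Rank zero and `Ш[2] = 0` are equivalent to the criteria `Sx`, `Sr`, `SxP`
-/

set_option autoImplicit false

open Finset

namespace Pool.Agent.N875.P17

open Pool.Agent.N875.X15
open Pool.Agent.N972.P17 (Cm Cme Cr Cre Cp Cpe Sx Sr star ls LL nu)
open Pool.Agent.N969.P17G (CpE SxP starP lsP LLP alP)

/-- **Finite Mordell-Weil group and `Ш[2] = 0`: the criterion.** -/
theorem fin2_iff {m : ℤ} (hs : Squarefree m) : Fin2 (EQm m) ↔ Sg m :=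
  ⟨sg_of_fin2 hs, fun h => (desc hs h).1⟩

theorem fin2S_iff {m : ℤ} (hs : Squarefree m) : Fin2 (WS m) ↔ Sg m :=
  (fin2_S hs.ne_zero).trans (fin2_iff hs)

/-- change of the value at `17` -/
def x0 (x : ℕ → ZMod 2) (p : ℕ) : ZMod 2 := if p = 17 then 0 else x p

lemma x0_17 (x : ℕ → ZMod 2) : x0 x 17 = 0 := if_pos rfl

lemma erase17 {P : Finset ℕ} (h17 : 17 ∉ P) {x : ℕ → ZMod 2} {p : ℕ} (hp : p ∈ P) :
    x0 x p = x p := by
  refine if_neg ?_
  rintro rfl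
  exact h17 hp

/-- `17` prime to `n` -/
theorem Sx_of_sg {n : ℕ} (h : FD n) (h17 : ¬ 17 ∣ n) (hS : Sg (mD n)) : Sx n := by
  intro x y h1 h2
  have hP : 17 ∉ n.primeFactors := fun h => h17 (Nat.mem_primeFactors.1 h).2.1
  have key := hS (x0 x) y (x0_17 x) (by
    rw [PR_mD h]
    intro p hp _
    rw [erase17 hP hp, ← nu_eq, ← h1 p hp]
    congr 1
    exact Finset.sum_congr rfl fun q hq => by rw [LL_eq h hp hq]) (by
    rw [PR_mD h]
    intro q hq
    rw [← al_eq h hq, ← h2 q hq]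
    congr 1
    refine Finset.sum_congr rfl fun p hp => ?_
    rw [erase17 hP hp, LL_eq h hp hq])
  rw [PR_mD h] at key
  intro p hp
  have := key p hp
  rwa [erase17 hP hp] at this

/-- `17 ∣ n` -/
theorem Sr_of_sg {n : ℕ} (h : FD n) (hS : Sg (mD n)) : Sr n := by
  intro x y hx h1 h2
  have key := hS x y hx (by
    rw [PR_mD h]
    intro p hp hp17
    rw [← nu_eq, ← h1 p (Finset.mem_erase.2 ⟨hp17, hp⟩)]
    congr 1
    exact Finset.sum_congr rfl fun q hq => by rw [LL_eq h hp hq]) (by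
    rw [PR_mD h]
    intro q hq
    rw [← al_eq h hq, ← h2 q hq]
    congr 1
    exact Finset.sum_congr rfl fun p hp => by rw [LL_eq h hp hq])
  rwa [PR_mD h] at key

theorem Sx_of_sg_pos {A : ℕ} (h4 : A % 4 = 1) (h17 : ¬ 17 ∣ A) (hS : Sg (A : ℤ)) : Sx A := by
  intro x y h1 h2
  have hP : 17 ∉ A.primeFactors := fun h => h17 (Nat.mem_primeFactors.1 h).2.1
  have key := hS (x0 x) y (x0_17 x) (by
    rw [PR_pos h4]
    intro p hp _
    rw [erase17 hP hp, ← nu_eq, ← h1 p hp]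
    congr 1
    exact Finset.sum_congr rfl fun q hq => by rw [LL_pos h4 hp hq]) (by
    rw [PR_pos h4]
    intro q hq
    rw [← al_pos h4 hq, ← h2 q hq]
    congr 1
    refine Finset.sum_congr rfl fun p hp => ?_
    rw [erase17 hP hp, LL_pos h4 hp hq])
  rw [PR_pos h4] at key
  intro p hp
  have := key p hp
  rwa [erase17 hP hp] at this

theorem SxP_of_sg {A M : ℕ} (h : FP A M) (h17 : ¬ 17 ∣ A) (hS : Sg (M : ℤ)) : SxP A := by
  intro x y h1 h2
  have hP : 17 ∉ A.primeFactors := fun h => h17 (Nat.mem_primeFactors.1 h).2.1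
  have key := hS (x0 x) y (x0_17 x) (by
    rw [PR_P h]
    intro p hp _
    rw [erase17 hP hp, ← nu_eq, ← h1 p hp]
    congr 1
    exact Finset.sum_congr rfl fun q hq => by rw [LLP_eq h hp hq]) (by
    rw [PR_P h]
    intro q hq
    rw [← alP_eq h, ← h2 q hq]
    congr 1
    refine Finset.sum_congr rfl fun p hp => ?_
    rw [erase17 hP hp, LLP_eq h hp hq])
  rw [PR_P h] at key
  intro p hp
  have := key p hp
  rwa [erase17 hP hp] at this

lemma nd17 {n : ℕ} {e : ℤ} (h : jacobiSym n 17 = e) (he : e ≠ 0) : ¬ 17 ∣ n := by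
  rintro ⟨k, rfl⟩
  have h1 : jacobiSym ((17 * k : ℕ) : ℤ) 17 = 0 := by
    rw [jacobiSym.eq_zero_iff_not_coprime, Int.gcd_natCast_natCast]
    norm_num
  exact he (h.symm.trans h1)

/-- **Odd negative discriminants, `17` inert.** -/
theorem crit_Cm {n : ℕ} (h : Cm n) : Fin2 (WS (-(n : ℤ))) ↔ Sx n := by
  have e : mD n = -(n : ℤ) := if_pos (by have := h.2.1; omega)
  refine ⟨fun hf => ?_, fun hS => (desc_Cm h hS).1⟩
  rw [← e, fin2S_iff (mD_sqf (FD_Cm h))] at hf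
  exact Sx_of_sg (FD_Cm h) (not_dvd17 h.2.2) hf

/-- **Even negative discriminants, `17` inert.** -/
theorem crit_Cme {n : ℕ} (h : Cme n) : Fin2 (WS (-((n / 4 : ℕ) : ℤ))) ↔ Sx n := by
  have e : mD n = -((n / 4 : ℕ) : ℤ) := if_neg (by obtain ⟨⟨k, rfl, -⟩, -⟩ := h; omega)
  refine ⟨fun hf => ?_, fun hS => (desc_Cme h hS).1⟩
  rw [← e, fin2S_iff (mD_sqf (FD_Cme h))] at hf
  exact Sx_of_sg (FD_Cme h) (not_dvd17 h.2) hf

/-- **Odd negative discriminants, `17` ramified.** -/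
theorem crit_Cr {n : ℕ} (h : Cr n) : Fin2 (WS (-(n : ℤ))) ↔ Sr n := by
  have e : mD n = -(n : ℤ) := if_pos (by have := h.2.1; omega)
  refine ⟨fun hf => ?_, fun hS => (desc_Cr h hS).1⟩
  rw [← e, fin2S_iff (mD_sqf (FD_Cr h))] at hf
  exact Sr_of_sg (FD_Cr h) hf

/-- **Even negative discriminants, `17` ramified.** -/
theorem crit_Cre {n : ℕ} (h : Cre n) : Fin2 (WS (-((n / 4 : ℕ) : ℤ))) ↔ Sr n := by
  have e : mD n = -((n / 4 : ℕ) : ℤ) := if_neg (by obtain ⟨⟨k, rfl, -⟩, -⟩ := h; omega)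
  refine ⟨fun hf => ?_, fun hS => (desc_Cre h hS).1⟩
  rw [← e, fin2S_iff (mD_sqf (FD_Cre h))] at hf
  exact Sr_of_sg (FD_Cre h) hf

/-- **Odd positive discriminants, `17` split.** -/
theorem crit_Cp {A : ℕ} (h : Cp A) : Fin2 (WS (A : ℤ)) ↔ Sx A := by
  refine ⟨fun hf => ?_, fun hS => (desc_Cp h hS).1⟩
  rw [fin2S_iff (Int.squarefree_natCast.2 h.1)] at hf
  exact Sx_of_sg_pos h.2.1 (nd17 h.2.2 one_ne_zero) hf

/-- **Even positive discriminants, `17` split.** -/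
theorem crit_CpE {A : ℕ} (h : CpE A) : Fin2 (WS ((A / 4 : ℕ) : ℤ)) ↔ SxP A := by
  refine ⟨fun hf => ?_, fun hS => (desc_CpE h hS).1⟩
  obtain ⟨M, hA, hM⟩ := h
  have e : A / 4 = M := by omega
  have hF : FP A M := ⟨hA, hM.1, hM.2.1⟩
  rw [e, fin2S_iff (FP_sq hF)] at hf
  refine SxP_of_sg hF ?_ hf
  intro h17
  exact nd17 hM.2.2 one_ne_zero (by omega)

end Pool.Agent.N875.P17
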