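import Pool.Agent.N875.P17.Lo3

/-!
# The converse of the local conditions: the prime `2`
-/

set_option autoImplicit false

open Finset

namespace Pool.Agent.N875.P17

open Pool.Agent.N875.X15
open Pool.Agent.TH841.SH (LocC SelG)

/-- a product of rational and integral factors is a square -/
lemma sq2 {n : ℤ} {x z : ℚ_[2]} (h : n % 8 = 1) (e : x = z * z * (n : ℚ_[2])) : IsSquare x := by
  rw [e]
  exact (IsSquare.mul_self z).mul (sq_int h)

lemma nz2 {n : ℤ} (h : n % 2 = 1) : (n : ℚ_[2]) ≠ 0 := by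
  have : n ≠ 0 := by rintro rfl; norm_num at h
  exact_mod_cast this

lemma mod_mul {a b r s n : ℤ} (ha : a % n = r) (hb : b % n = s) : (a * b) % n = (r * s) % n := by
  rw [Int.mul_emod, ha, hb]

/-- the class `(5, 1)` -/
lemma locC_51 {m : ℤ} (hm : m % 2 = 1) : LocC ℚ_[2] 0 (-m) (16 * m) 5 1 := by
  have h1 : (5 + 4 * m) % 8 = 1 := by omega
  have h2 : (5 - 64 * m) % 8 = 5 := by omega
  have n4 : (4 : ℚ_[2]) ≠ 0 := by norm_num
  have e1 : (5 : ℚ_[2]) / 4 + m = ((5 + 4 * m : ℤ) : ℚ_[2]) / 4 := by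
    push_cast
    field_simp
  have e2 : (5 : ℚ_[2]) / 4 - 16 * m = ((5 - 64 * m : ℤ) : ℚ_[2]) / 4 := by
    push_cast
    field_simp
    ring
  refine locC_mk (u := (5 : ℚ_[2]) / 4) (div_ne_zero (by norm_num) n4) ?_ ?_ ?_ ?_ ?_
  · rw [e1]
    exact div_ne_zero (nz2 (by omega)) n4
  · rw [e2]
    exact div_ne_zero (nz2 (by omega)) n4
  · rw [e1, e2]
    have h3 : (5 * (5 + 4 * m) * (5 - 64 * m)) % 8 = 1 := by
      rw [mod_mul (mod_mul (by norm_num : (5 : ℤ) % 8 = 5) h1) h2]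
      norm_num
    refine sq2 (z := 1 / 8) h3 ?_
    push_cast
    ring
  · refine ⟨5 / 2, ?_⟩
    push_cast
    ring
  · rw [e1]
    refine sq2 (z := 1 / 2) h1 ?_
    push_cast
    ring

lemma congr8 {m a b c d : ℤ} (h : LocC ℚ_[2] 0 (-m) (16 * m) a b) (ha : a ≠ 0) (hb : b ≠ 0)
    (h1 : (a * c) % 8 = 1) (h2 : (b * d) % 8 = 1) : LocC ℚ_[2] 0 (-m) (16 * m) c d := by
  refine locC_congr ha hb h ?_ ?_
  · have := sq_int h1
    push_cast at this
    exact this
  · have := sq_int h2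
    push_cast at this
    exact this

/-- `m ≡ 5 mod 8` -/
lemma locC_two5 {m d1 d2 : ℤ} (h8 : m % 8 = 5) (h1 : d1 % 2 = 1) (h2 : d2 % 4 = 1) :
    LocC ℚ_[2] 0 (-m) (16 * m) d1 d2 := by
  have hm : m ≠ 0 := by rintro rfl; norm_num at h8
  have t0 := locC_one 2 m
  have t5 := locC_51 (m := m) (by omega)
  have hm17 : (17 * m) % 8 = 5 := by omega
  have key : ∀ {a b : ℤ}, LocC ℚ_[2] 0 (-m) (16 * m) a b → ∀ {r s : ℤ}, a % 8 = r → b % 8 = s →
      r % 2 = 1 → s % 2 = 1 → d1 % 8 = r → d2 % 8 = s → LocC ℚ_[2] 0 (-m) (16 * m) d1 d2 := by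
    intro a b h r s ha hb hr hs k1 k2
    have sq : ∀ t : ℤ, t % 8 = t → t % 2 = 1 → (t * t) % 8 = 1 := by
      intro t ht ht2
      have : t = 1 ∨ t = 3 ∨ t = 5 ∨ t = 7 := by omega
      rcases this with rfl | rfl | rfl | rfl <;> norm_num
    have r8 : r % 8 = r := by omega
    have s8 : s % 8 = s := by omega
    refine congr8 h ?_ ?_ ?_ ?_
    · rintro rfl; omega
    · rintro rfl; omega
    · rw [mod_mul ha k1]
      exact sq r r8 hr
    · rw [mod_mul hb k2]
      exact sq s s8 hs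
  rcases (by omega : d2 % 8 = 1 ∨ d2 % 8 = 5) with k2 | k2 <;>
    rcases (by omega : d1 % 8 = 1 ∨ d1 % 8 = 3 ∨ d1 % 8 = 5 ∨ d1 % 8 = 7) with k1 | k1 | k1 | k1
  · exact key t0 (r := 1) (s := 1) (by norm_num) (by norm_num) (by norm_num) (by norm_num) k1 k2
  · exact key (locC_T1 hm t0) (r := 3) (s := 1) (by omega) (by norm_num) (by norm_num)
      (by norm_num) k1 k2
  · exact key t5 (r := 5) (s := 1) (by norm_num) (by norm_num) (by norm_num) (by norm_num) k1 k2
  · exact key (locC_T1 hm t5) (r := 7) (s := 1) (by omega) (by norm_num) (by norm_num)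
      (by norm_num) k1 k2
  · exact key (locC_T0 hm (locC_T1 hm t5)) (r := 1) (s := 5) (by omega) (by omega) (by norm_num)
      (by norm_num) k1 k2
  · exact key (locC_T0 hm t5) (r := 3) (s := 5) (by norm_num) (by omega) (by norm_num)
      (by norm_num) k1 k2
  · exact key (locC_T0 hm (locC_T1 hm t0)) (r := 5) (s := 5) (by omega) (by omega) (by norm_num)
      (by norm_num) k1 k2
  · exact key (locC_T0 hm t0) (r := 7) (s := 5) (by norm_num) (by omega) (by norm_num)
      (by norm_num) k1 k2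

/-- an integral point -/
lemma locC_pt2 {m w u s g : ℤ} (hg : g = 1 ∨ g = 2) (hs : s ≠ 0) (hx : g * w + m = s ^ 2)
    (hw : (w * u) % 8 = 1) : LocC ℚ_[2] 0 (-m) (16 * m) (g * u) 1 := by
  have hw2 : w % 2 = 1 := by
    by_contra h
    obtain ⟨k, hk⟩ : ∃ k, w = 2 * k := ⟨w / 2, by omega⟩
    rw [hk, mul_assoc] at hw
    omega
  have hg0 : (g : ℚ_[2]) ≠ 0 := by rcases hg with rfl | rfl <;> norm_num
  have hww : (w * w) % 8 = 1 := by
    rcases (by omega : w % 8 = 1 ∨ w % 8 = 3 ∨ w % 8 = 5 ∨ w % 8 = 7) with h | h | h | h <;>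
      rw [mod_mul h h] <;> norm_num
  obtain ⟨k, hk⟩ : ∃ k : ℤ, 16 = g * (8 * k) := by
    rcases hg with rfl | rfl
    · exact ⟨2, by norm_num⟩
    · exact ⟨1, by norm_num⟩
  have hw' : (w - 8 * (k * m)) % 8 = w % 8 := by omega
  have e0 : ((g * w : ℤ) : ℚ_[2]) + m = (s : ℚ_[2]) * s := by
    have : g * w + m = s * s := by rw [hx]; ring
    exact_mod_cast this
  have e1 : ((g * w : ℤ) : ℚ_[2]) - 16 * m = g * ((w - 8 * (k * m) : ℤ) : ℚ_[2]) := by
    have : g * w - 16 * m = g * (w - 8 * (k * m)) := by rw [hk]; ring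
    exact_mod_cast this
  have hs' : (s : ℚ_[2]) ≠ 0 := by exact_mod_cast hs
  refine locC_mk (u := ((g * w : ℤ) : ℚ_[2])) ?_ ?_ ?_ ?_ ?_ ?_
  · push_cast
    exact mul_ne_zero hg0 (nz2 hw2)
  · rw [e0]
    exact mul_ne_zero hs' hs'
  · rw [e1]
    exact mul_ne_zero hg0 (nz2 (by omega))
  · rw [e0, e1]
    have h3 : (w * (w - 8 * (k * m))) % 8 = 1 := by
      rw [Int.mul_emod, hw', ← Int.mul_emod]
      exact hww
    refine sq2 (z := g * s) h3 ?_
    push_cast
    ring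
  · refine sq2 (z := g) hw ?_
    push_cast
    ring
  · rw [e0]
    refine ⟨s, ?_⟩
    push_cast
    ring

/-- `m ≡ 1 mod 8` -/
lemma locC_two1 {m d1 d2 : ℤ} (h8 : m % 8 = 1) (h1 : d1 % 2 = 1) (h2 : d2 % 4 = 1) :
    LocC ℚ_[2] 0 (-m) (16 * m) d1 d2 := by
  have hm : m ≠ 0 := by rintro rfl; norm_num at h8
  have odd8 : d1 % 8 = 1 ∨ d1 % 8 = 3 ∨ d1 % 8 = 5 ∨ d1 % 8 = 7 := by omega
  have hd1 : d1 ≠ 0 := by rintro rfl; norm_num at h1
  have to1 : ∀ {a : ℤ}, LocC ℚ_[2] 0 (-m) (16 * m) a 1 → a ≠ 0 → (a * d1) % 8 = 1 →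
      d2 % 8 = 1 → LocC ℚ_[2] 0 (-m) (16 * m) d1 d2 := fun h ha h3 h4 =>
    congr8 h ha one_ne_zero h3 (by rw [one_mul]; exact h4)
  rcases (by omega : d2 % 8 = 1 ∨ d2 % 8 = 5) with k2 | k2
  · rcases odd8 with k1 | k1 | k1 | k1
    · exact to1 (locC_one 2 m) one_ne_zero (by rw [one_mul]; exact k1) k2
    · have h := locC_pt2 (m := m) (w := 4 - m) (u := 3) (s := 2) (g := 1) (Or.inl rfl)
        (by norm_num) (by ring) (by omega)
      exact to1 h (by norm_num) (by omega) k2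
    · exact to1 (locC_51 (by omega)) (by norm_num) (by omega) k2
    · have h := locC_pt2 (m := m) (w := 16 - m) (u := 7) (s := 4) (g := 1) (Or.inl rfl)
        (by norm_num) (by ring) (by omega)
      exact to1 h (by norm_num) (by omega) k2
  · have e1 : (4 * (d1 : ℚ_[2])) + m = ((4 * d1 + m : ℤ) : ℚ_[2]) := by push_cast; ring
    have e2 : (4 * (d1 : ℚ_[2])) - 16 * m = 4 * ((d1 - 4 * m : ℤ) : ℚ_[2]) := by
      push_cast
      ring
    have hd1' : (d1 : ℚ_[2]) ≠ 0 := by exact_mod_cast hd1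
    refine locC_mk (u := 4 * (d1 : ℚ_[2])) (mul_ne_zero (by norm_num) hd1') ?_ ?_ ?_ ?_ ?_
    · rw [e1]
      exact nz2 (by omega)
    · rw [e2]
      exact mul_ne_zero (by norm_num) (nz2 (by omega))
    · rw [e1, e2]
      have h3 : (d1 * (4 * d1 + m) * (d1 - 4 * m)) % 8 = 1 := by
        have a1 : (4 * d1 + m) % 8 = 5 := by omega
        rcases odd8 with k1 | k1 | k1 | k1
        · rw [mod_mul (mod_mul k1 a1) (by omega : (d1 - 4 * m) % 8 = 5)]; norm_num
        · rw [mod_mul (mod_mul k1 a1) (by omega : (d1 - 4 * m) % 8 = 7)]; norm_num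
        · rw [mod_mul (mod_mul k1 a1) (by omega : (d1 - 4 * m) % 8 = 1)]; norm_num
        · rw [mod_mul (mod_mul k1 a1) (by omega : (d1 - 4 * m) % 8 = 3)]; norm_num
      refine sq2 (z := 4) h3 ?_
      push_cast
      ring
    · refine ⟨2 * d1, ?_⟩
      ring
    · rw [e1]
      have h3 : ((4 * d1 + m) * d2) % 8 = 1 := by
        rw [mod_mul (by omega : (4 * d1 + m) % 8 = 5) k2]
        norm_num
      have := sq_int h3
      push_cast at this ⊢
      exact this

/-- `m ≡ 1 mod 4` -/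
theorem locC_two {m d1 d2 : ℤ} (h4 : m % 4 = 1) (h1 : d1 % 2 = 1) (h2 : d2 % 4 = 1) :
    LocC ℚ_[2] 0 (-m) (16 * m) d1 d2 := by
  rcases (by omega : m % 8 = 1 ∨ m % 8 = 5) with h | h
  · exact locC_two1 h h1 h2
  · exact locC_two5 h h1 h2

/-! ### the ramified case -/

/-- the Hilbert symbol `(c, u)_2` for `c = -1, 2, -2` and `u` odd -/
def hz (c u : ℤ) : ZMod 2 :=
  if c = -1 then (if u % 4 = 1 then 0 else 1)
  else if c = 2 then (if u % 8 = 1 ∨ u % 8 = 7 then 0 else 1)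
  else (if u % 8 = 1 ∨ u % 8 = 3 then 0 else 1)

/-- the class of `o` -/
def oz (o : ℤ) : ZMod 2 := if o % 8 = 1 then 0 else 1

lemma locC_5 {m : ℤ} (hm : m % 2 = 1) {u : ℤ} (hu : u % 8 = 5) :
    LocC ℚ_[2] 0 (-m) (16 * m) u 1 :=
  congr8 (locC_51 hm) (by norm_num) one_ne_zero (by omega) (by norm_num)

/-- the odd classes -/
lemma locC_odd {c o u : ℤ} (hc : c = -1 ∨ c = 2 ∨ c = -2) (ho : o % 4 = 1)
    (hu : u % 2 = 1) (h : hz c u = 0) : LocC ℚ_[2] 0 (-(c * o)) (16 * (c * o)) u 1 := by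
  have h0 : u % 8 = 1 → LocC ℚ_[2] 0 (-(c * o)) (16 * (c * o)) u 1 := fun hu8 =>
    congr8 (locC_one 2 (c * o)) one_ne_zero one_ne_zero (by rw [one_mul]; exact hu8)
      (by norm_num)
  have z1 : ¬ ((1 : ZMod 2) = 0) := by decide
  unfold hz at h
  rcases hc with rfl | rfl | rfl
  · rw [if_pos rfl] at h
    have h4 : u % 4 = 1 := by
      by_contra hcon
      rw [if_neg hcon] at h
      exact z1 h
    rcases (by omega : u % 8 = 1 ∨ u % 8 = 5) with h8 | h8
    · exact h0 h8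
    · exact locC_5 (by omega) h8
  · rw [if_neg (by norm_num), if_pos rfl] at h
    have h4 : u % 8 = 1 ∨ u % 8 = 7 := by
      by_contra hcon
      rw [if_neg hcon] at h
      exact z1 h
    rcases h4 with h8 | h8
    · exact h0 h8
    · have := locC_pt2 (m := 2 * o) (w := 1 - 2 * o) (u := u) (s := 1) (g := 1) (Or.inl rfl)
        (by norm_num) (by ring) (by
          rw [mod_mul (by omega : (1 - 2 * o) % 8 = 7) h8]
          norm_num)
      rwa [one_mul] at this
  · rw [if_neg (by norm_num), if_neg (by norm_num)] at h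
    have h4 : u % 8 = 1 ∨ u % 8 = 3 := by
      by_contra hcon
      rw [if_neg hcon] at h
      exact z1 h
    rcases h4 with h8 | h8
    · exact h0 h8
    · have := locC_pt2 (m := -2 * o) (w := 1 + 2 * o) (u := u) (s := 1) (g := 1) (Or.inl rfl)
        (by norm_num) (by ring) (by
          rw [mod_mul (by omega : (1 + 2 * o) % 8 = 3) h8]
          norm_num)
      rwa [one_mul] at this

/-- the even classes -/
lemma locC_even {c o u : ℤ} (hc : c = -1 ∨ c = 2 ∨ c = -2) (ho : o % 4 = 1)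
    (hu : u % 2 = 1) (h : hz c u + oz o = 0) :
    LocC ℚ_[2] 0 (-(c * o)) (16 * (c * o)) (2 * u) 1 := by
  have z1 : ¬ ((1 : ZMod 2) = 0) := by decide
  have z2 : (1 : ZMod 2) + 1 = 0 := by decide
  unfold hz oz at h
  rcases hc with rfl | rfl | rfl
  · rw [if_pos rfl] at h
    -- `x = 1 - m` and `x = 9 - m`
    obtain ⟨w, hw⟩ : ∃ w, 1 + o = 2 * w := ⟨(1 + o) / 2, by omega⟩
    have hwu : (w * u) % 8 = 1 ∨ ((w + 4) * u) % 8 = 1 := by
      have h3 : (o % 8 = 1 ∧ u % 4 = 1) ∨ (o % 8 = 5 ∧ u % 4 = 3) := by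
        by_cases h5 : o % 8 = 1
        · left
          refine ⟨h5, ?_⟩
          by_contra hcon
          rw [if_pos h5, if_neg hcon, add_zero] at h
          exact z1 h
        · right
          refine ⟨by omega, ?_⟩
          by_contra hcon
          rw [if_neg h5, if_pos (by omega), zero_add] at h
          exact z1 h
      rcases h3 with ⟨h5, h6⟩ | ⟨h5, h6⟩
      · rcases (by omega : w % 8 = 1 ∨ w % 8 = 5) with a | a <;>
          rcases (by omega : u % 8 = 1 ∨ u % 8 = 5) with b | b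
        · left; rw [mod_mul a b]; norm_num
        · right; rw [mod_mul (by omega : (w + 4) % 8 = 5) b]; norm_num
        · right; rw [mod_mul (by omega : (w + 4) % 8 = 1) b]; norm_num
        · left; rw [mod_mul a b]; norm_num
      · rcases (by omega : w % 8 = 3 ∨ w % 8 = 7) with a | a <;>
          rcases (by omega : u % 8 = 3 ∨ u % 8 = 7) with b | b
        · left; rw [mod_mul a b]; norm_num
        · right; rw [mod_mul (by omega : (w + 4) % 8 = 7) b]; norm_num
        · right; rw [mod_mul (by omega : (w + 4) % 8 = 3) b]; norm_num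
        · left; rw [mod_mul a b]; norm_num
    rcases hwu with hwu | hwu
    · exact locC_pt2 (m := -1 * o) (w := w) (u := u) (s := 1) (g := 2) (Or.inr rfl)
        (by norm_num) (by linear_combination -hw) hwu
    · exact locC_pt2 (m := -1 * o) (w := w + 4) (u := u) (s := 3) (g := 2) (Or.inr rfl)
        (by norm_num) (by linear_combination -hw) hwu
  · rw [if_neg (by norm_num), if_pos rfl] at h
    have p4 : ((2 - o) * u) % 8 = 1 → LocC ℚ_[2] 0 (-(2 * o)) (16 * (2 * o)) (2 * u) 1 :=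
      fun hwu => locC_pt2 (m := 2 * o) (w := 2 - o) (u := u) (s := 2) (g := 2) (Or.inr rfl)
        (by norm_num) (by ring) hwu
    have p16 : ((8 - o) * u) % 8 = 1 → LocC ℚ_[2] 0 (-(2 * o)) (16 * (2 * o)) (2 * u) 1 :=
      fun hwu => locC_pt2 (m := 2 * o) (w := 8 - o) (u := u) (s := 4) (g := 2) (Or.inr rfl)
        (by norm_num) (by ring) hwu
    by_cases h5 : o % 8 = 1
    · rw [if_pos h5, add_zero] at h
      have h4 : u % 8 = 1 ∨ u % 8 = 7 := by
        by_contra hcon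
        rw [if_neg hcon] at h
        exact z1 h
      rcases h4 with h8 | h8
      · exact p4 (by rw [mod_mul (by omega : (2 - o) % 8 = 1) h8]; norm_num)
      · exact p16 (by rw [mod_mul (by omega : (8 - o) % 8 = 7) h8]; norm_num)
    · rw [if_neg h5] at h
      have h4 : u % 8 = 3 ∨ u % 8 = 5 := by
        by_contra hcon
        rw [if_pos (by omega), zero_add] at h
        exact z1 h
      rcases h4 with h8 | h8
      · exact p16 (by rw [mod_mul (by omega : (8 - o) % 8 = 3) h8]; norm_num)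
      · exact p4 (by rw [mod_mul (by omega : (2 - o) % 8 = 5) h8]; norm_num)
  · rw [if_neg (by norm_num), if_neg (by norm_num)] at h
    have p4 : ((2 + o) * u) % 8 = 1 → LocC ℚ_[2] 0 (-(-2 * o)) (16 * (-2 * o)) (2 * u) 1 :=
      fun hwu => locC_pt2 (m := -2 * o) (w := 2 + o) (u := u) (s := 2) (g := 2) (Or.inr rfl)
        (by norm_num) (by ring) hwu
    have p16 : ((8 + o) * u) % 8 = 1 → LocC ℚ_[2] 0 (-(-2 * o)) (16 * (-2 * o)) (2 * u) 1 :=
      fun hwu => locC_pt2 (m := -2 * o) (w := 8 + o) (u := u) (s := 4) (g := 2) (Or.inr rfl)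
        (by norm_num) (by ring) hwu
    by_cases h5 : o % 8 = 1
    · rw [if_pos h5, add_zero] at h
      have h4 : u % 8 = 1 ∨ u % 8 = 3 := by
        by_contra hcon
        rw [if_neg hcon] at h
        exact z1 h
      rcases h4 with h8 | h8
      · exact p16 (by rw [mod_mul (by omega : (8 + o) % 8 = 1) h8]; norm_num)
      · exact p4 (by rw [mod_mul (by omega : (2 + o) % 8 = 3) h8]; norm_num)
    · rw [if_neg h5] at h
      have h4 : u % 8 = 5 ∨ u % 8 = 7 := by
        by_contra hcon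
        rw [if_pos (by omega), zero_add] at h
        exact z1 h
      rcases h4 with h8 | h8
      · exact p16 (by rw [mod_mul (by omega : (8 + o) % 8 = 5) h8]; norm_num)
      · exact p4 (by rw [mod_mul (by omega : (2 + o) % 8 = 7) h8]; norm_num)

lemma hz_mul {c a b : ℤ} (hc : c = -1 ∨ c = 2 ∨ c = -2) (ha : a % 2 = 1) (hb : b % 2 = 1) :
    hz c (a * b) = hz c a + hz c b := by
  have h8 : ∀ x : ℤ, x % 2 = 1 → x % 8 = 1 ∨ x % 8 = 3 ∨ x % 8 = 5 ∨ x % 8 = 7 := by
    intro x hx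
    omega
  have hred : ∀ x : ℤ, hz c x = hz c (x % 8) := by
    intro x
    unfold hz
    have e1 : x % 8 % 4 = x % 4 := by omega
    have e2 : x % 8 % 8 = x % 8 := by omega
    rw [e1, e2]
  rw [hred (a * b), hred a, hred b, Int.mul_emod]
  rcases hc with rfl | rfl | rfl <;> rcases h8 a ha with h | h | h | h <;>
    rcases h8 b hb with h' | h' | h' | h' <;> rw [h, h'] <;> decide

lemma hz_neg {c u : ℤ} (hc : c = -1 ∨ c = 2 ∨ c = -2) (hu : u % 2 = 1) :
    hz c (-u) = hz c u + if c < 0 then 1 else 0 := by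
  have e : -u = -1 * u := by ring
  rw [e, hz_mul hc (by norm_num) hu, add_comm]
  congr 1
  rcases hc with rfl | rfl | rfl <;> decide

/-- **The prime `2`, ramified case.** -/
theorem locC_tworam {m c o d1 d2 u : ℤ} (hm : m = c * o) (hc : c = -1 ∨ c = 2 ∨ c = -2)
    (ho : o % 4 = 1) (hu : u % 2 = 1) (hd2 : d2 ≠ 0)
    (hd : (d1 = u ∧ ((IsSquare (d2 : ℚ_[2]) ∧ hz c u = 0) ∨
        (IsSquare ((d2 : ℚ_[2]) * m) ∧ hz c u + (if c < 0 then 1 else 0) = 0))) ∨
      (d1 = 2 * u ∧ ((IsSquare (d2 : ℚ_[2]) ∧ hz c u + oz o = 0) ∨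
        (IsSquare ((d2 : ℚ_[2]) * m) ∧ hz c u + oz o + (if c < 0 then 1 else 0) = 0)))) :
    LocC ℚ_[2] 0 (-m) (16 * m) d1 d2 := by
  subst hm
  have hm0 : c * o ≠ 0 := by
    refine mul_ne_zero ?_ ?_
    · rcases hc with rfl | rfl | rfl <;> norm_num
    · rintro rfl
      norm_num at ho
  have hu0 : u ≠ 0 := by rintro rfl; norm_num at hu
  have dir : ∀ {a : ℤ}, LocC ℚ_[2] 0 (-(c * o)) (16 * (c * o)) a 1 → a ≠ 0 →
      IsSquare (d2 : ℚ_[2]) → LocC ℚ_[2] 0 (-(c * o)) (16 * (c * o)) a d2 := by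
    intro a h ha h2
    refine locC_congr ha one_ne_zero h ?_ ?_
    · exact IsSquare.mul_self _
    · rwa [Int.cast_one, one_mul]
  have inv : ∀ {a : ℤ}, LocC ℚ_[2] 0 (-(c * o)) (16 * (c * o)) (-a) 1 → a ≠ 0 →
      IsSquare ((d2 : ℚ_[2]) * ((c * o : ℤ) : ℚ_[2])) →
      LocC ℚ_[2] 0 (-(c * o)) (16 * (c * o)) a d2 := by
    intro a h ha h2
    have h3 := locC_T0 hm0 h
    rw [neg_neg, mul_one] at h3
    refine locC_congr ha hm0 h3 ?_ ?_
    · exact IsSquare.mul_self _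
    · rwa [mul_comm]
  rcases hd with ⟨rfl, ⟨h2, h3⟩ | ⟨h2, h3⟩⟩ | ⟨rfl, ⟨h2, h3⟩ | ⟨h2, h3⟩⟩
  · exact dir (locC_odd hc ho hu h3) hu0 h2
  · exact inv (locC_odd hc ho (by omega) (by rw [hz_neg hc hu]; exact h3)) hu0 h2
  · exact dir (locC_even hc ho hu h3) (mul_ne_zero (by norm_num) hu0) h2
  · refine inv ?_ (mul_ne_zero (by norm_num) hu0) h2
    have h4 := locC_even hc ho (u := -u) (by omega) (by
      rw [hz_neg hc hu, add_right_comm]
      exact h3)
    rwa [mul_neg] at h4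

end Pool.Agent.N875.P17
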