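import Pool.Agent.N875.P17.Cn2

/-!
# The converse: the local conditions at all places
-/

set_option autoImplicit false

open Finset

namespace Pool.Agent.N875.P17

open Pool.Agent.N875.X15
open Pool.Agent.TH841.SH (LocC SelG)

section

variable {m : ℤ} {X Y : Finset ℕ}

lemma ra2_17 : ra 2 17 = 0 := by
  unfold ra
  rw [ch_two]
  rfl

/-- **A kernel vector gives classes which are locally soluble everywhere.** -/
theorem everywhere (hs : Squarefree m) (hX : X ⊆ PR m) (hY : Y ⊆ PR m) (h17 : 17 ∉ X)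
    (first : ∀ p ∈ PR m, p ≠ 17 → ra p 17 * ind X p + ∑ q ∈ PR m, Lm m p q * ind Y q = 0)
    (second : ∀ q ∈ PR m, ∑ p ∈ PR m, Lm m p q * ind X p + al m q * ind Y q = 0) :
    0 < ∏ r ∈ X, ((r : ℕ) : ℤ) ∧ 0 < ∏ q ∈ Y, ps m q ∧ ∀ (p : ℕ) [Fact p.Prime],
      LocC ℚ_[p] 0 (-m) (16 * m) (∏ r ∈ X, ((r : ℕ) : ℤ)) (∏ q ∈ Y, ps m q) := by
  classical
  have hm0 := hs.ne_zero
  have hpr : ∀ p ∈ PR m, p.Prime := fun p hp => ((mem_PR hm0).1 hp).1
  have hpsne : ∀ q ∈ Y, ps m q ≠ 0 := fun q hq h0 => by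
    have := prod_PR hs
    rw [Finset.prod_eq_zero (hY hq) h0] at this
    exact hm0 this.symm
  have hal : ∑ q ∈ PR m, al m q * ind Y q = 0 := by
    rw [← total (X := X)]
    exact Finset.sum_eq_zero second
  have hd1pos : 0 < ∏ r ∈ X, ((r : ℕ) : ℤ) :=
    Finset.prod_pos fun r hr => by exact_mod_cast (hpr r (hX hr)).pos
  have hd2pos : 0 < ∏ q ∈ Y, ps m q := by
    rcases prod_sign Y hpsne with h | h
    · exact h.2
    · rw [sum_ind hY] at hal
      rw [hal] at h
      exact absurd h.1 (by decide)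
  refine ⟨hd1pos, hd2pos, ?_⟩
  -- the rows
  have row2 : 2 ∈ PR m → ∑ q ∈ PR m, Lm m 2 q * ind Y q = 0 := fun h => by
    have := first 2 h (by norm_num)
    rwa [ra2_17, zero_mul, zero_add] at this
  have rt := row_total hs hY hal row2
  have hi17 : ind X 17 = 0 := if_neg h17
  have hR : ∀ p ∈ PR m, p ≠ 17 → ∑ q ∈ PR m, Lm m p q * ind Y q = ra p 17 * ind X p := by
    intro p hp hp17
    have h1 := first p hp hp17
    have h2 := two_zmod (ra p 17 * ind X p)
    generalize ra p 17 * ind X p = a at *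
    generalize ∑ q ∈ PR m, Lm m p q * ind Y q = b at *
    clear * - h1 h2
    revert a b
    decide
  have hS : ∑ p ∈ ((PR m).erase 2).erase 17, ∑ q ∈ PR m, Lm m p q * ind Y q =
      ∑ p ∈ X, ra p 17 := by
    rw [← sum_ind hX]
    have e1 : ∑ p ∈ ((PR m).erase 2).erase 17, ∑ q ∈ PR m, Lm m p q * ind Y q =
        ∑ p ∈ ((PR m).erase 2).erase 17, ra p 17 * ind X p :=
      Finset.sum_congr rfl fun p hp => hR p
        (Finset.mem_of_mem_erase (Finset.mem_of_mem_erase hp)) (Finset.ne_of_mem_erase hp)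
    rw [e1]
    refine Finset.sum_subset ((Finset.erase_subset _ _).trans (Finset.erase_subset _ _)) ?_
    intro p hp hp2
    by_cases h2 : p = 2
    · rw [h2, ra2_17, zero_mul]
    · have h3 : p = 17 := by
        by_contra h3
        exact hp2 (Finset.mem_erase.2 ⟨h3, Finset.mem_erase.2 ⟨h2, hp⟩⟩)
      rw [h3, hi17, mul_zero]
  have ps17 : ps m 17 = 17 := by
    rw [ps_odd (by norm_num)]
    rfl
  have al17 : al m 17 = 0 := by
    unfold al
    rw [ps17]
    rfl
  have S17 : ∑ p ∈ X, ra p 17 = 0 := by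
    by_cases hP : 17 ∈ PR m
    · have h1 := second 17 hP
      rw [al17, zero_mul, add_zero, col_notMem hX h17, ps17] at h1
      exact h1
    · have hP' : 17 ∉ (PR m).erase 2 := fun h => hP (Finset.mem_of_mem_erase h)
      rw [← hS, Finset.erase_eq_of_notMem hP']
      exact rt
  have row17 : 17 ∈ PR m → ∑ q ∈ PR m, Lm m 17 q * ind Y q = 0 := fun hP => by
    have hP' : 17 ∈ (PR m).erase 2 := Finset.mem_erase.2 ⟨by norm_num, hP⟩
    rw [← Finset.add_sum_erase _ _ hP', hS, S17, add_zero] at rt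
    exact rt
  have rows : ∀ p ∈ PR m, ra p 17 * ind X p + ∑ q ∈ PR m, Lm m p q * ind Y q = 0 := by
    intro p hp
    by_cases hp17 : p = 17
    · subst hp17
      rw [hi17, mul_zero, zero_add]
      exact row17 hp
    · exact first p hp hp17
  -- divisibility
  have hdX : ∀ p : ℕ, p.Prime → p ∉ PR m → ¬ (p : ℤ) ∣ ∏ r ∈ X, ((r : ℕ) : ℤ) := by
    intro p hp hpP h
    rw [Prime.dvd_finsetProd_iff (Nat.prime_iff_prime_int.1 hp)] at h
    obtain ⟨r, hr, hpr'⟩ := h
    have h1 : p ∣ r := by exact_mod_cast hpr'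
    rw [(Nat.prime_dvd_prime_iff_eq hp (hpr r (hX hr))).1 h1] at hpP
    exact hpP (hX hr)
  have hme : m = (∏ q ∈ Y, ps m q) * ∏ q ∈ PR m \ Y, ps m q := by
    rw [mul_comm, Finset.prod_sdiff hY, prod_PR hs]
  intro p hpf
  have hp := hpf.out
  by_cases hp2 : p = 2
  · subst hp2
    by_cases h4 : m % 4 = 1
    · have h2P : 2 ∉ PR m := fun h => (two_mem_PR hm0).1 h h4
      refine locC_two h4 ?_ ?_
      · have := hdX 2 Nat.prime_two h2P
        push_cast at this
        omega
      · rw [← gd_two]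
        refine gd_prod Nat.prime_two _ _ fun q hq => ?_
        rw [gd_two]
        have hq2 : q ≠ 2 := fun h => h2P (h ▸ hY hq)
        rw [ps_odd hq2]
        exact sgp_mod (hpr q (hY hq)) hq2
    · have h2P : 2 ∈ PR m := (two_mem_PR hm0).2 h4
      have hc : ps m 2 = -1 ∨ ps m 2 = 2 ∨ ps m 2 = -2 := by
        rw [ps_two]
        obtain ⟨a1, a2⟩ := d2_spec hs
        have ho := oe_mod m
        rcases a2 with ⟨-, a | a⟩ | ⟨-, a | a⟩
        · exfalso
          rw [a, one_mul] at a1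
          omega
        · exact Or.inl a
        · exact Or.inr (Or.inl a)
        · exact Or.inr (Or.inr a)
      have hmo : m = ps m 2 * oe m := by rw [ps_two]; exact (d2_spec hs).1
      have hX' : ∀ p ∈ X.erase 2, p.Prime ∧ p ≠ 2 := fun p hp =>
        ⟨hpr p (hX (Finset.mem_of_mem_erase hp)), Finset.ne_of_mem_erase hp⟩
      have hal2 : (if ps m 2 < 0 then 1 else 0 : ZMod 2) = al m 2 := rfl
      have hcol := second 2 h2P
      have hoz : ∑ r ∈ (PR m).erase 2, ra 2 (ps m r) = oz (oe m) := by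
        rw [← ra_two, oe, ← PR_erase hm0, ← ra_prod Nat.prime_two]
        · exact Finset.sum_congr rfl fun q hq => by rw [ps_odd (Finset.ne_of_mem_erase hq)]
        · intro q hq
          rw [gd_two]
          exact sgp_mod (hpr q (Finset.mem_of_mem_erase hq)) (Finset.ne_of_mem_erase hq)
      have hsq : (2 ∉ Y ∧ IsSquare (((∏ q ∈ Y, ps m q : ℤ)) : ℚ_[2])) ∨
          (2 ∈ Y ∧ IsSquare ((((∏ q ∈ Y, ps m q : ℤ)) : ℚ_[2]) * m)) := by
        have h1 := row2 h2P
        by_cases hY2 : 2 ∈ Y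
        · right
          refine ⟨hY2, ?_⟩
          have g : ∀ q ∈ PR m \ Y, Gd 2 (ps m q) := fun q hq => by
            obtain ⟨h1, h2⟩ := Finset.mem_sdiff.1 hq
            exact gd_ps hs (hpr q h1) Nat.prime_two (fun h => h2 (h ▸ hY2))
          rw [row_mem hY hY2, ra_prod Nat.prime_two _ _ g,
            ra_iff (gd_prod Nat.prime_two _ _ g)] at h1
          have e3 : (((∏ q ∈ Y, ps m q : ℤ)) : ℚ_[2]) * m =
              ((∏ q ∈ Y, ps m q : ℤ) * (∏ q ∈ Y, ps m q : ℤ)) *
                ((∏ q ∈ PR m \ Y, ps m q : ℤ) : ℚ_[2]) := by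
            have e4 : (∏ q ∈ Y, ps m q) * m = (∏ q ∈ Y, ps m q) * (∏ q ∈ Y, ps m q) *
                ∏ q ∈ PR m \ Y, ps m q :=
              (congrArg (fun t => (∏ q ∈ Y, ps m q) * t) hme).trans (mul_assoc _ _ _).symm
            exact_mod_cast e4
          rw [e3]
          exact (IsSquare.mul_self _).mul h1
        · left
          refine ⟨hY2, ?_⟩
          have g : ∀ q ∈ Y, Gd 2 (ps m q) := fun q hq =>
            gd_ps hs (hpr q (hY hq)) Nat.prime_two (fun h => hY2 (h ▸ hq))
          rw [row_notMem hY hY2, ra_prod Nat.prime_two _ _ g,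
            ra_iff (gd_prod Nat.prime_two _ _ g)] at h1
          exact h1
      refine locC_tworam (c := ps m 2) (o := oe m) (u := ∏ r ∈ X.erase 2, ((r : ℕ) : ℤ)) hmo hc
        (oe_mod m) (odd_prodP hX') hd2pos.ne' ?_
      by_cases hX2 : 2 ∈ X
      · right
        refine ⟨(Finset.mul_prod_erase X (fun r => ((r : ℕ) : ℤ)) hX2).symm, ?_⟩
        rw [col_mem hX hX2, hoz, sum_hz hc hX'] at hcol
        rcases hsq with ⟨hY2, h1⟩ | ⟨hY2, h1⟩
        · left
          refine ⟨h1, ?_⟩
          have hi : ind Y 2 = 0 := if_neg hY2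
          rw [hi, mul_zero, add_zero] at hcol
          rw [add_comm]
          exact hcol
        · right
          refine ⟨h1, ?_⟩
          have hi : ind Y 2 = 1 := if_pos hY2
          rw [hi, mul_one] at hcol
          rw [add_comm (hz _ _) (oz _), hal2]
          exact hcol
      · left
        rw [Finset.erase_eq_of_notMem hX2] at hX' ⊢
        refine ⟨rfl, ?_⟩
        rw [col_notMem hX hX2, sum_hz hc hX'] at hcol
        rcases hsq with ⟨hY2, h1⟩ | ⟨hY2, h1⟩
        · left
          refine ⟨h1, ?_⟩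
          have hi : ind Y 2 = 0 := if_neg hY2
          rw [hi, mul_zero, add_zero] at hcol
          exact hcol
        · right
          refine ⟨h1, ?_⟩
          have hi : ind Y 2 = 1 := if_pos hY2
          rw [hi, mul_one] at hcol
          rw [hal2]
          exact hcol
  · by_cases hpP : p ∈ PR m
    · exact locC_P4 hm0 (p4_of_rows hs hX hY hpP hp2 h17 (rows p hpP) (second p hpP))
    · have hpm : ¬ (p : ℤ) ∣ m := fun h => hpP ((mem_PR hm0).2 ⟨hp, Or.inl h⟩)
      have hpd2 : ¬ (p : ℤ) ∣ ∏ q ∈ Y, ps m q := fun h => hpm (by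
        rw [hme]
        exact h.mul_right _)
      by_cases hp17 : p = 17
      · subst hp17
        refine locC_17 (by exact_mod_cast hpm) ?_ (by exact_mod_cast hpd2)
        have g : ∀ r ∈ X, Gd 17 ((r : ℕ) : ℤ) := fun r hr =>
          gd_nat (hpr r (hX hr)) hp hp2 (fun h => h17 (h ▸ hr))
        rw [← ra_iff (gd_prod hp _ _ g), ← ra_prod hp _ _ g, ← S17]
        refine Finset.sum_congr rfl fun r hr => ?_
        rw [← ra_rec (m := m) (hpr r (hX hr)) hp hp2, ps17]
      · exact locC_good hp2 hp17 hpm (hdX p hp hpP) hpd2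

end

end Pool.Agent.N875.P17
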