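import Pool.Agent.N875.P17.Sel

/-!
# The converse of the local conditions: general constructions
-/

set_option autoImplicit false

namespace Pool.Agent.N875.P17

open Pool.Agent.N875.X15
open Pool.Agent.TH841.SH (LocC SelG)

section

variable {K : Type} [Field K] [CharZero K] {m d1 d2 e1 e2 : ℤ}

/-- a point gives the local condition -/
lemma locC_mk {u : K} (hu : u ≠ 0) (hv : u + m ≠ 0) (hw : u - 16 * m ≠ 0)
    (hs : IsSquare (u * (u + m) * (u - 16 * m))) (h1 : IsSquare (u * d1))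
    (h2 : IsSquare ((u + m) * d2)) : LocC K 0 (-m) (16 * m) d1 d2 := by
  obtain ⟨y, hy⟩ := hs
  have hy0 : y ≠ 0 := by
    rintro rfl
    rw [mul_zero] at hy
    exact mul_ne_zero (mul_ne_zero hu hv) hw hy
  refine ⟨u, y, hy0, ?_, ?_, ?_⟩
  · rw [pow_two, ← hy]
    push_cast
    ring
  · push_cast
    rwa [sub_zero]
  · push_cast
    rwa [sub_neg_eq_add]

/-- the local condition only depends on the square classes -/
lemma locC_congr (hd1 : d1 ≠ 0) (hd2 : d2 ≠ 0) (h : LocC K 0 (-m) (16 * m) d1 d2)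
    (q1 : IsSquare ((d1 : K) * e1)) (q2 : IsSquare ((d2 : K) * e2)) :
    LocC K 0 (-m) (16 * m) e1 e2 := by
  obtain ⟨u, hu, hv, hw, hs, h1, h2⟩ := locC_iff17 h
  have hd1' : (d1 : K) ≠ 0 := by exact_mod_cast hd1
  have hd2' : (d2 : K) ≠ 0 := by exact_mod_cast hd2
  refine locC_mk hu hv hw hs ?_ ?_
  · refine sq_of (h1.mul q1) hd1' ?_
    ring
  · refine sq_of (h2.mul q2) hd2' ?_
    ring

/-- translation by `(0, 0)` -/
lemma locC_T0 (hm : m ≠ 0) (h : LocC K 0 (-m) (16 * m) d1 d2) :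
    LocC K 0 (-m) (16 * m) (-d1) (m * d2) := by
  obtain ⟨u, hu, hv, hw, hs, h1, h2⟩ := locC_iff17 h
  have hm' : (m : K) ≠ 0 := by exact_mod_cast hm
  have e1 : -(16 * (m : K) ^ 2) / u + m = m * (u - 16 * m) / u := by
    field_simp
    ring
  have e2 : -(16 * (m : K) ^ 2) / u - 16 * m = -(16 * m * (u + m)) / u := by
    field_simp
    ring
  have n16 : (16 : K) ≠ 0 := by norm_num
  obtain ⟨r, hr⟩ := hs
  obtain ⟨s, hs'⟩ := h1
  obtain ⟨t, ht⟩ := h2
  refine locC_mk (u := -(16 * (m : K) ^ 2) / u) ?_ ?_ ?_ ?_ ?_ ?_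
  · exact div_ne_zero (neg_ne_zero.2 (mul_ne_zero n16 (pow_ne_zero 2 hm'))) hu
  · rw [e1]
    exact div_ne_zero (mul_ne_zero hm' hw) hu
  · rw [e2]
    exact div_ne_zero (neg_ne_zero.2 (mul_ne_zero (mul_ne_zero n16 hm') hv)) hu
  · rw [e1, e2]
    refine ⟨16 * m ^ 2 * r / u ^ 2, ?_⟩
    have : -(16 * (m : K) ^ 2) / u * (m * (u - 16 * m) / u) * (-(16 * m * (u + m)) / u) =
      (16 * m ^ 2) ^ 2 * (u * (u + m) * (u - 16 * m)) / u ^ 4 := by
      field_simp
    rw [this, hr]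
    field_simp
  · push_cast
    refine ⟨4 * m * s / u, ?_⟩
    have : -(16 * (m : K) ^ 2) / u * -(d1 : K) = 16 * m ^ 2 * (u * d1) / u ^ 2 := by
      field_simp
    rw [this, hs']
    field_simp
    ring
  · rw [e1]
    push_cast
    refine ⟨m * r * t / (u * (u + m)), ?_⟩
    have : (m : K) * (u - 16 * m) / u * (m * d2) =
      m ^ 2 * (u * (u + m) * (u - 16 * m)) * ((u + m) * d2) / (u * (u + m)) ^ 2 := by
      field_simp
    rw [this, hr, ht]
    field_simp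

/-- translation by `(-m, 0)` -/
lemma locC_T1 (hm : m ≠ 0) (h : LocC K 0 (-m) (16 * m) d1 d2) :
    LocC K 0 (-m) (16 * m) (-m * d1) (17 * d2) := by
  obtain ⟨u, hu, hv, hw, hs, h1, h2⟩ := locC_iff17 h
  have hm' : (m : K) ≠ 0 := by exact_mod_cast hm
  have n17 : (17 : K) ≠ 0 := by norm_num
  have e1 : -((m : K) * (u - 16 * m)) / (u + m) + m = 17 * m ^ 2 / (u + m) := by
    field_simp
    ring
  have e2 : -((m : K) * (u - 16 * m)) / (u + m) - 16 * m = -(17 * m * u) / (u + m) := by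
    field_simp
    ring
  obtain ⟨r, hr⟩ := hs
  obtain ⟨s, hs'⟩ := h1
  obtain ⟨t, ht⟩ := h2
  refine locC_mk (u := -((m : K) * (u - 16 * m)) / (u + m)) ?_ ?_ ?_ ?_ ?_ ?_
  · exact div_ne_zero (neg_ne_zero.2 (mul_ne_zero hm' hw)) hv
  · rw [e1]
    exact div_ne_zero (mul_ne_zero n17 (pow_ne_zero 2 hm')) hv
  · rw [e2]
    exact div_ne_zero (neg_ne_zero.2 (mul_ne_zero (mul_ne_zero n17 hm') hu)) hv
  · rw [e1, e2]
    refine ⟨17 * m ^ 2 * r / (u + m) ^ 2, ?_⟩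
    have : -((m : K) * (u - 16 * m)) / (u + m) * (17 * m ^ 2 / (u + m)) *
        (-(17 * m * u) / (u + m)) =
      (17 * m ^ 2) ^ 2 * (u * (u + m) * (u - 16 * m)) / (u + m) ^ 4 := by
      field_simp
    rw [this, hr]
    field_simp
  · push_cast
    refine ⟨m * r * s / (u * (u + m)), ?_⟩
    have : -((m : K) * (u - 16 * m)) / (u + m) * (-(m : K) * d1) =
      m ^ 2 * (u * (u + m) * (u - 16 * m)) * (u * d1) / (u * (u + m)) ^ 2 := by
      field_simp
    rw [this, hr, hs']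
    field_simp
  · rw [e1]
    push_cast
    refine ⟨17 * m * t / (u + m), ?_⟩
    have : 17 * (m : K) ^ 2 / (u + m) * (17 * (d2 : K)) =
      (17 * m) ^ 2 * ((u + m) * d2) / (u + m) ^ 2 := by
      field_simp
    rw [this, ht]
    field_simp

end

/-- the trivial class -/
lemma locC_one (p : ℕ) [Fact p.Prime] (m : ℤ) : LocC ℚ_[p] 0 (-m) (16 * m) 1 1 := by
  obtain ⟨x, y, hy, hxy, h1, h2, -⟩ := Pool.Agent.TH841.SH.pt_pad p 0 (-m) (16 * m)
  refine ⟨x, y, hy, hxy, ?_, ?_⟩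
  · rw [Int.cast_one, mul_one]
    exact h1
  · rw [Int.cast_one, mul_one]
    exact h2

/-- the real place -/
lemma locC_real {m d1 d2 : ℤ} (h1 : 0 < d1) (h2 : 0 < d2) : LocC ℝ 0 (-m) (16 * m) d1 d2 := by
  obtain ⟨x, y, hy, hxy, q1, q2, -⟩ := Pool.Agent.TH841.SH.pt_real 0 (-m) (16 * m)
  have k1 : IsSquare (d1 : ℝ) := ⟨√(d1 : ℝ), (Real.mul_self_sqrt (by exact_mod_cast h1.le)).symm⟩
  have k2 : IsSquare (d2 : ℝ) := ⟨√(d2 : ℝ), (Real.mul_self_sqrt (by exact_mod_cast h2.le)).symm⟩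
  exact ⟨x, y, hy, hxy, q1.mul k1, q2.mul k2⟩

/-- square classes of torsion points -/
theorem locC_P4 {p : ℕ} [Fact p.Prime] {m d1 d2 : ℤ} (hm : m ≠ 0) (h : P4 p m d1 d2) :
    LocC ℚ_[p] 0 (-m) (16 * m) d1 d2 := by
  have h0 := locC_one p m
  rcases h with ⟨a, b⟩ | ⟨a, b⟩ | ⟨a, b⟩ | ⟨a, b⟩
  · refine locC_congr one_ne_zero one_ne_zero h0 ?_ ?_
    · rwa [Int.cast_one, one_mul]
    · rwa [Int.cast_one, one_mul]
  · refine locC_congr (by norm_num) (mul_ne_zero hm one_ne_zero) (locC_T0 hm h0) ?_ ?_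
    · push_cast
      rwa [neg_one_mul]
    · push_cast
      rw [mul_one, mul_comm]
      exact b
  · refine locC_congr (mul_ne_zero (neg_ne_zero.2 hm) one_ne_zero) (by norm_num)
      (locC_T1 hm h0) ?_ ?_
    · push_cast
      rw [mul_one, mul_comm]
      exact a
    · push_cast
      rw [mul_comm]
      exact b
  · refine locC_congr (neg_ne_zero.2 (mul_ne_zero (neg_ne_zero.2 hm) one_ne_zero))
      (mul_ne_zero hm (mul_ne_zero (by norm_num) one_ne_zero)) (locC_T0 hm (locC_T1 hm h0)) ?_ ?_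
    · push_cast
      rw [mul_one, neg_neg, mul_comm]
      exact a
    · push_cast
      have e : (m : ℚ_[p]) * 17 * d2 = d2 * (17 * m) := by ring
      rw [e]
      exact b

end Pool.Agent.N875.P17
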