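import Pool.Agent.N875.P17.Sel
import Pool.Agent.N875.X15.Conv3
import Pool.Agent.N969.P15.Glue

/-!
# The curves `E_m : y² = x (x + m) (x - 16 m)`: rank zero and `Ш[2^∞] = 0` from the condition `SC m`
-/

set_option autoImplicit false

namespace Pool.Agent.N875.P17

open WeierstrassCurve
open Pool.Agent.N875.X15 hiding Em EQm T4 T4_card T4_two nonsing isR
open Pool.Agent.TH841.SH (LocC SelG IsR)
open Pool.Agent.W262.SH (Sha)
open Pool.Agent.H437R2.Man.MW (crv pt_fg)

open scoped Classical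

section

variable {m : ℤ}

lemma int_eq_of_sq {a t : ℤ} (ha : Squarefree a) (ht : Squarefree t) (h : IsSquare (a * t)) :
    a = t := by
  have h1 : IsSquare (((a.natAbs : ℕ) : ℚ) * (t.natAbs : ℕ)) := by
    obtain ⟨r, hr⟩ := h
    refine ⟨(r.natAbs : ℕ), ?_⟩
    have : a.natAbs * t.natAbs = r.natAbs * r.natAbs := by
      rw [← Int.natAbs_mul, ← Int.natAbs_mul, hr]
    exact_mod_cast this
  have h2 := eq_of_sq_mul (Int.squarefree_natAbs.2 ha) (Int.squarefree_natAbs.2 ht) h1
  rcases Int.natAbs_eq_natAbs_iff.1 h2 with h3 | h3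
  · exact h3
  · exfalso
    obtain ⟨r, hr⟩ := h
    rw [h3] at hr
    have h4 : 0 ≤ r * r := mul_self_nonneg r
    have h5 : 0 < t * t := mul_self_pos.2 ht.ne_zero
    have : -t * t = -(t * t) := by ring
    rw [this] at hr
    omega

lemma sq_of_int {a b c : ℤ} (hc : c ≠ 0) (h : IsSquare a) (e : a = c * c * b) : IsSquare b := by
  obtain ⟨r, hr⟩ := h
  have h1 : c * c ∣ r * r := ⟨b, by rw [← hr, e]⟩
  have h2 : c ∣ r := by
    rw [← pow_two, ← pow_two] at h1
    exact (Int.pow_dvd_pow_iff two_ne_zero).1 h1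
  obtain ⟨s, hs⟩ := h2
  refine ⟨s, ?_⟩
  apply mul_left_cancel₀ (mul_ne_zero hc hc)
  rw [← e, hr, hs]
  ring

/-- the second coordinate of the image of the third point -/
def t3 (m : ℤ) : ℤ := if (17 : ℤ) ∣ m then m / 17 else 17 * m

lemma sqf_neg {d : ℤ} (h : Squarefree d) : Squarefree (-d) := fun x hx => h x (by rwa [dvd_neg] at hx)

lemma sqf17 : Squarefree (17 : ℤ) := by
  have : Prime (17 : ℤ) := by
    have := Nat.prime_iff_prime_int.1 (by norm_num : Nat.Prime 17)
    exact_mod_cast this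
  exact this.squarefree

lemma sqf_t3 (hm : Squarefree m) : Squarefree (t3 m) ∧ ∃ c : ℤ, c ≠ 0 ∧
    (t3 m = c * c * (17 * m) ∨ c * c * t3 m = 17 * m) := by
  unfold t3
  split_ifs with h
  · obtain ⟨k, rfl⟩ := h
    rw [Int.mul_ediv_cancel_left _ (by norm_num)]
    refine ⟨hm.squarefree_of_dvd (Dvd.intro_left _ rfl), 17, by norm_num, Or.inr (by ring)⟩
  · refine ⟨?_, 1, one_ne_zero, Or.inl (by ring)⟩
    rw [squarefree_mul_iff]
    refine ⟨?_, sqf17, hm⟩
    have hp : Prime (17 : ℤ) := by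
      have := Nat.prime_iff_prime_int.1 (by norm_num : Nat.Prime 17)
      exact_mod_cast this
    exact (hp.coprime_iff_not_dvd.2 h).isRelPrime

/-- **The 2-Selmer group.** -/
theorem sel_sub17 (hm : Squarefree m) (hS : SC m) {d1 d2 : ℤ}
    (h : (d1, d2) ∈ SelG 0 (-m) (16 * m)) :
    (d1, d2) ∈ ({(1, 1), (-1, m), (-m, 17), (m, t3 m)} : Set (ℤ × ℤ)) := by
  obtain ⟨s1, s2, hG⟩ := good_of_sel hm h
  have hm0 := hm.ne_zero
  obtain ⟨hts, c, hc, ht⟩ := sqf_t3 hm
  have fin : ∀ {t1 t2 : ℤ}, Squarefree t1 → Squarefree t2 → IsSquare (d1 * t1) →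
      IsSquare (d2 * t2) → (d1, d2) = (t1, t2) := by
    intro t1 t2 q1 q2 h1 h2
    rw [int_eq_of_sq s1 q1 h1, int_eq_of_sq s2 q2 h2]
  have hmm : IsSquare (d2 * (17 * m)) → IsSquare (d2 * t3 m) := by
    intro h1
    rcases ht with ht | ht
    · rw [ht]
      have e : d2 * (c * c * (17 * m)) = (c * c) * (d2 * (17 * m)) := by ring
      rw [e]
      exact (IsSquare.mul_self c).mul h1
    · rw [← ht] at h1
      exact sq_of_int hc h1 (by ring)
  -- the two normalizations
  have key : ∀ e1 e2 : ℤ, Good m e1 e2 → flag m e1 e2 →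
      (IsSquare e1 ∧ IsSquare e2) ∨ (IsSquare (-e1) ∧ IsSquare (m * e2)) := by
    intro e1 e2 hg hf
    rcases lt_or_gt_of_ne hg.n1 with h0 | h0
    · right
      exact squares_of_SC hm hS (good_T0 hm0 hg) (flag_T0 hm0 hg.n2 hf) (by omega)
    · left
      exact squares_of_SC hm hS hg hf h0
  by_cases hf : flag m d1 d2
  · rcases key _ _ hG hf with ⟨a, b⟩ | ⟨a, b⟩
    · have := fin squarefree_one squarefree_one (by rwa [mul_one]) (by rwa [mul_one])
      rw [this]
      simp
    · have := fin (t1 := -1) (t2 := m) (sqf_neg squarefree_one) hm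
        (by rwa [mul_neg, mul_one]) (by rwa [mul_comm])
      rw [this]
      simp
  · rcases key _ _ (good_T1 hm0 hG) (flag_T1 hm s1.ne_zero s2.ne_zero hf) with ⟨a, b⟩ | ⟨a, b⟩
    · have := fin (t1 := -m) (t2 := 17) (sqf_neg hm) sqf17
        (by rwa [mul_comm]) (by rwa [mul_comm])
      rw [this]
      simp
    · have := fin (t1 := m) (t2 := t3 m) hm hts
        (by
          have e : -(-m * d1) = d1 * m := by ring
          rwa [e] at a)
        (hmm (by
          have e : m * (17 * d2) = d2 * (17 * m) := by ring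
          rwa [e] at b))
      rw [this]
      simp

theorem sel_finite17 (hm : Squarefree m) (hS : SC m) :
    (SelG 0 (-m) (16 * m)).Finite ∧ (SelG 0 (-m) (16 * m)).ncard ≤ 4 := by
  have hsub : SelG 0 (-m) (16 * m) ⊆
      ((({(1, 1), (-1, m), (-m, 17), (m, t3 m)} : Finset (ℤ × ℤ))) : Set (ℤ × ℤ)) := by
    rintro ⟨d1, d2⟩ h
    have := sel_sub17 hm hS h
    simpa using this
  refine ⟨(Finset.finite_toSet _).subset hsub, ?_⟩
  refine (Set.ncard_le_ncard hsub (Finset.finite_toSet _)).trans ?_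
  rw [Set.ncard_coe_finset]
  exact Finset.card_le_four

end

/-! ### the curve -/

/-- `y² = x (x + m) (x - 16 m)` -/
def Em (m : ℤ) : WeierstrassCurve ℤ := ⟨0, -15 * m, 0, -16 * m ^ 2, 0⟩

/-- the curve over `ℚ` -/
abbrev EQm (m : ℤ) : WeierstrassCurve ℚ := (Em m).map (Int.castRingHom ℚ)

lemma isR (m : ℤ) : IsR (EQm m) ((0 : ℤ) : ℚ) ((-m : ℤ) : ℚ) ((16 * m : ℤ) : ℚ) := by
  refine ⟨?_, ?_, ?_, ?_, ?_⟩ <;> simp [Em] <;> ring

/-- a point of order two -/
lemma nonsing {m : ℤ} (hm : m ≠ 0) {x : ℚ} (hx : x * (x + m) * (x - 16 * m) = 0) :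
    (EQm m).toAffine.Nonsingular x 0 := by
  have hm' : (m : ℚ) ≠ 0 := by exact_mod_cast hm
  rw [Affine.nonsingular_iff, Affine.equation_iff]
  simp only [Em, map_a₁, map_a₂, map_a₃, map_a₄, map_a₆, eq_intCast]
  push_cast
  constructor
  · linear_combination -hx
  · left
    intro h
    rcases mul_eq_zero.1 hx with h1 | h1
    · rcases mul_eq_zero.1 h1 with h2 | h2
      · rw [h2] at h
        apply hm'
        have h3 : (m : ℚ) ^ 2 = 0 := by linear_combination (1 / 16 : ℚ) * h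
        exact pow_eq_zero_iff (two_ne_zero) |>.1 h3
      · have h4 : x = -m := by linear_combination h2
        rw [h4] at h
        apply hm'
        have h3 : (m : ℚ) ^ 2 = 0 := by linear_combination (-1 / 17 : ℚ) * h
        exact pow_eq_zero_iff (two_ne_zero) |>.1 h3
    · have h4 : x = 16 * m := by linear_combination h1
      rw [h4] at h
      apply hm'
      have h3 : (m : ℚ) ^ 2 = 0 := by linear_combination (-1 / 272 : ℚ) * h
      exact pow_eq_zero_iff (two_ne_zero) |>.1 h3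

/-- the points of order two -/
noncomputable def T4 {m : ℤ} (hm : m ≠ 0) : Finset (EQm m).toAffine.Point :=
  {0, .some 0 0 (nonsing hm (by simp)), .some (-m) 0 (nonsing hm (by ring)),
    .some (16 * m) 0 (nonsing hm (by ring))}

lemma T4_card {m : ℤ} (hm : m ≠ 0) : (T4 hm).card = 4 := by
  classical
  have hm' : (m : ℚ) ≠ 0 := by exact_mod_cast hm
  unfold T4
  have e : ∀ (x y : ℚ) (h : (EQm m).toAffine.Nonsingular x 0)
      (h' : (EQm m).toAffine.Nonsingular y 0), (Affine.Point.some x 0 h : (EQm m).toAffine.Point) =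
      .some y 0 h' → x = y := by
    intro x y h h' h1
    injection h1
  rw [Finset.card_insert_of_notMem, Finset.card_insert_of_notMem, Finset.card_insert_of_notMem,
    Finset.card_singleton]
  · rw [Finset.mem_singleton]
    intro h
    have h1 := e _ _ _ _ h
    apply hm'
    linear_combination (-1 / 17 : ℚ) * h1
  · rw [Finset.mem_insert, Finset.mem_singleton]
    rintro (h | h)
    · have h1 := e _ _ _ _ h
      apply hm'
      linear_combination h1
    · have h1 := e _ _ _ _ h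
      apply hm'
      linear_combination (-1 / 16 : ℚ) * h1
  · rw [Finset.mem_insert, Finset.mem_insert, Finset.mem_singleton]
    rintro (h | h | h)
    · exact absurd h.symm (Affine.Point.some_ne_zero _)
    · exact absurd h.symm (Affine.Point.some_ne_zero _)
    · exact absurd h.symm (Affine.Point.some_ne_zero _)

lemma T4_two {m : ℤ} (hm : m ≠ 0) : ∀ g ∈ T4 hm, g + g = 0 := by
  classical
  intro g hg
  unfold T4 at hg
  have key : ∀ (x : ℚ) (h : (EQm m).toAffine.Nonsingular x 0),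
      (Affine.Point.some x 0 h : (EQm m).toAffine.Point) + .some x 0 h = 0 := by
    intro x h
    refine Affine.Point.add_of_Y_eq rfl ?_
    rw [Affine.negY]
    simp [Em]
  rw [Finset.mem_insert, Finset.mem_insert, Finset.mem_insert, Finset.mem_singleton] at hg
  rcases hg with rfl | rfl | rfl | rfl
  · exact add_zero 0
  · exact key _ _
  · exact key _ _
  · exact key _ _

/-- **Rank zero and `Ш[2^∞] = 0`.** -/
theorem rank_sha17 {m : ℤ} (hm : Squarefree m) (hS : SC m) :
    Module.finrank ℤ (EQm m).toAffine.Point = 0 ∧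
    ∀ (k : ℕ) (x : Pool.Agent.TH841.SH.D.Sha (EQm m)), (2 ^ k : ℕ) • x = 0 → x = 0 := by
  have hm0 : m ≠ 0 := hm.ne_zero
  obtain ⟨hfin, hcard⟩ := sel_finite17 hm hS
  obtain ⟨h1, h2⟩ := Pool.Agent.Y667.SHA.main4 (EQm m) 0 (-m) (16 * m) (isR m)
    (by omega) (by omega) (by omega) hfin (T4 hm0) (T4_card hm0).ge (T4_two hm0)
  have h3 := h2.trans hcard
  have hpos : 0 < Nat.card {x : Sha (EQm m) // x + x = 0} := by
    have : Nonempty {x : Sha (EQm m) // x + x = 0} := ⟨⟨0, add_zero 0⟩⟩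
    exact Nat.card_pos
  have h5 : 2 ^ (Module.finrank ℤ (EQm m).toAffine.Point + 2) ≤ 2 ^ 2 :=
    (Nat.le_mul_of_pos_right _ hpos).trans h3
  have h6 := (Nat.pow_le_pow_iff_right (by norm_num : 1 < 2)).1 h5
  have h7 : Module.finrank ℤ (EQm m).toAffine.Point = 0 := by omega
  refine ⟨h7, ?_⟩
  rw [h7] at h3
  have h8 : Nat.card {x : Sha (EQm m) // x + x = 0} ≤ 1 := by omega
  have h9 : ∀ x : Sha (EQm m), x + x = 0 → x = 0 := by
    intro x hx
    have h10 : Subsingleton {x : Sha (EQm m) // x + x = 0} := by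
      rw [← Finite.card_le_one_iff_subsingleton]
      exact h8
    have := h10.elim ⟨x, hx⟩ ⟨0, add_zero 0⟩
    exact congrArg Subtype.val this
  refine fun k => Pool.Agent.Y667.SHA.no_tor (fun x hx => ?_) k
  have h11 := h9 (Pool.Agent.TH841.SH.D.eSha (EQm m) x) (by rw [← map_add, hx, map_zero])
  rwa [EmbeddingLike.map_eq_zero_iff] at h11

lemma fg_E {m : ℤ} (hm : m ≠ 0) : AddGroup.FG (EQm m).toAffine.Point := by
  have h := isR m
  have hm' : (m : ℚ) ≠ 0 := by exact_mod_cast hm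
  have hW : EQm m = crv (-(((0 : ℤ)) : ℚ)) (-((-m : ℤ) : ℚ)) (-((16 * m : ℤ) : ℚ)) := by
    apply WeierstrassCurve.ext
    · rw [h.h1]
      rfl
    · rw [h.h2]
      show _ = -(((0 : ℤ)) : ℚ) + -((-m : ℤ) : ℚ) + -((16 * m : ℤ) : ℚ)
      ring
    · rw [h.h3]
      rfl
    · rw [h.h4]
      show _ = -(((0 : ℤ)) : ℚ) * -((-m : ℤ) : ℚ) + -(((0 : ℤ)) : ℚ) * -((16 * m : ℤ) : ℚ) +
        -((-m : ℤ) : ℚ) * -((16 * m : ℤ) : ℚ)
      ring
    · rw [h.h6]
      show _ = -(((0 : ℤ)) : ℚ) * -((-m : ℤ) : ℚ) * -((16 * m : ℤ) : ℚ)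
      ring
  rw [hW]
  refine pt_fg ?_ ?_ ?_
  · intro h1
    apply hm'
    push_cast at h1
    linear_combination -h1
  · intro h1
    apply hm'
    push_cast at h1
    linear_combination (1 / 16 : ℚ) * h1
  · intro h1
    apply hm'
    push_cast at h1
    linear_combination (1 / 17 : ℚ) * h1

theorem finite_of_SC {m : ℤ} (hm : Squarefree m) (hS : SC m) :
    Finite (EQm m).toAffine.Point ∧
    ∀ (k : ℕ) (x : Pool.Agent.TH841.SH.D.Sha (EQm m)), (2 ^ k : ℕ) • x = 0 → x = 0 := by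
  obtain ⟨h1, h2⟩ := rank_sha17 hm hS
  exact ⟨fin_of_rank (fg_E hm.ne_zero) h1, h2⟩

end Pool.Agent.N875.P17
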