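import Pool.Agent.N875.P17.Mat
import Pool.Agent.N875.P17.Lo4

/-!
# The converse: identities over `F_2`
-/

set_option autoImplicit false

open Finset

namespace Pool.Agent.N875.P17

open Pool.Agent.N875.X15

section

variable {m : ℤ}

lemma ra_two (a : ℤ) : ra 2 a = oz a := by
  unfold ra oz
  rw [ch_two]
  by_cases h : a % 8 = 1
  · rw [if_pos h, if_pos rfl, if_pos h]
  · rw [if_neg h, if_neg (by decide), if_neg h]

/-- reciprocity -/
lemma ra_rec {p q : ℕ} (hp : p.Prime) (hq : q.Prime) (hq2 : q ≠ 2) :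
    ra p (ps m q) = ra q (p : ℤ) := by
  unfold ra
  rw [ps_odd hq2, recip_ch hp hq hq2, ch_odd hq2]

lemma al_odd {p : ℕ} (hp2 : p ≠ 2) : al m p = if sgp p < 0 then 1 else 0 := by
  unfold al
  rw [ps_odd hp2]

lemma al_idem (p : ℕ) : al m p * al m p = al m p := by
  unfold al
  split_ifs <;> decide

/-- `ps p` and `p` -/
lemma ra_ps {p q : ℕ} (hp : p.Prime) (hq : q.Prime) (hp2 : p ≠ 2) (hq2 : q ≠ 2) (hpq : p ≠ q) :
    ra q (ps m p) = ra q (p : ℤ) + al m p * al m q := by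
  have g : Gd q (p : ℤ) := gd_nat hp hq hq2 hpq
  have gm1 : Gd q (-1) := by
    rw [gd_odd hq2, dvd_neg]
    intro h1
    have h2 : q ∣ 1 := by exact_mod_cast h1
    exact hq.one_lt.ne' (Nat.dvd_one.1 h2)
  have hpos := hp.pos
  rw [ps_odd hp2, al_odd (m := m) hp2]
  unfold sgp
  by_cases h4 : p % 4 = 1
  · rw [if_pos h4, if_neg (by omega), zero_mul, add_zero]
  · rw [if_neg h4, if_pos (by omega), one_mul]
    have e : -(p : ℤ) = p * (-1) := by ring
    rw [e, ra_mul hq g gm1, ra_neg_one (m := m) hq hq2]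

lemma ra_sym {p q : ℕ} (hp : p.Prime) (hq : q.Prime) (hp2 : p ≠ 2) (hq2 : q ≠ 2) (hpq : p ≠ q) :
    ra p (ps m q) + ra q (ps m p) = al m p * al m q := by
  rw [ra_rec hp hq hq2, ra_ps hp hq hp2 hq2 hpq, ← add_assoc, two_zmod, zero_add]

/-- the sum over the pairs -/
lemma pair_sum {P : Finset ℕ} (hP : ∀ p ∈ P, p.Prime ∧ p ≠ 2) (y : ℕ → ZMod 2) :
    ∑ p ∈ P, ∑ q ∈ P.erase p, ra p (ps m q) * (y q + y p) =
      (∑ p ∈ P, al m p + 1) * ∑ p ∈ P, al m p * y p := by
  classical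
  set B : ℕ → ℕ → ZMod 2 := fun p q => if p = q then 0 else ra p (ps m q) with hB
  have h1 : ∀ p ∈ P, ∑ q ∈ P.erase p, ra p (ps m q) * (y q + y p) =
      ∑ q ∈ P, B p q * (y q + y p) := by
    intro p hp
    rw [← Finset.add_sum_erase _ _ hp]
    have e : B p p = 0 := if_pos rfl
    rw [e, zero_mul, zero_add]
    refine Finset.sum_congr rfl fun q hq => ?_
    have e' : B p q = ra p (ps m q) := if_neg (Finset.ne_of_mem_erase hq).symm
    rw [e']
  rw [Finset.sum_congr rfl h1]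
  have h2 : ∑ p ∈ P, ∑ q ∈ P, B p q * (y q + y p) =
      ∑ p ∈ P, ∑ q ∈ P, (B q p + B p q) * y p := by
    have e1 : ∑ p ∈ P, ∑ q ∈ P, B p q * (y q + y p) =
        ∑ p ∈ P, ∑ q ∈ P, B p q * y q + ∑ p ∈ P, ∑ q ∈ P, B p q * y p := by
      rw [← Finset.sum_add_distrib]
      refine Finset.sum_congr rfl fun p _ => ?_
      rw [← Finset.sum_add_distrib]
      exact Finset.sum_congr rfl fun q _ => by ring
    have e2 : ∑ p ∈ P, ∑ q ∈ P, (B q p + B p q) * y p =
        ∑ p ∈ P, ∑ q ∈ P, B q p * y p + ∑ p ∈ P, ∑ q ∈ P, B p q * y p := by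
      rw [← Finset.sum_add_distrib]
      refine Finset.sum_congr rfl fun p _ => ?_
      rw [← Finset.sum_add_distrib]
      exact Finset.sum_congr rfl fun q _ => by ring
    rw [e1, e2, Finset.sum_comm]
  rw [h2, Finset.mul_sum]
  refine Finset.sum_congr rfl fun p hp => ?_
  have h3 : ∀ q ∈ P, B q p + B p q = al m p * al m q + if p = q then al m p else 0 := by
    intro q hq
    by_cases hpq : p = q
    · subst hpq
      have e : B p p = 0 := if_pos rfl
      rw [e, if_pos rfl, al_idem, two_zmod, two_zmod]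
    · have e1 : B p q = ra p (ps m q) := if_neg hpq
      have e2 : B q p = ra q (ps m p) := if_neg (Ne.symm hpq)
      rw [e1, e2, if_neg hpq, add_zero, add_comm,
        ra_sym (hP p hp).1 (hP q hq).1 (hP p hp).2 (hP q hq).2 hpq]
  rw [← Finset.sum_mul, Finset.sum_congr rfl h3, Finset.sum_add_distrib, ← Finset.mul_sum,
    Finset.sum_ite_eq, if_pos hp]
  ring

/-! ### the symbols with `-1`, `2`, `-2` -/

lemma ra_hz {c : ℤ} (hc : c = -1 ∨ c = 2 ∨ c = -2) {p : ℕ} (hp : p.Prime) (hp2 : p ≠ 2) :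
    ra p c = hz c (p : ℤ) := by
  have hodd := hp.odd_of_ne_two hp2
  have h2 : p % 2 = 1 := Nat.odd_iff.1 hodd
  have h20 : ¬ p % 2 = 0 := by omega
  unfold ra
  rw [ch_odd hp2]
  rcases hc with rfl | rfl | rfl
  · have e1 : jacobiSym (-1) p = if p % 4 = 1 then 1 else -1 := by
      rw [jacobiSym.at_neg_one hodd, ZMod.χ₄_nat_eq_if_mod_four, if_neg h20]
    have e2 : hz (-1) (p : ℤ) = if (p : ℤ) % 4 = 1 then 0 else 1 := if_pos rfl
    rw [e1, e2]
    by_cases h4 : p % 4 = 1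
    · rw [if_pos h4, if_pos rfl, if_pos (by omega)]
    · rw [if_neg h4, if_neg (by decide), if_neg (by omega)]
  · have e1 : jacobiSym 2 p = if p % 8 = 1 ∨ p % 8 = 7 then 1 else -1 := by
      rw [jacobiSym.at_two hodd, ZMod.χ₈_nat_eq_if_mod_eight, if_neg h20]
    have e2 : hz 2 (p : ℤ) = if (p : ℤ) % 8 = 1 ∨ (p : ℤ) % 8 = 7 then 0 else 1 := by
      unfold hz
      rw [if_neg (by norm_num), if_pos rfl]
    rw [e1, e2]
    by_cases h4 : p % 8 = 1 ∨ p % 8 = 7
    · rw [if_pos h4, if_pos rfl, if_pos (by omega)]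
    · rw [if_neg h4, if_neg (by decide), if_neg (by omega)]
  · have e1 : jacobiSym (-2) p = if p % 8 = 1 ∨ p % 8 = 3 then 1 else -1 := by
      rw [jacobiSym.at_neg_two hodd, ZMod.χ₈'_nat_eq_if_mod_eight, if_neg h20]
    have e2 : hz (-2) (p : ℤ) = if (p : ℤ) % 8 = 1 ∨ (p : ℤ) % 8 = 3 then 0 else 1 := by
      unfold hz
      rw [if_neg (by norm_num), if_neg (by norm_num)]
    rw [e1, e2]
    by_cases h4 : p % 8 = 1 ∨ p % 8 = 3
    · rw [if_pos h4, if_pos rfl, if_pos (by omega)]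
    · rw [if_neg h4, if_neg (by decide), if_neg (by omega)]

lemma odd_prodP {P : Finset ℕ} (hP : ∀ p ∈ P, p.Prime ∧ p ≠ 2) :
    (∏ p ∈ P, ((p : ℕ) : ℤ)) % 2 = 1 := by
  classical
  induction P using Finset.induction_on with
  | empty => rfl
  | insert a s ha ih =>
    rw [Finset.prod_insert ha, Int.mul_emod, ih fun p hp => hP p (Finset.mem_insert_of_mem hp)]
    have h1 := hP a (Finset.mem_insert_self _ _)
    have h2 : a % 2 = 1 := h1.1.eq_two_or_odd.resolve_left h1.2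
    have h3 : (a : ℤ) % 2 = 1 := by omega
    rw [h3]
    norm_num

lemma prodS4 {P : Finset ℕ} (hP : ∀ p ∈ P, p.Prime ∧ p ≠ 2) : (∏ p ∈ P, sgp p) % 4 = 1 := by
  rw [← gd_two]
  refine gd_prod Nat.prime_two _ _ fun p hp => ?_
  rw [gd_two]
  exact sgp_mod (hP p hp).1 (hP p hp).2

lemma hz_one (c : ℤ) : hz c 1 = 0 := by
  unfold hz
  split_ifs <;> first | rfl | omega

lemma sum_hz {c : ℤ} (hc : c = -1 ∨ c = 2 ∨ c = -2) {P : Finset ℕ}
    (hP : ∀ p ∈ P, p.Prime ∧ p ≠ 2) : ∑ p ∈ P, ra p c = hz c (∏ p ∈ P, ((p : ℕ) : ℤ)) := by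
  classical
  induction P using Finset.induction_on with
  | empty => rw [Finset.sum_empty, Finset.prod_empty, hz_one]
  | insert a s ha ih =>
    have h1 := hP a (Finset.mem_insert_self _ _)
    have h2 : a % 2 = 1 := h1.1.eq_two_or_odd.resolve_left h1.2
    have hs := fun p hp => hP p (Finset.mem_insert_of_mem hp)
    rw [Finset.sum_insert ha, Finset.prod_insert ha, ih hs,
      hz_mul hc (by omega) (odd_prodP hs), ra_hz hc h1.1 h1.2]

lemma hz_sgn {c : ℤ} (hc : c = -1 ∨ c = 2 ∨ c = -2) {P : Finset ℕ}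
    (hP : ∀ p ∈ P, p.Prime ∧ p ≠ 2) : ∑ p ∈ P, ra p c =
      hz c (∏ p ∈ P, sgp p) + (if c < 0 then 1 else 0) * ∑ p ∈ P, al m p := by
  classical
  induction P using Finset.induction_on with
  | empty => rw [Finset.sum_empty, Finset.prod_empty, hz_one, Finset.sum_empty, mul_zero, add_zero]
  | insert a s ha ih =>
    have h1 := hP a (Finset.mem_insert_self _ _)
    have h2 : a % 2 = 1 := h1.1.eq_two_or_odd.resolve_left h1.2
    have hs := fun p hp => hP p (Finset.mem_insert_of_mem hp)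
    have h3 := sgp_mod h1.1 h1.2
    have h4 := prodS4 hs
    have hpos := h1.1.pos
    rw [Finset.sum_insert ha, Finset.prod_insert ha, Finset.sum_insert ha, ih hs,
      hz_mul hc (by omega) (by omega), ra_hz hc h1.1 h1.2]
    have key : hz c (a : ℤ) = hz c (sgp a) + (if c < 0 then 1 else 0) * al m a := by
      rw [al_odd (m := m) h1.2]
      unfold sgp
      by_cases h5 : a % 4 = 1
      · have h6 : ¬ ((a : ℤ) < 0) := by omega
        rw [if_pos h5, if_neg h6, mul_zero, add_zero]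
      · have h6 : -(a : ℤ) < 0 := by omega
        rw [if_neg h5, if_pos h6, mul_one, hz_neg hc (by omega), add_assoc, two_zmod,
          add_zero]
    rw [key]
    ring

lemma hz_oz {c v : ℤ} (hc : c = -1 ∨ c = 2 ∨ c = -2) (hv : v % 4 = 1) :
    hz c v = if c = -1 then 0 else oz v := by
  have n2 : ¬ ((2 : ℤ) = -1) := by norm_num
  have n3 : ¬ ((-2 : ℤ) = -1) := by norm_num
  have n4 : ¬ ((-2 : ℤ) = 2) := by norm_num
  unfold hz oz
  rcases hc with rfl | rfl | rfl
  · rw [if_pos rfl, if_pos hv, if_pos rfl]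
  · rw [if_neg n2, if_pos rfl, if_neg n2]
    by_cases h : v % 8 = 1
    · rw [if_pos (Or.inl h), if_pos h]
    · rw [if_neg (show ¬ (v % 8 = 1 ∨ v % 8 = 7) by omega), if_neg h]
  · rw [if_neg n3, if_neg n4, if_neg n3]
    by_cases h : v % 8 = 1
    · rw [if_pos (Or.inl h), if_pos h]
    · rw [if_neg (show ¬ (v % 8 = 1 ∨ v % 8 = 3) by omega), if_neg h]

end

end Pool.Agent.N875.P17
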