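import Pool.Agent.N875.P17.Glob

/-!
# The 2-Selmer group of `y² = x (x + m) (x - 16 m)`: reduction to the normalized pairs
-/

set_option autoImplicit false

namespace Pool.Agent.N875.P17

open Pool.Agent.N875.X15
open Pool.Agent.TH841.SH (LocC SelG)
open Pool.Agent.Y667.RP (mod_of_sq)

instance f17 : Fact (Nat.Prime 17) := ⟨by norm_num⟩

/-- **The condition**: only the trivial normalized pair satisfies the local conditions. -/
def SC (m : ℤ) : Prop := ∀ d1 d2 : ℤ, 0 < d1 → 0 < d2 → Squarefree d1 → Squarefree d2 →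
  (∀ p : ℕ, p.Prime → (p : ℤ) ∣ d1 → Ram m p ∧ p ≠ 17) →
  (∀ p : ℕ, p.Prime → (p : ℤ) ∣ d2 → Ram m p) → (m % 4 = 1 → d2 % 4 = 1) →
  (m % 4 ≠ 1 → IsSquare (d2 : ℚ_[2]) ∨ IsSquare ((d2 : ℚ_[2]) * m)) →
  (∀ (p : ℕ) [Fact p.Prime], p ≠ 2 → (p : ℤ) ∣ m → P4 p m d1 d2) → d1 = 1 ∧ d2 = 1

/-- the local conditions for arbitrary representatives -/
structure Good (m d1 d2 : ℤ) : Prop where
  n1 : d1 ≠ 0
  n2 : d2 ≠ 0
  sp : 0 < m → 0 < d2
  sn : m < 0 → 0 < d1 * d2
  unr : ∀ (p : ℕ) [Fact p.Prime], p ≠ 2 → p ≠ 17 → ¬ (p : ℤ) ∣ m →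
    Even (d1 : ℚ_[p]).valuation ∧ Even (d2 : ℚ_[p]).valuation
  s17 : ¬ (17 : ℤ) ∣ m → Even (d1 : ℚ_[17]).valuation
  two : m % 4 = 1 → Even (d1 : ℚ_[2]).valuation ∧
    (IsSquare (d2 : ℚ_[2]) ∨ IsSquare (5 * (d2 : ℚ_[2])))
  twr : m % 4 ≠ 1 → IsSquare (d2 : ℚ_[2]) ∨ IsSquare ((d2 : ℚ_[2]) * m)
  ram : ∀ (p : ℕ) [Fact p.Prime], p ≠ 2 → (p : ℤ) ∣ m → P4 p m d1 d2

lemma val_neg {p : ℕ} [Fact p.Prime] (x : ℚ_[p]) : (-x).valuation = x.valuation := by
  by_cases hx : x = 0
  · rw [hx, neg_zero]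
  exact (norm_eq_iff (neg_ne_zero.2 hx) hx).1 (norm_neg x)

lemma sq17 : IsSquare (17 : ℚ_[2]) := by
  have := sq_int (a := 17) (by norm_num)
  exact_mod_cast this

lemma val17 : (17 : ℚ_[17]).valuation = 1 := by
  have h : ((17 : ℕ) : ℚ_[17]).valuation = 1 := val_p
  exact_mod_cast h

/-- rearrange squares -/
lemma sq_of {K : Type} [Field K] {x y z : K} (h : IsSquare x) (hz : z ≠ 0)
    (e : x = z * z * y) : IsSquare y := by
  rw [e] at h
  exact sq_cancel (mul_ne_zero hz hz) (IsSquare.mul_self z) h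

section

variable {m d1 d2 : ℤ}

lemma p4_T0 {p : ℕ} [Fact p.Prime] (hm : m ≠ 0) (h : P4 p m d1 d2) : P4 p m (-d1) (m * d2) := by
  have hm' : (m : ℚ_[p]) ≠ 0 := by exact_mod_cast hm
  unfold P4 at h ⊢
  push_cast
  rcases h with ⟨a, b⟩ | ⟨a, b⟩ | ⟨a, b⟩ | ⟨a, b⟩
  · right; left
    refine ⟨by rwa [neg_neg], ?_⟩
    have e : (m : ℚ_[p]) * d2 * m = (m * m) * d2 := by ring
    rw [e]
    exact (IsSquare.mul_self _).mul b
  · left
    exact ⟨a, by rwa [mul_comm]⟩
  · right; right; right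
    refine ⟨by rwa [neg_mul, ← mul_neg], ?_⟩
    have e : (m : ℚ_[p]) * d2 * (17 * m) = (m * m) * (d2 * 17) := by ring
    rw [e]
    exact (IsSquare.mul_self _).mul b
  · right; right; left
    refine ⟨by rwa [neg_mul_neg], ?_⟩
    have e : (m : ℚ_[p]) * d2 * 17 = d2 * (17 * m) := by ring
    rwa [e]

lemma p4_T1 {p : ℕ} [Fact p.Prime] (h : P4 p m d1 d2) :
    P4 p m (-m * d1) (17 * d2) := by
  unfold P4 at h ⊢
  push_cast
  rcases h with ⟨a, b⟩ | ⟨a, b⟩ | ⟨a, b⟩ | ⟨a, b⟩
  · right; right; left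
    constructor
    · have e : -(m : ℚ_[p]) * d1 * (-m) = (m * m) * d1 := by ring
      rw [e]
      exact (IsSquare.mul_self _).mul a
    · have e : (17 : ℚ_[p]) * d2 * 17 = (17 * 17) * d2 := by ring
      rw [e]
      exact (IsSquare.mul_self _).mul b
  · right; right; right
    constructor
    · have e : -(m : ℚ_[p]) * d1 * m = (m * m) * (-d1) := by ring
      rw [e]
      exact (IsSquare.mul_self _).mul a
    · have e : (17 : ℚ_[p]) * d2 * (17 * m) = (17 * 17) * (d2 * m) := by ring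
      rw [e]
      exact (IsSquare.mul_self _).mul b
  · left
    constructor
    · have e : -(m : ℚ_[p]) * d1 = d1 * (-m) := by ring
      rwa [e]
    · rwa [mul_comm]
  · right; left
    constructor
    · have e : -(-(m : ℚ_[p]) * d1) = d1 * m := by ring
      rwa [e]
    · have e : (17 : ℚ_[p]) * d2 * m = d2 * (17 * m) := by ring
      rwa [e]

lemma val_even_mul {p : ℕ} [Fact p.Prime] {x y : ℚ_[p]} (hx : x ≠ 0) (hy : y ≠ 0)
    (h1 : Even x.valuation) (h2 : Even y.valuation) : Even (x * y).valuation := by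
  rw [Padic.valuation_mul hx hy]
  exact h1.add h2

lemma good_T0 (hm : m ≠ 0) (h : Good m d1 d2) : Good m (-d1) (m * d2) where
  n1 := neg_ne_zero.2 h.n1
  n2 := mul_ne_zero hm h.n2
  sp := fun h0 => mul_pos h0 (h.sp h0)
  sn := fun h0 => by
    have h1 := h.sn h0
    have e : -d1 * (m * d2) = (-m) * (d1 * d2) := by ring
    rw [e]
    exact mul_pos (by omega) h1
  unr := fun p _ hp2 hp17 hpm => by
    obtain ⟨a, b⟩ := h.unr p hp2 hp17 hpm
    have hm' : (m : ℚ_[p]) ≠ 0 := by exact_mod_cast hm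
    have h2' : (d2 : ℚ_[p]) ≠ 0 := by exact_mod_cast h.n2
    push_cast
    refine ⟨by rwa [val_neg], val_even_mul hm' h2' ?_ b⟩
    rw [val_zero hpm]
    exact Even.zero
  s17 := fun hpm => by
    push_cast
    rw [val_neg]
    exact h.s17 hpm
  two := fun h4 => by
    obtain ⟨a, b⟩ := h.two h4
    push_cast
    refine ⟨by rwa [val_neg], ?_⟩
    rcases (by omega : m % 8 = 1 ∨ m % 8 = 5) with h8 | h8
    · have hs := sq_int h8
      rcases b with b | b
      · exact Or.inl (hs.mul b)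
      · right
        have e : (5 : ℚ_[2]) * (m * d2) = m * (5 * d2) := by ring
        rw [e]
        exact hs.mul b
    · have hs : IsSquare (((5 * m : ℤ)) : ℚ_[2]) := sq_int (by omega)
      push_cast at hs
      rcases b with b | b
      · right
        rw [← mul_assoc]
        exact hs.mul b
      · left
        have h5 : (5 : ℚ_[2]) ≠ 0 := by norm_num
        refine sq_of (hs.mul b) h5 ?_
        ring
  twr := fun h4 => by
    push_cast
    rcases h.twr h4 with b | b
    · right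
      have e : (m : ℚ_[2]) * d2 * m = (m * m) * d2 := by ring
      rw [e]
      exact (IsSquare.mul_self _).mul b
    · left
      rwa [mul_comm]
  ram := fun p _ hp2 hpm => p4_T0 hm (h.ram p hp2 hpm)

lemma good_T1 (hm : m ≠ 0) (h : Good m d1 d2) : Good m (-m * d1) (17 * d2) where
  n1 := mul_ne_zero (neg_ne_zero.2 hm) h.n1
  n2 := mul_ne_zero (by norm_num) h.n2
  sp := fun h0 => mul_pos (by norm_num) (h.sp h0)
  sn := fun h0 => by
    have h1 := h.sn h0
    have e : -m * d1 * (17 * d2) = (-m * 17) * (d1 * d2) := by ring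
    rw [e]
    exact mul_pos (by omega) h1
  unr := fun p hp hp2 hp17 hpm => by
    obtain ⟨a, b⟩ := h.unr p hp2 hp17 hpm
    have hm' : (m : ℚ_[p]) ≠ 0 := by exact_mod_cast hm
    have h1' : (d1 : ℚ_[p]) ≠ 0 := by exact_mod_cast h.n1
    have h2' : (d2 : ℚ_[p]) ≠ 0 := by exact_mod_cast h.n2
    push_cast
    refine ⟨val_even_mul (neg_ne_zero.2 hm') h1' ?_ a, val_even_mul (by norm_num) h2' ?_ b⟩
    · rw [val_neg, val_zero hpm]
      exact Even.zero
    · have h17 : ¬ (p : ℤ) ∣ ((17 : ℕ) : ℤ) := not_dvd_of_prime (by norm_num) hp17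
      have := val_zero (p := p) h17
      push_cast at this
      rw [this]
      exact Even.zero
  s17 := fun hpm => by
    have hm' : (m : ℚ_[17]) ≠ 0 := by exact_mod_cast hm
    have h1' : (d1 : ℚ_[17]) ≠ 0 := by exact_mod_cast h.n1
    push_cast
    refine val_even_mul (neg_ne_zero.2 hm') h1' ?_ (h.s17 hpm)
    rw [val_neg, val_zero (p := 17) (n := m) (by exact_mod_cast hpm)]
    exact Even.zero
  two := fun h4 => by
    obtain ⟨a, b⟩ := h.two h4
    have hm' : (m : ℚ_[2]) ≠ 0 := by exact_mod_cast hm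
    have h1' : (d1 : ℚ_[2]) ≠ 0 := by exact_mod_cast h.n1
    push_cast
    refine ⟨val_even_mul (neg_ne_zero.2 hm') h1' ?_ a, ?_⟩
    · rw [val_neg, val_zero (p := 2) (n := m) (by push_cast; omega)]
      exact Even.zero
    · rcases b with b | b
      · exact Or.inl (sq17.mul b)
      · right
        have e : (5 : ℚ_[2]) * (17 * d2) = 17 * (5 * d2) := by ring
        rw [e]
        exact sq17.mul b
  twr := fun h4 => by
    push_cast
    rcases h.twr h4 with b | b
    · exact Or.inl (sq17.mul b)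
    · right
      rw [mul_assoc]
      exact sq17.mul b
  ram := fun p _ hp2 hpm => p4_T1 (h.ram p hp2 hpm)

/-- elements of the Selmer group -/
theorem good_of_sel (hm : Squarefree m) (h : (d1, d2) ∈ SelG 0 (-m) (16 * m)) :
    Squarefree d1 ∧ Squarefree d2 ∧ Good m d1 d2 := by
  obtain ⟨s1, s2, hR', hp⟩ := h
  simp only at s1 s2 hR' hp
  have hm0 : m ≠ 0 := hm.ne_zero
  refine ⟨s1, s2, ?_⟩
  have hsg := loc_sign17 hm0 s1.ne_zero s2.ne_zero hR'
  have hval : ∀ (p : ℕ) [Fact p.Prime] (d : ℤ), ¬ (p : ℤ) ∣ d → Even (d : ℚ_[p]).valuation := by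
    intro p _ d hd
    rw [val_zero hd]
    exact Even.zero
  exact {
    n1 := s1.ne_zero
    n2 := s2.ne_zero
    sp := fun h0 => by
      rcases hsg with h | h
      · exact h.2
      · omega
    sn := fun h0 => by
      rcases hsg with h | ⟨-, h | h⟩
      · omega
      · exact mul_pos h.1 h.2
      · exact mul_pos_of_neg_of_neg h.1 h.2
    unr := fun p _ hp2 hp17 hpm => by
      obtain ⟨a, b⟩ := loc_ndvd17 hp2 hp17 hm0 hpm s1 s2 (hp p)
      exact ⟨hval p d1 a, hval p d2 b⟩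
    s17 := fun hpm => hval 17 d1 (loc_17 (p := 17) rfl hm0 (by exact_mod_cast hpm) s1 (hp 17))
    two := fun h4 => by
      obtain ⟨a, b⟩ := loc_two_odd17 hm h4 s1 s2 (hp 2)
      refine ⟨hval 2 d1 (by exact_mod_cast a), ?_⟩
      rcases (by omega : d2 % 8 = 1 ∨ d2 % 8 = 5) with h8 | h8
      · exact Or.inl (sq_int h8)
      · right
        have := sq_int (a := 5 * d2) (by omega)
        push_cast at this
        exact this
    twr := fun h4 => by
      rcases loc_two17 hm s2 (hp 2) with h | h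
      · exact h
      · omega
    ram := fun p _ hp2 hpm => loc_dvd17 hp2 hm hpm (hp p) }

/-- the parity which is changed by the second torsion point -/
def flag (m d1 d2 : ℤ) : Prop :=
  if (17 : ℤ) ∣ m then Even (d1 : ℚ_[17]).valuation else Even (d2 : ℚ_[17]).valuation

lemma val_m17 (hm : Squarefree m) (h : (17 : ℤ) ∣ m) : (m : ℚ_[17]).valuation = 1 :=
  val_one (p := 17) (by exact_mod_cast h) hm

lemma flag_T0 (hm : m ≠ 0) (h2 : d2 ≠ 0) (h : flag m d1 d2) : flag m (-d1) (m * d2) := by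
  unfold flag at h ⊢
  split_ifs at h ⊢ with h17
  · push_cast
    rwa [val_neg]
  · have hm' : (m : ℚ_[17]) ≠ 0 := by exact_mod_cast hm
    have h2' : (d2 : ℚ_[17]) ≠ 0 := by exact_mod_cast h2
    push_cast
    refine val_even_mul hm' h2' ?_ h
    rw [val_zero (p := 17) (n := m) (by exact_mod_cast h17)]
    exact Even.zero

lemma flag_T1 (hm : Squarefree m) (h1 : d1 ≠ 0) (h2 : d2 ≠ 0) (h : ¬ flag m d1 d2) :
    flag m (-m * d1) (17 * d2) := by
  have hm' : (m : ℚ_[17]) ≠ 0 := by exact_mod_cast hm.ne_zero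
  have h1' : (d1 : ℚ_[17]) ≠ 0 := by exact_mod_cast h1
  have h2' : (d2 : ℚ_[17]) ≠ 0 := by exact_mod_cast h2
  unfold flag at h ⊢
  split_ifs at h ⊢ with h17
  · push_cast
    rw [Padic.valuation_mul (neg_ne_zero.2 hm') h1', val_neg, val_m17 hm h17]
    rw [Int.not_even_iff_odd] at h
    exact odd_one.add_odd h
  · push_cast
    rw [Padic.valuation_mul (by norm_num) h2', val17]
    rw [Int.not_even_iff_odd] at h
    exact odd_one.add_odd h

/-- the normalized pairs -/
theorem squares_of_SC (hm : Squarefree m) (hS : SC m) (h : Good m d1 d2) (hf : flag m d1 d2)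
    (hpos : 0 < d1) : IsSquare d1 ∧ IsSquare d2 := by
  have hm0 := hm.ne_zero
  have hpos2 : 0 < d2 := by
    rcases lt_or_gt_of_ne hm0 with h0 | h0
    · exact (mul_pos_iff_of_pos_left hpos).1 (h.sn h0)
    · exact h.sp h0
  obtain ⟨a1, b1, e1, s1⟩ := Nat.sq_mul_squarefree d1.toNat
  obtain ⟨a2, b2, e2, s2⟩ := Nat.sq_mul_squarefree d2.toNat
  have E1 : d1 = (b1 : ℤ) ^ 2 * a1 := by
    have : (d1.toNat : ℤ) = d1 := Int.toNat_of_nonneg hpos.le
    rw [← this, ← e1]
    push_cast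
    rfl
  have E2 : d2 = (b2 : ℤ) ^ 2 * a2 := by
    have : (d2.toNat : ℤ) = d2 := Int.toNat_of_nonneg hpos2.le
    rw [← this, ← e2]
    push_cast
    rfl
  have hb1 : (b1 : ℤ) ≠ 0 := by
    intro h0
    rw [h0] at E1
    simp at E1
    omega
  have hb2 : (b2 : ℤ) ≠ 0 := by
    intro h0
    rw [h0] at E2
    simp at E2
    omega
  have z1 : Squarefree (a1 : ℤ) := Int.squarefree_natCast.2 s1
  have z2 : Squarefree (a2 : ℤ) := Int.squarefree_natCast.2 s2
  -- parity of the valuations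
  have ev1 : ∀ (p : ℕ) [Fact p.Prime], Even (d1 : ℚ_[p]).valuation → ¬ (p : ℤ) ∣ (a1 : ℤ) := by
    intro p _ hev hd
    have hb : (b1 : ℚ_[p]) ≠ 0 := by exact_mod_cast hb1
    have ha : ((a1 : ℤ) : ℚ_[p]) ≠ 0 := by exact_mod_cast z1.ne_zero
    have e : (d1 : ℚ_[p]) = (b1 : ℚ_[p]) ^ 2 * ((a1 : ℤ) : ℚ_[p]) := by
      rw [E1]; push_cast; ring
    rw [e, Padic.valuation_mul (pow_ne_zero 2 hb) ha, Padic.valuation_pow, val_one hd z1] at hev
    obtain ⟨r, hr⟩ := hev
    push_cast at hr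
    omega
  have ev2 : ∀ (p : ℕ) [Fact p.Prime], Even (d2 : ℚ_[p]).valuation → ¬ (p : ℤ) ∣ (a2 : ℤ) := by
    intro p _ hev hd
    have hb : (b2 : ℚ_[p]) ≠ 0 := by exact_mod_cast hb2
    have ha : ((a2 : ℤ) : ℚ_[p]) ≠ 0 := by exact_mod_cast z2.ne_zero
    have e : (d2 : ℚ_[p]) = (b2 : ℚ_[p]) ^ 2 * ((a2 : ℤ) : ℚ_[p]) := by
      rw [E2]; push_cast; ring
    rw [e, Padic.valuation_mul (pow_ne_zero 2 hb) ha, Padic.valuation_pow, val_one hd z2] at hev
    obtain ⟨r, hr⟩ := hev
    push_cast at hr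
    omega
  -- squares
  have sq1 : ∀ (p : ℕ) [Fact p.Prime] (c : ℚ_[p]), IsSquare ((d1 : ℚ_[p]) * c) →
      IsSquare (((a1 : ℤ) : ℚ_[p]) * c) := by
    intro p _ c hc
    have hb : (b1 : ℚ_[p]) ≠ 0 := by exact_mod_cast hb1
    refine sq_of hc hb ?_
    rw [E1]; push_cast; ring
  have sq2 : ∀ (p : ℕ) [Fact p.Prime] (c : ℚ_[p]), IsSquare ((d2 : ℚ_[p]) * c) →
      IsSquare (((a2 : ℤ) : ℚ_[p]) * c) := by
    intro p _ c hc
    have hb : (b2 : ℚ_[p]) ≠ 0 := by exact_mod_cast hb2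
    refine sq_of hc hb ?_
    rw [E2]; push_cast; ring
  have sq1' : ∀ (p : ℕ) [Fact p.Prime], IsSquare (d1 : ℚ_[p]) → IsSquare (((a1 : ℤ) : ℚ_[p])) := by
    intro p _ hc
    have := sq1 p 1 (by rwa [mul_one])
    rwa [mul_one] at this
  have sq2' : ∀ (p : ℕ) [Fact p.Prime], IsSquare (d2 : ℚ_[p]) → IsSquare (((a2 : ℤ) : ℚ_[p])) := by
    intro p _ hc
    have := sq2 p 1 (by rwa [mul_one])
    rwa [mul_one] at this
  have key := hS a1 a2 (by have := s1.ne_zero; omega) (by have := s2.ne_zero; omega) z1 z2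
    (fun p hp hpa => by
      have : Fact p.Prime := ⟨hp⟩
      have hodd : ¬ Even (d1 : ℚ_[p]).valuation := fun he => ev1 p he hpa
      by_cases h17 : p = 17
      · exfalso
        subst h17
        by_cases hm17 : (17 : ℤ) ∣ m
        · unfold flag at hf
          rw [if_pos hm17] at hf
          exact hodd hf
        · exact hodd (h.s17 hm17)
      · refine ⟨?_, h17⟩
        by_cases hpm : (p : ℤ) ∣ m
        · exact Or.inl hpm
        by_cases hp2 : p = 2
        · subst hp2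
          right
          exact ⟨rfl, fun h4 => hodd (h.two h4).1⟩
        · exact absurd (h.unr p hp2 h17 hpm).1 hodd)
    (fun p hp hpa => by
      have : Fact p.Prime := ⟨hp⟩
      have hodd : ¬ Even (d2 : ℚ_[p]).valuation := fun he => ev2 p he hpa
      by_cases hpm : (p : ℤ) ∣ m
      · exact Or.inl hpm
      by_cases h17 : p = 17
      · exfalso
        subst h17
        unfold flag at hf
        rw [if_neg (by exact_mod_cast hpm)] at hf
        exact hodd hf
      by_cases hp2 : p = 2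
      · subst hp2
        right
        refine ⟨rfl, fun h4 => hodd ?_⟩
        have h2' : (d2 : ℚ_[2]) ≠ 0 := by exact_mod_cast h.n2
        rcases (h.two h4).2 with h5 | h5
        · exact even_val h2' h5
        · have h6 := even_val (mul_ne_zero (by norm_num) h2') h5
          rw [Padic.valuation_mul (by norm_num) h2'] at h6
          have h7 : ((5 : ℤ) : ℚ_[2]).valuation = 0 := val_zero (by norm_num)
          have h5' : (5 : ℚ_[2]).valuation = 0 := by exact_mod_cast h7
          rwa [h5', zero_add] at h6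
      · exact absurd (h.unr p hp2 h17 hpm).2 hodd)
    (fun h4 => by
      rcases (h.two h4).2 with h5 | h5
      · have := odd_of_sq z2 (sq2' 2 h5)
        omega
      · have h6 := sq2 2 5 (by rwa [mul_comm])
        have h7 : IsSquare (((5 * (a2 : ℤ) : ℤ)) : ℚ_[2]) := by
          push_cast
          rw [mul_comm]
          exact_mod_cast h6
        have h2' : (d2 : ℚ_[2]) ≠ 0 := by exact_mod_cast h.n2
        have h8 : Even (d2 : ℚ_[2]).valuation := by
          have h6 := even_val (mul_ne_zero (by norm_num) h2') h5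
          rw [Padic.valuation_mul (by norm_num) h2'] at h6
          have h7 : ((5 : ℤ) : ℚ_[2]).valuation = 0 := val_zero (by norm_num)
          have h5' : (5 : ℚ_[2]).valuation = 0 := by exact_mod_cast h7
          rwa [h5', zero_add] at h6
        have h9 := ev2 2 h8
        have h11 := mod_of_sq (d := 5 * (a2 : ℤ)) (by push_cast at h9; omega) h7
        omega)
    (fun h4 => by
      rcases h.twr h4 with h5 | h5
      · exact Or.inl (sq2' 2 h5)
      · exact Or.inr (sq2 2 _ h5))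
    (fun p _ hp2 hpm => by
      rcases h.ram p hp2 hpm with ⟨a, b⟩ | ⟨a, b⟩ | ⟨a, b⟩ | ⟨a, b⟩
      · left
        exact ⟨sq1' p a, sq2' p b⟩
      · right; left
        refine ⟨?_, sq2 p _ b⟩
        have e : -(((a1 : ℤ)) : ℚ_[p]) = ((a1 : ℤ) : ℚ_[p]) * (-1) := by ring
        rw [e]
        refine sq1 p _ ?_
        have e : (d1 : ℚ_[p]) * (-1) = -(d1 : ℚ_[p]) := by ring
        rwa [e]
      · right; right; left
        exact ⟨sq1 p _ a, sq2 p _ b⟩
      · right; right; right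
        exact ⟨sq1 p _ a, sq2 p _ b⟩)
  constructor
  · rw [E1, key.1, mul_one, pow_two]
    exact IsSquare.mul_self _
  · rw [E2, key.2, mul_one, pow_two]
    exact IsSquare.mul_self _

end

end Pool.Agent.N875.P17
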