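import Pool.Agent.N875.P17.Prod
import Pool.Agent.N875.P17.Sel

/-!
# The condition `SC m` from the symmetric matrix over `F_2`
-/

set_option autoImplicit false

open Finset

namespace Pool.Agent.N875.P17

open Pool.Agent.N875.X15
open Pool.Agent.Y667.RP (mod_of_sq)

/-- the Rédei matrix of the prime discriminants, with row sums zero -/
def Lm (m : ℤ) (p q : ℕ) : ZMod 2 :=
  if p = q then ∑ r ∈ (PR m).erase p, ra p (ps m r) else ra p (ps m q)

/-- the sign of the prime discriminant -/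
def al (m : ℤ) (q : ℕ) : ZMod 2 := if ps m q < 0 then 1 else 0

/-- the symmetric matrix `[[N, L], [Lᵀ, A]]` without the row and the column `17` of the first block is
invertible -/
def Sg (m : ℤ) : Prop := ∀ x y : ℕ → ZMod 2, x 17 = 0 →
  (∀ p ∈ PR m, p ≠ 17 → ra p 17 * x p + ∑ q ∈ PR m, Lm m p q * y q = 0) →
  (∀ q ∈ PR m, ∑ p ∈ PR m, Lm m p q * x p + al m q * y q = 0) →
  ∀ p ∈ PR m, x p = 0 ∧ y p = 0

lemma two_zmod (a : ZMod 2) : a + a = 0 := by
  revert a
  decide

/-- the indicator function -/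
def ind (S : Finset ℕ) (p : ℕ) : ZMod 2 := if p ∈ S then 1 else 0

lemma sum_ind {P S : Finset ℕ} (hS : S ⊆ P) (f : ℕ → ZMod 2) :
    ∑ q ∈ P, f q * ind S q = ∑ q ∈ S, f q := by
  rw [← Finset.sum_subset hS (f := fun q => f q * ind S q)]
  · refine Finset.sum_congr rfl fun q hq => ?_
    unfold ind
    rw [if_pos hq, mul_one]
  · intro q _ hq
    unfold ind
    rw [if_neg hq, mul_zero]

section

variable {m : ℤ}

lemma row_notMem {p : ℕ} {Y : Finset ℕ} (hY : Y ⊆ PR m) (hp : p ∉ Y) :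
    ∑ q ∈ PR m, Lm m p q * ind Y q = ∑ q ∈ Y, ra p (ps m q) := by
  rw [sum_ind hY]
  refine Finset.sum_congr rfl fun q hq => ?_
  unfold Lm
  rw [if_neg (by rintro rfl; exact hp hq)]

lemma row_mem {p : ℕ} {Y : Finset ℕ} (hY : Y ⊆ PR m) (hp : p ∈ Y) :
    ∑ q ∈ PR m, Lm m p q * ind Y q = ∑ q ∈ PR m \ Y, ra p (ps m q) := by
  rw [sum_ind hY, ← Finset.add_sum_erase _ _ hp]
  have h1 : ∑ q ∈ Y.erase p, Lm m p q = ∑ q ∈ Y.erase p, ra p (ps m q) := by
    refine Finset.sum_congr rfl fun q hq => ?_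
    unfold Lm
    rw [if_neg (Finset.ne_of_mem_erase hq).symm]
  have h2 : Lm m p p = ∑ r ∈ (PR m).erase p, ra p (ps m r) := if_pos rfl
  have h3 : (PR m).erase p = (PR m \ Y) ∪ Y.erase p := by
    ext q
    rw [Finset.mem_union, Finset.mem_sdiff, Finset.mem_erase, Finset.mem_erase]
    constructor
    · rintro ⟨h4, h5⟩
      by_cases h6 : q ∈ Y
      · exact Or.inr ⟨h4, h6⟩
      · exact Or.inl ⟨h5, h6⟩
    · rintro (⟨h4, h5⟩ | ⟨h4, h5⟩)
      · exact ⟨fun h => h5 (h ▸ hp), h4⟩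
      · exact ⟨h4, hY h5⟩
  have h4 : Disjoint (PR m \ Y) (Y.erase p) := by
    rw [Finset.disjoint_left]
    intro q hq hq2
    exact (Finset.mem_sdiff.1 hq).2 (Finset.mem_of_mem_erase hq2)
  rw [h1, h2, h3, Finset.sum_union h4, add_assoc, two_zmod, add_zero]

lemma col_notMem {q : ℕ} {X : Finset ℕ} (hX : X ⊆ PR m) (hq : q ∉ X) :
    ∑ p ∈ PR m, Lm m p q * ind X p = ∑ p ∈ X, ra p (ps m q) := by
  rw [sum_ind hX (fun p => Lm m p q)]
  refine Finset.sum_congr rfl fun p hp => ?_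
  unfold Lm
  rw [if_neg (by rintro rfl; exact hq hp)]

lemma col_mem {q : ℕ} {X : Finset ℕ} (hX : X ⊆ PR m) (hq : q ∈ X) :
    ∑ p ∈ PR m, Lm m p q * ind X p =
      ∑ r ∈ (PR m).erase q, ra q (ps m r) + ∑ p ∈ X.erase q, ra p (ps m q) := by
  rw [sum_ind hX (fun p => Lm m p q), ← Finset.add_sum_erase _ _ hq]
  have h1 : ∑ p ∈ X.erase q, Lm m p q = ∑ p ∈ X.erase q, ra p (ps m q) := by
    refine Finset.sum_congr rfl fun p hp => ?_
    unfold Lm
    rw [if_neg (Finset.ne_of_mem_erase hp)]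
  have h2 : Lm m q q = ∑ r ∈ (PR m).erase q, ra q (ps m r) := if_pos rfl
  rw [h1, h2]

lemma row_sum {p : ℕ} (hp : p ∈ PR m) : ∑ q ∈ PR m, Lm m p q = 0 := by
  rw [← Finset.add_sum_erase _ _ hp]
  have h1 : ∑ q ∈ (PR m).erase p, Lm m p q = ∑ q ∈ (PR m).erase p, ra p (ps m q) := by
    refine Finset.sum_congr rfl fun q hq => ?_
    unfold Lm
    rw [if_neg (Finset.ne_of_mem_erase hq).symm]
  have h2 : Lm m p p = ∑ r ∈ (PR m).erase p, ra p (ps m r) := if_pos rfl
  rw [h1, h2, two_zmod]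

/-- the total of the second system -/
lemma total {X Y : Finset ℕ} : ∑ q ∈ PR m, (∑ p ∈ PR m, Lm m p q * ind X p + al m q * ind Y q) =
    ∑ q ∈ PR m, al m q * ind Y q := by
  rw [Finset.sum_add_distrib, Finset.sum_comm]
  have h : ∑ p ∈ PR m, ∑ q ∈ PR m, Lm m p q * ind X p = 0 := by
    refine Finset.sum_eq_zero fun p hp => ?_
    rw [← Finset.sum_mul, row_sum hp, zero_mul]
  rw [h, zero_add]

lemma sum_al {Y : Finset ℕ} (h0 : ∀ q ∈ Y, ps m q ≠ 0) (hpos : 0 < ∏ q ∈ Y, ps m q) :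
    ∑ q ∈ Y, al m q = 0 := by
  classical
  have key : ∀ T : Finset ℕ, (∀ q ∈ T, ps m q ≠ 0) →
      (∑ q ∈ T, al m q = 0 ∧ 0 < ∏ q ∈ T, ps m q) ∨
      (∑ q ∈ T, al m q = 1 ∧ ∏ q ∈ T, ps m q < 0) := by
    intro T
    induction T using Finset.induction_on with
    | empty => intro _; left; simp
    | insert a s ha ih =>
      intro hT
      have h1 := hT a (Finset.mem_insert_self _ _)
      rw [Finset.sum_insert ha, Finset.prod_insert ha]
      rcases ih fun q hq => hT q (Finset.mem_insert_of_mem hq) with ⟨h2, h3⟩ | ⟨h2, h3⟩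
      · rcases lt_or_gt_of_ne h1 with h4 | h4
        · right
          refine ⟨?_, mul_neg_of_neg_of_pos h4 h3⟩
          rw [h2, add_zero]
          exact if_pos h4
        · left
          refine ⟨?_, mul_pos h4 h3⟩
          rw [h2, add_zero]
          exact if_neg (by omega)
      · rcases lt_or_gt_of_ne h1 with h4 | h4
        · left
          refine ⟨?_, mul_pos_of_neg_of_neg h4 h3⟩
          have : al m a = 1 := if_pos h4
          rw [h2, this]
          rfl
        · right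
          refine ⟨?_, mul_neg_of_pos_of_neg h4 h3⟩
          have : al m a = 0 := if_neg (by omega)
          rw [h2, this, zero_add]
  rcases key Y h0 with h | h
  · exact h.1
  · omega

lemma nsq_odd {p : ℕ} [Fact p.Prime] {a : ℚ_[p]} (ha : a ≠ 0) (h : Odd a.valuation) :
    ¬ IsSquare a := fun hs => by
  have := even_val ha hs
  rw [← Int.not_even_iff_odd] at h
  exact h this

lemma ra_iff {p : ℕ} [hp : Fact p.Prime] {a : ℤ} (ha : Gd p a) :
    ra p a = 0 ↔ IsSquare (a : ℚ_[p]) := by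
  rw [← sg_inj, sg_ra hp.out ha, ch_iff ha]

lemma ra_mul {p : ℕ} (hp : p.Prime) {a b : ℤ} (ha : Gd p a) (hb : Gd p b) :
    ra p (a * b) = ra p a + ra p b := by
  have h : sg (ra p (a * b)) = sg (ra p a + ra p b) := by
    rw [sg_add, sg_ra hp ha, sg_ra hp hb, sg_ra hp (gd_mul hp ha hb), ch_mul ha hb]
  have inj : ∀ x y : ZMod 2, sg x = sg y → x = y := by decide
  exact inj _ _ h

lemma ra_prod {ι : Type} {q : ℕ} (hq : q.Prime) (s : Finset ι) (f : ι → ℤ)
    (h : ∀ p ∈ s, Gd q (f p)) : ∑ p ∈ s, ra q (f p) = ra q (∏ p ∈ s, f p) := by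
  have inj : ∀ x y : ZMod 2, sg x = sg y → x = y := by decide
  refine inj _ _ ?_
  rw [sg_sum_ra hq s f h, sg_ra hq (gd_prod hq s f h)]

lemma zmod_cases (a : ZMod 2) : a = 0 ∨ a = 1 := by
  revert a
  decide

/-- two classes which are equal -/
lemma ra_eq_of {p : ℕ} [hp : Fact p.Prime] {a b : ℤ} (ha : Gd p a) (hb : Gd p b)
    (h : IsSquare (((a * b : ℤ)) : ℚ_[p])) : ra p a = ra p b := by
  have h1 := (ra_iff (gd_mul hp.out ha hb)).2 h
  rw [ra_mul hp.out ha hb] at h1
  rcases zmod_cases (ra p a) with h2 | h2 <;> rcases zmod_cases (ra p b) with h3 | h3 <;>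
    rw [h2, h3] at h1 ⊢ <;> revert h1 <;> decide

/-- `-1` at an odd prime -/
lemma ra_neg_one {q : ℕ} (hq : q.Prime) (hq2 : q ≠ 2) : ra q (-1) = al m q := by
  have h1 : jacobiSym (-1) q = if q % 4 = 1 then 1 else -1 := by
    have hodd := hq.odd_of_ne_two hq2
    have h2 : ¬ q % 2 = 0 := by
      have := Nat.odd_iff.1 hodd
      omega
    rw [jacobiSym.at_neg_one hodd, ZMod.χ₄_nat_eq_if_mod_four, if_neg h2]
  unfold ra al
  rw [ch_odd hq2, h1, ps_odd hq2]
  unfold sgp
  have := hq.pos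
  by_cases h4 : q % 4 = 1
  · rw [if_pos h4, if_pos rfl, if_pos h4, if_neg (by omega)]
  · rw [if_neg h4, if_neg (by decide), if_neg h4, if_pos (by omega)]

/-- **The condition `SC m` from the matrix.** -/
theorem sc_of_sg (hs : Squarefree m) (h : Sg m) : SC m := by
  classical
  intro d1 d2 hp1 hp2 s1 s2 sup1 sup2 h14 h2loc hram
  have hm0 := hs.ne_zero
  have hm0' : ∀ (p : ℕ) [Fact p.Prime], (m : ℚ_[p]) ≠ 0 := fun p _ => by exact_mod_cast hm0
  have hd1' : ∀ (p : ℕ) [Fact p.Prime], (d1 : ℚ_[p]) ≠ 0 := fun p _ => by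
    exact_mod_cast s1.ne_zero
  have hd2' : ∀ (p : ℕ) [Fact p.Prime], (d2 : ℚ_[p]) ≠ 0 := fun p _ => by
    exact_mod_cast s2.ne_zero
  have hpr : ∀ p ∈ PR m, p.Prime := fun p hp => ((mem_PR hm0).1 hp).1
  set X : Finset ℕ := (PR m).filter (fun p => (p : ℤ) ∣ d1) with hX
  set Y : Finset ℕ := SS m d2 with hY
  have hXP : X ⊆ PR m := Finset.filter_subset _ _
  have hYP : Y ⊆ PR m := SS_sub
  have hprodY : ∏ q ∈ Y, ps m q = d2 := prod_SS hs s2 sup2 h14 h2loc
  set e : ℤ := ∏ q ∈ PR m \ Y, ps m q with he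
  have hme : m = d2 * e := prod_compl hs hprodY
  have memX : ∀ p : ℕ, p.Prime → (p ∈ X ↔ (p : ℤ) ∣ d1) := by
    intro p hp
    rw [hX, Finset.mem_filter, mem_PR hm0]
    exact ⟨fun h => h.2, fun h => ⟨⟨hp, (sup1 p hp h).1⟩, h⟩⟩
  have memY : ∀ p : ℕ, p.Prime → p ≠ 2 → (p ∈ Y ↔ (p : ℤ) ∣ d2) := by
    intro p hp hp2
    rw [hY, mem_SS hp2, mem_PR hm0]
    exact ⟨fun h => h.2, fun h => ⟨⟨hp, sup2 p hp h⟩, h⟩⟩
  have h17X : 17 ∉ X := fun hmem => (sup1 17 (by norm_num)
    ((memX 17 (by norm_num)).1 hmem)).2 rfl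
  have hprodX : ∏ p ∈ X, ((p : ℕ) : ℤ) = d1 := by
    have h1 : ∏ p ∈ d1.natAbs.primeFactors, p = d1.natAbs :=
      Nat.prod_primeFactors_of_squarefree (Int.squarefree_natAbs.2 s1)
    have h2 : X = d1.natAbs.primeFactors := by
      ext p
      rw [Nat.mem_primeFactors]
      constructor
      · intro hp
        have hpp := hpr p (hXP hp)
        exact ⟨hpp, Int.natCast_dvd.1 ((memX p hpp).1 hp), Int.natAbs_ne_zero.2 s1.ne_zero⟩
      · rintro ⟨hpp, h3, -⟩
        exact (memX p hpp).2 (Int.natCast_dvd.2 h3)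
    have h3 : (∏ p ∈ X, ((p : ℕ) : ℤ)) = ((∏ p ∈ X, p : ℕ) : ℤ) := by push_cast; rfl
    rw [h3, h2, h1]
    omega
  -- goodness
  have gps : ∀ p ∈ PR m, ∀ q ∈ PR m, q ≠ p → Gd p (ps m q) := fun p hp q hq hpq =>
    gd_ps hs (hpr q hq) (hpr p hp) hpq
  -- the valuations
  have v1n : ∀ (p : ℕ) [Fact p.Prime], ¬ (p : ℤ) ∣ d1 → (d1 : ℚ_[p]).valuation = 0 :=
    fun p _ h => val_zero h
  have v1y : ∀ (p : ℕ) [Fact p.Prime], (p : ℤ) ∣ d1 → (d1 : ℚ_[p]).valuation = 1 :=
    fun p _ h => val_one h s1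
  have v2n : ∀ (p : ℕ) [Fact p.Prime], ¬ (p : ℤ) ∣ d2 → (d2 : ℚ_[p]).valuation = 0 :=
    fun p _ h => val_zero h
  have v2y : ∀ (p : ℕ) [Fact p.Prime], (p : ℤ) ∣ d2 → (d2 : ℚ_[p]).valuation = 1 :=
    fun p _ h => val_one h s2
  have vm : ∀ (p : ℕ) [Fact p.Prime], (p : ℤ) ∣ m → (m : ℚ_[p]).valuation = 1 :=
    fun p _ h => val_one h hs
  -- the local possibilities at the odd ramified primes
  have loc : ∀ (p : ℕ) [Fact p.Prime], p ≠ 2 → (p : ℤ) ∣ m →
      (¬ (p : ℤ) ∣ d1 → ((¬ (p : ℤ) ∣ d2 ∧ IsSquare (d1 : ℚ_[p]) ∧ IsSquare (d2 : ℚ_[p])) ∨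
        ((p : ℤ) ∣ d2 ∧ IsSquare (-(d1 : ℚ_[p])) ∧ IsSquare ((d2 : ℚ_[p]) * m)))) ∧
      ((p : ℤ) ∣ d1 → p ≠ 17 → ((¬ (p : ℤ) ∣ d2 ∧ IsSquare ((d1 : ℚ_[p]) * (-m)) ∧
          IsSquare ((d2 : ℚ_[p]) * 17)) ∨
        ((p : ℤ) ∣ d2 ∧ IsSquare ((d1 : ℚ_[p]) * m) ∧ IsSquare ((d2 : ℚ_[p]) * (17 * m))))) := by
    intro p hp hp2 hpm
    have hr := hram p hp2 hpm
    constructor
    · intro h1
      rcases hr with ⟨a, b⟩ | ⟨a, b⟩ | ⟨a, b⟩ | ⟨a, b⟩
      · left
        refine ⟨fun hd => ?_, a, b⟩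
        exact not_sq s2 hd b
      · right
        refine ⟨?_, a, b⟩
        by_contra hd
        refine nsq_odd (mul_ne_zero (hd2' p) (hm0' p)) ?_ b
        rw [Padic.valuation_mul (hd2' p) (hm0' p), v2n p hd, vm p hpm]
        decide
      · exfalso
        refine nsq_odd (mul_ne_zero (hd1' p) (neg_ne_zero.2 (hm0' p))) ?_ a
        rw [Padic.valuation_mul (hd1' p) (neg_ne_zero.2 (hm0' p)), val_neg, v1n p h1, vm p hpm]
        decide
      · exfalso
        refine nsq_odd (mul_ne_zero (hd1' p) (hm0' p)) ?_ a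
        rw [Padic.valuation_mul (hd1' p) (hm0' p), v1n p h1, vm p hpm]
        decide
    · intro h1 h17
      have n17 : (17 : ℚ_[p]) ≠ 0 := by norm_num
      have v17' : (17 : ℚ_[p]).valuation = 0 := by
        have h17 : ¬ (p : ℤ) ∣ ((17 : ℕ) : ℤ) := not_dvd_of_prime (by norm_num) h17
        have := val_zero (p := p) h17
        push_cast at this
        exact this
      rcases hr with ⟨a, b⟩ | ⟨a, b⟩ | ⟨a, b⟩ | ⟨a, b⟩
      · exact absurd a (not_sq s1 h1)
      · exfalso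
        refine nsq_odd (neg_ne_zero.2 (hd1' p)) ?_ a
        rw [val_neg, v1y p h1]
        decide
      · left
        refine ⟨fun hd => ?_, a, b⟩
        refine nsq_odd (mul_ne_zero (hd2' p) n17) ?_ b
        rw [Padic.valuation_mul (hd2' p) n17, v2y p hd, v17']
        decide
      · right
        refine ⟨?_, a, b⟩
        by_contra hd
        refine nsq_odd (mul_ne_zero (hd2' p) (mul_ne_zero n17 (hm0' p))) ?_ b
        rw [Padic.valuation_mul (hd2' p) (mul_ne_zero n17 (hm0' p)),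
          Padic.valuation_mul n17 (hm0' p), v2n p hd, v17', vm p hpm]
        decide
  have dvd_m : ∀ p ∈ PR m, p ≠ 2 → (p : ℤ) ∣ m := by
    intro p hp hp2
    rcases ((mem_PR hm0).1 hp).2 with h | h
    · exact h
    · exact absurd h.1 hp2
  -- the square classes in terms of `e`
  have to_e : ∀ (p : ℕ) [Fact p.Prime], IsSquare ((d2 : ℚ_[p]) * m) → IsSquare (e : ℚ_[p]) := by
    intro p _ hsq
    refine sq_of hsq (hd2' p) ?_
    rw [hme]; push_cast; ring
  have to_e17 : ∀ (p : ℕ) [Fact p.Prime], IsSquare ((d2 : ℚ_[p]) * (17 * m)) →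
      IsSquare (((17 * e : ℤ)) : ℚ_[p]) := by
    intro p _ hsq
    refine sq_of hsq (hd2' p) ?_
    rw [hme]; push_cast; ring
  -- the first system
  have first : ∀ p ∈ PR m, p ≠ 17 →
      ra p 17 * ind X p + ∑ q ∈ PR m, Lm m p q * ind Y q = 0 := by
    intro p hpP h17
    have hp := hpr p hpP
    have : Fact p.Prime := ⟨hp⟩
    by_cases hp2 : p = 2
    · subst hp2
      have h1 : ra 2 17 = 0 := by
        unfold ra
        rw [ch_two]
        rfl
      rw [h1, zero_mul, zero_add]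
      have hR := (two_mem_PR hm0).1 hpP
      by_cases hY2 : 2 ∈ Y
      · rw [row_mem hYP hY2]
        have g : ∀ q ∈ PR m \ Y, Gd 2 (ps m q) := fun q hq => by
          obtain ⟨h1, h2⟩ := Finset.mem_sdiff.1 hq
          exact gps 2 hpP q h1 (fun h => h2 (h ▸ hY2))
        rw [ra_prod hp _ _ g, ra_iff (gd_prod hp _ _ g)]
        exact to_e 2 ((h2loc hR).resolve_left (mem_SS_two.1 hY2).2)
      · rw [row_notMem hYP hY2]
        have g : ∀ q ∈ Y, Gd 2 (ps m q) := fun q hq =>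
          gps 2 hpP q (hYP hq) (fun h => hY2 (h ▸ hq))
        rw [ra_prod hp _ _ g, ra_iff (gd_prod hp _ _ g), hprodY]
        by_contra hcon
        exact hY2 (mem_SS_two.2 ⟨hpP, hcon⟩)
    · have hpm := dvd_m p hpP hp2
      have g17 : Gd p 17 := by
        rw [gd_odd hp2]
        have h17 : ¬ (p : ℤ) ∣ ((17 : ℕ) : ℤ) := not_dvd_of_prime (by norm_num) h17
        exact_mod_cast h17
      obtain ⟨l1, l2⟩ := loc p hp2 hpm
      by_cases hYp : p ∈ Y
      · rw [row_mem hYP hYp]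
        have g : ∀ q ∈ PR m \ Y, Gd p (ps m q) := fun q hq => by
          obtain ⟨h1, h2⟩ := Finset.mem_sdiff.1 hq
          exact gps p hpP q h1 (fun h => h2 (h ▸ hYp))
        have ge : Gd p e := gd_prod hp _ _ g
        have hd2 := (memY p hp hp2).1 hYp
        rw [ra_prod hp _ _ g, ← he]
        by_cases hXp : p ∈ X
        · have hd1 := (memX p hp).1 hXp
          have hi : ind X p = 1 := if_pos hXp
          rw [hi, mul_one]
          rcases l2 hd1 h17 with ⟨h1, -⟩ | ⟨-, -, h1⟩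
          · exact absurd hd2 h1
          · rw [ra_eq_of g17 ge (to_e17 p h1), two_zmod]
        · have hd1 : ¬ (p : ℤ) ∣ d1 := fun h => hXp ((memX p hp).2 h)
          have hi : ind X p = 0 := if_neg hXp
          rw [hi, mul_zero, zero_add]
          rcases l1 hd1 with ⟨h1, -⟩ | ⟨-, -, h1⟩
          · exact absurd hd2 h1
          · exact (ra_iff ge).2 (to_e p h1)
      · rw [row_notMem hYP hYp]
        have g : ∀ q ∈ Y, Gd p (ps m q) := fun q hq =>
          gps p hpP q (hYP hq) (fun h => hYp (h ▸ hq))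
        have gd : Gd p d2 := by
          rw [← hprodY]
          exact gd_prod hp _ _ g
        have hd2 : ¬ (p : ℤ) ∣ d2 := fun h => hYp ((memY p hp hp2).2 h)
        rw [ra_prod hp _ _ g, hprodY]
        by_cases hXp : p ∈ X
        · have hd1 := (memX p hp).1 hXp
          have hi : ind X p = 1 := if_pos hXp
          rw [hi, mul_one]
          rcases l2 hd1 h17 with ⟨-, -, h1⟩ | ⟨h1, -⟩
          · rw [ra_eq_of g17 gd (by push_cast; rwa [mul_comm]), two_zmod]
          · exact absurd h1 hd2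
        · have hd1 : ¬ (p : ℤ) ∣ d1 := fun h => hXp ((memX p hp).2 h)
          have hi : ind X p = 0 := if_neg hXp
          rw [hi, mul_zero, zero_add]
          rcases l1 hd1 with ⟨-, -, h1⟩ | ⟨h1, -⟩
          · exact (ra_iff gd).2 h1
          · exact absurd h1 hd2
  -- the second system at the odd primes
  have second : ∀ q ∈ PR m, q ≠ 2 →
      ∑ p ∈ PR m, Lm m p q * ind X p + al m q * ind Y q = 0 := by
    intro q hqP hq2
    have hq := hpr q hqP
    have : Fact q.Prime := ⟨hq⟩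
    have hqm := dvd_m q hqP hq2
    obtain ⟨l1, l2⟩ := loc q hq2 hqm
    have gm1 : Gd q (-1) := by
      rw [gd_odd hq2, dvd_neg]
      intro h1
      have h2 : q ∣ 1 := by exact_mod_cast h1
      exact hq.one_lt.ne' (Nat.dvd_one.1 h2)
    have hrec : ∀ T : Finset ℕ, T ⊆ PR m →
        ∑ p ∈ T, ra p (ps m q) = ∑ p ∈ T, ra q ((p : ℕ) : ℤ) := by
      intro T hT
      refine Finset.sum_congr rfl fun p hp => ?_
      unfold ra
      rw [ps_odd hq2, recip_ch (hpr p (hT hp)) hq hq2, ch_odd hq2]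
    by_cases hXq : q ∈ X
    · have hd1 := (memX q hq).1 hXq
      have hq17 : q ≠ 17 := fun h => h17X (h ▸ hXq)
      rw [col_mem hXP hXq, hrec _ ((Finset.erase_subset _ _).trans hXP)]
      have g1 : ∀ r ∈ (PR m).erase q, Gd q (ps m r) := fun r hr =>
        gps q hqP r (Finset.mem_of_mem_erase hr) (Finset.ne_of_mem_erase hr)
      have g2 : ∀ p ∈ X.erase q, Gd q ((p : ℕ) : ℤ) := fun p hp =>
        gd_nat (hpr p (hXP (Finset.mem_of_mem_erase hp))) hq hq2 (Finset.ne_of_mem_erase hp)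
      rw [ra_prod hq _ _ g1, ra_prod hq _ _ g2, ← ra_mul hq (gd_prod hq _ _ g1) (gd_prod hq _ _ g2)]
      set A : ℤ := ∏ r ∈ (PR m).erase q, ps m r with hA
      set B : ℤ := ∏ p ∈ X.erase q, ((p : ℕ) : ℤ) with hB
      have gAB : Gd q (A * B) := gd_mul hq (gd_prod hq _ _ g1) (gd_prod hq _ _ g2)
      have e1 : ps m q * A = m := by
        rw [hA, Finset.mul_prod_erase _ _ hqP, prod_PR hs]
      have e2 : ((q : ℕ) : ℤ) * B = d1 := by
        rw [hB, Finset.mul_prod_erase _ _ hXq, hprodX]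
      have hq0 : (q : ℚ_[q]) ≠ 0 := by exact_mod_cast hq.ne_zero
      -- the class of `A B`
      have hAB : ∀ c : ℤ, (c = 1 ∨ c = -1) → IsSquare ((d1 : ℚ_[q]) * ((c : ℚ_[q]) * m)) →
          ra q (A * B) = ra q c + al m q := by
        intro c hc hsq
        have gc : Gd q c := by
          rcases hc with rfl | rfl
          · exact gd_one hq
          · exact gm1
        rw [ps_odd hq2] at e1
        by_cases h4 : q % 4 = 1
        · have hal : al m q = 0 := by
            unfold al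
            rw [ps_odd hq2]
            unfold sgp
            rw [if_pos h4, if_neg (by omega)]
          rw [hal, add_zero]
          refine ra_eq_of gAB gc ?_
          refine sq_of hsq hq0 ?_
          have hsg : sgp q = q := if_pos h4
          rw [hsg] at e1
          rw [← e1, ← e2]; push_cast; ring
        · have hal : al m q = ra q (-1) := (ra_neg_one hq hq2).symm
          rw [hal, ← ra_mul hq gc gm1]
          refine ra_eq_of gAB (gd_mul hq gc gm1) ?_
          refine sq_of hsq hq0 ?_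
          have hsg : sgp q = -q := if_neg h4
          rw [hsg] at e1
          rw [← e1, ← e2]; push_cast; ring
      rcases l2 hd1 hq17 with ⟨h1, h2, -⟩ | ⟨h1, h2, -⟩
      · have hi : ind Y q = 0 := if_neg (fun h => h1 ((memY q hq hq2).1 h))
        rw [hi, mul_zero, add_zero, hAB (-1) (Or.inr rfl) (by push_cast; rwa [neg_one_mul]),
          ra_neg_one (m := m) hq hq2, two_zmod]
      · have hi : ind Y q = 1 := if_pos ((memY q hq hq2).2 h1)
        have hr1 : ra q 1 = 0 := (ra_iff (gd_one hq)).2 ⟨1, by push_cast; ring⟩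
        rw [hi, mul_one, hAB 1 (Or.inl rfl) (by push_cast; rwa [one_mul]), hr1, zero_add, two_zmod]
    · have hd1 : ¬ (q : ℤ) ∣ d1 := fun h => hXq ((memX q hq).2 h)
      rw [col_notMem hXP hXq, hrec _ hXP]
      have g2 : ∀ p ∈ X, Gd q ((p : ℕ) : ℤ) := fun p hp =>
        gd_nat (hpr p (hXP hp)) hq hq2 (fun h => hXq (h ▸ hp))
      have gd : Gd q d1 := by
        rw [← hprodX]
        exact gd_prod hq _ _ g2
      rw [ra_prod hq _ _ g2, hprodX]
      rcases l1 hd1 with ⟨h1, h2, -⟩ | ⟨h1, h2, -⟩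
      · have hi : ind Y q = 0 := if_neg (fun h => h1 ((memY q hq hq2).1 h))
        rw [hi, mul_zero, add_zero]
        exact (ra_iff gd).2 h2
      · have hi : ind Y q = 1 := if_pos ((memY q hq hq2).2 h1)
        rw [hi, mul_one, ← ra_neg_one (m := m) hq hq2,
          ra_eq_of gd gm1 (by push_cast; rwa [mul_neg_one]), two_zmod]
  -- the second system
  have second' : ∀ q ∈ PR m, ∑ p ∈ PR m, Lm m p q * ind X p + al m q * ind Y q = 0 := by
    intro q hqP
    by_cases hq2 : q = 2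
    · subst hq2
      have h1 := total (m := m) (X := X) (Y := Y)
      rw [← Finset.add_sum_erase _ _ hqP, Finset.sum_eq_zero (s := (PR m).erase 2) (fun q hq =>
        second q (Finset.mem_of_mem_erase hq) (Finset.ne_of_mem_erase hq)), add_zero] at h1
      rw [h1, sum_ind hYP]
      refine sum_al (fun q hq h0 => ?_) (by rw [hprodY]; exact hp2)
      exact s2.ne_zero (by rw [← hprodY]; exact Finset.prod_eq_zero hq h0)
    · exact second q hqP hq2
  have hz := h (ind X) (ind Y) (if_neg h17X) first second'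
  have hXe : X = ∅ := by
    rw [Finset.eq_empty_iff_forall_notMem]
    intro p hp
    have h1 := (hz p (hXP hp)).1
    have h2 : ind X p = 1 := if_pos hp
    rw [h2] at h1
    exact absurd h1 (by decide)
  have hYe : Y = ∅ := by
    rw [Finset.eq_empty_iff_forall_notMem]
    intro p hp
    have h1 := (hz p (hYP hp)).2
    have h2 : ind Y p = 1 := if_pos hp
    rw [h2] at h1
    exact absurd h1 (by decide)
  constructor
  · rw [← hprodX, hXe, Finset.prod_empty]
  · rw [← hprodY, hYe, Finset.prod_empty]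

end

end Pool.Agent.N875.P17
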