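import Pool.Agent.N875.P17.Sx

/-!
# Finiteness of the twists of `17a2` from the criteria `Sx` and `Sr`
-/

set_option autoImplicit false

open Finset

namespace Pool.Agent.N875.P17

open WeierstrassCurve
open Pool.Agent.N875.X15 (Fin2 fin2_pow)
open Pool.Agent.TH841.SH.D (Sha)
open Pool.Agent.Y700 (VR)
open Pool.Agent.Z702 (S_TRN)
open Pool.Agent.N972.P17 (Cm Cme Cr Cre Cp Sx Sr)

/-- the short equation of the twist by `m` -/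
def WS (m : ℤ) : WeierstrassCurve ℚ :=
  ⟨0, 0, 0, ((-91 * m ^ 2 : ℤ) : ℚ), ((-330 * m ^ 3 : ℤ) : ℚ)⟩

theorem Em_Δ (m : ℤ) : (Em m).Δ = 2 ^ 12 * 17 ^ 2 * m ^ 6 := by
  simp only [Em, WeierstrassCurve.Δ, WeierstrassCurve.b₂, WeierstrassCurve.b₄,
    WeierstrassCurve.b₆, WeierstrassCurve.b₈]
  ring

theorem EQm_Δ_ne {m : ℤ} (hm : m ≠ 0) : (EQm m).Δ ≠ 0 := by
  rw [WeierstrassCurve.map_Δ, Em_Δ]
  show ((2 ^ 12 * 17 ^ 2 * m ^ 6 : ℤ) : ℚ) ≠ 0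
  have : (2 ^ 12 * 17 ^ 2 * m ^ 6 : ℤ) ≠ 0 := mul_ne_zero (by norm_num) (pow_ne_zero 6 hm)
  exact_mod_cast this

theorem vrS (m : ℤ) : VR (WS m) (EQm m) 1 (-5 * m) 0 0 := by
  refine ⟨by norm_num, ?_, ?_, ?_, ?_, ?_⟩
  · show (1 : ℚ) * (((0 : ℤ)) : ℚ) = 0 + 2 * 0
    norm_num
  · show (1 : ℚ) ^ 2 * (((-15 * m : ℤ)) : ℚ) = 0 - 0 * 0 + 3 * (-5 * m) - 0 ^ 2
    push_cast
    ring
  · show (1 : ℚ) ^ 3 * (((0 : ℤ)) : ℚ) = 0 + (-5 * m) * 0 + 2 * 0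
    norm_num
  · show (1 : ℚ) ^ 4 * (((-16 * m ^ 2 : ℤ)) : ℚ) = ((-91 * m ^ 2 : ℤ) : ℚ) - 0 * 0 +
      2 * (-5 * m) * 0 - (0 + -5 * m * 0) * 0 + 3 * (-5 * m) ^ 2 - 2 * 0 * 0
    push_cast
    ring
  · show (1 : ℚ) ^ 6 * (((0 : ℤ)) : ℚ) = ((-330 * m ^ 3 : ℤ) : ℚ) +
      (-5 * m) * ((-91 * m ^ 2 : ℤ) : ℚ) +
      (-5 * m) ^ 2 * 0 + (-5 * m) ^ 3 - 0 * 0 - 0 ^ 2 - (-5 * m) * 0 * 0
    push_cast
    ring

/-- transport between the equations -/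
theorem fin2_S {m : ℤ} (hm : m ≠ 0) : Fin2 (WS m) ↔ Fin2 (EQm m) := by
  have hT : S_TRN := Pool.Agent.Z932.Z702.t_TRN
  obtain ⟨h1, h2, -⟩ := hT _ _ _ _ _ _ (vrS m) (EQm_Δ_ne hm)
  exact and_congr h1 h2

/-- the points of the twist by `D` are finitely many -/
def FinPts (D : ℤ) : Prop :=
  {q : ℚ × ℚ | q.2 ^ 2 = q.1 ^ 3 + ((-91 * D ^ 2 : ℤ) : ℚ) * q.1 + ((-330 * D ^ 3 : ℤ) : ℚ)}.Finite

theorem finPts_of {m : ℤ} (hm : m ≠ 0) (h : Fin2 (WS m)) : FinPts m := by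
  have h1 := h.1
  refine Pool.Agent.N969.P15.set_of_pt (a := -91 * m ^ 2) (b := -330 * m ^ 3) ?_ h1
  have e : 4 * (-91 * m ^ 2) ^ 3 + 27 * (-330 * m ^ 3) ^ 2 = -73984 * m ^ 6 := by ring
  rw [e]
  exact mul_ne_zero (by norm_num) (pow_ne_zero 6 hm)

/-- **The descent.** -/
theorem desc {m : ℤ} (hm : Squarefree m) (h : Sg m) : Fin2 (EQm m) ∧ Fin2 (WS m) ∧ FinPts m := by
  have h1 := finite_of_SC hm (sc_of_sg hm h)
  have h2 : Fin2 (EQm m) := ⟨h1.1, fun x hx => h1.2 1 x (by rwa [pow_one, two_nsmul])⟩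
  have h3 := (fin2_S hm.ne_zero).2 h2
  exact ⟨h2, h3, finPts_of hm.ne_zero h3⟩

/-- odd discriminants, `17` inert -/
theorem desc_Cm {n : ℕ} (h : Cm n) (hS : Sx n) : Fin2 (WS (-(n : ℤ))) ∧ FinPts (-(n : ℤ)) := by
  have e : mD n = -(n : ℤ) := if_pos (by have := h.2.1; omega)
  rw [← e]
  exact (desc (mD_sqf (FD_Cm h)) (sg_of_Sx (FD_Cm h) (not_dvd17 h.2.2) hS)).2

/-- even discriminants, `17` inert -/
theorem desc_Cme {n : ℕ} (h : Cme n) (hS : Sx n) :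
    Fin2 (WS (-((n / 4 : ℕ) : ℤ))) ∧ FinPts (-((n / 4 : ℕ) : ℤ)) := by
  have e : mD n = -((n / 4 : ℕ) : ℤ) := if_neg (by obtain ⟨⟨k, rfl, -⟩, -⟩ := h; omega)
  rw [← e]
  exact (desc (mD_sqf (FD_Cme h)) (sg_of_Sx (FD_Cme h) (not_dvd17 h.2) hS)).2

/-- odd discriminants, `17` ramified -/
theorem desc_Cr {n : ℕ} (h : Cr n) (hS : Sr n) : Fin2 (WS (-(n : ℤ))) ∧ FinPts (-(n : ℤ)) := by
  have e : mD n = -(n : ℤ) := if_pos (by have := h.2.1; omega)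
  rw [← e]
  exact (desc (mD_sqf (FD_Cr h)) (sg_of_Sr (FD_Cr h) hS)).2

/-- even discriminants, `17` ramified -/
theorem desc_Cre {n : ℕ} (h : Cre n) (hS : Sr n) :
    Fin2 (WS (-((n / 4 : ℕ) : ℤ))) ∧ FinPts (-((n / 4 : ℕ) : ℤ)) := by
  have e : mD n = -((n / 4 : ℕ) : ℤ) := if_neg (by obtain ⟨⟨k, rfl, -⟩, -⟩ := h; omega)
  rw [← e]
  exact (desc (mD_sqf (FD_Cre h)) (sg_of_Sr (FD_Cre h) hS)).2

/-! ### positive odd discriminants -/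

section pos

open Pool.Agent.N972.P17 (ls LL nu)
open Pool.Agent.N875.X15

lemma PR_pos {A : ℕ} (h4 : A % 4 = 1) : PR (A : ℤ) = A.primeFactors := by
  unfold PR
  rw [if_pos (by omega), Int.natAbs_natCast]

lemma odd_pos {A : ℕ} (h4 : A % 4 = 1) {p : ℕ} (hp : p ∈ A.primeFactors) : p ≠ 2 := by
  rintro rfl
  have := (Nat.mem_primeFactors.1 hp).2.1
  omega

lemma LL_pos {A : ℕ} (h4 : A % 4 = 1) {p q : ℕ} (hp : p ∈ A.primeFactors)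
    (hq : q ∈ A.primeFactors) : LL A p q = Lm (A : ℤ) p q := by
  have hp2 := odd_pos h4 hp
  have key : ∀ r ∈ A.primeFactors, ls A r p = ra p (ps (A : ℤ) r) := by
    intro r hr
    have hr2 := odd_pos h4 hr
    unfold ls ra
    rw [if_neg hp2, ch_odd hp2, star_odd hr2, ps_odd hr2]
  unfold LL Lm
  by_cases hpq : p = q
  · rw [if_pos hpq, if_pos hpq, PR_pos h4]
    exact Finset.sum_congr rfl fun r hr => key r (Finset.mem_of_mem_erase hr)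
  · rw [if_neg hpq, if_neg hpq]
    exact key q hq

lemma al_pos {A : ℕ} (h4 : A % 4 = 1) {q : ℕ} (hq : q ∈ A.primeFactors) :
    Pool.Agent.N972.P17.al A q = al (A : ℤ) q := by
  have hq2 := odd_pos h4 hq
  unfold Pool.Agent.N972.P17.al al
  rw [star_odd hq2, ps_odd hq2]

theorem sg_of_Sx_pos {A : ℕ} (h4 : A % 4 = 1) (h17 : ¬ 17 ∣ A) (hS : Sx A) : Sg (A : ℤ) := by
  intro x y _ h1 h2
  rw [PR_pos h4] at h1 h2 ⊢
  refine hS x y (fun p hp => ?_) (fun q hq => ?_)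
  · rw [nu_eq, ← h1 p hp (by
      rintro rfl
      exact h17 (Nat.mem_primeFactors.1 hp).2.1)]
    congr 1
    exact Finset.sum_congr rfl fun q hq => by rw [LL_pos h4 hp hq]
  · rw [al_pos h4 hq, ← h2 q hq]
    congr 1
    exact Finset.sum_congr rfl fun p hp => by rw [LL_pos h4 hp hq]

/-- positive odd discriminants, `17` split -/
theorem desc_Cp {A : ℕ} (h : Cp A) (hS : Sx A) : Fin2 (WS (A : ℤ)) ∧ FinPts (A : ℤ) := by
  obtain ⟨hs, h4, h17⟩ := h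
  refine (desc (Int.squarefree_natCast.2 hs) (sg_of_Sx_pos h4 ?_ hS)).2
  rintro ⟨k, rfl⟩
  have h1 : jacobiSym ((17 * k : ℕ) : ℤ) 17 = 0 := by
    rw [jacobiSym.eq_zero_iff_not_coprime, Int.gcd_natCast_natCast]
    norm_num
  rw [h1] at h17
  norm_num at h17

end pos

end Pool.Agent.N875.P17
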