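import Pool.Agent.N875.P17.Cn3
import Pool.Agent.N875.P17.Fin
import Pool.Agent.Y214.SX.Rk
import Pool.Agent.Z864.SX.Conv

/-!
# The converse: rank zero and `Ш[2] = 0` imply that the symmetric matrix is invertible
-/

set_option autoImplicit false

open Finset

namespace Pool.Agent.N875.P17

open WeierstrassCurve
open Pool.Agent.N875.X15
open Pool.Agent.TH841.SH (LocC SelG selHom IsR IsX toSha)
open Pool.Agent.W262.SH (QB Pt)
open Pool.Agent.Y214.SX (card_ker card_two index_double)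

open scoped Classical in
/-- the number of the Selmer homomorphisms -/
theorem card_selHom {m : ℤ} (hm : m ≠ 0) (hf : Fin2 (EQm m)) : Nat.card (selHom (EQm m)) = 4 := by
  obtain ⟨hfin, hsha⟩ := hf
  have hm' : (m : ℚ) ≠ 0 := by exact_mod_cast hm
  have q12 : (((0 : ℤ)) : ℚ) ≠ ((-m : ℤ) : ℚ) := by
    push_cast
    intro h
    apply hm'
    linear_combination h
  have q13 : (((0 : ℤ)) : ℚ) ≠ ((16 * m : ℤ) : ℚ) := by
    push_cast
    intro h
    apply hm'
    linear_combination (-1 / 16 : ℚ) * h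
  have q23 : ((-m : ℤ) : ℚ) ≠ ((16 * m : ℤ) : ℚ) := by
    push_cast
    intro h
    apply hm'
    linear_combination (-1 / 17 : ℚ) * h
  have hR := isR m
  have hsha' : ∀ x : Pool.Agent.W262.SH.Sha (EQm m), x + x = 0 → x = 0 := by
    intro x hx
    have h1 := hsha ((Pool.Agent.TH841.SH.D.eSha (EQm m)).symm x) (by
      rw [← map_add, hx, map_zero])
    rwa [EmbeddingLike.map_eq_zero_iff] at h1
  have hker : (toSha hR).ker = ⊤ := by
    rw [AddSubgroup.eq_top_iff']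
    intro f
    rw [AddMonoidHom.mem_ker]
    apply hsha'
    rw [← map_add]
    have : f + f = 0 := by
      apply Subtype.ext
      funext σ
      exact f.2.2.1 σ
    rw [this, map_zero]
  have h1 := card_ker hR q12 q13 q23
  rw [hker, Nat.card_congr AddSubgroup.topEquiv.toEquiv, index_double] at h1
  rw [h1, ← card_two hR q12 q13 q23]
  refine Nat.card_congr (Equiv.subtypeEquivRight fun x => ?_)
  rw [AddMonoidHom.mem_ker, nsmulAddMonoidHom_apply, two_nsmul]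

/-- two square classes with the same character -/
lemma cls_sq {d d' : ℤ}
    (h : ∀ s t : QB, s ^ 2 = d → t ^ 2 = d' → ∀ σ : QB ≃ₐ[ℚ] QB, (σ s = s ↔ σ t = t)) :
    IsSquare ((d : ℚ) * d') := by
  obtain ⟨s, hs⟩ := IsAlgClosed.exists_pow_nat_eq ((d : ℤ) : QB) (n := 2) (by norm_num)
  obtain ⟨t, ht⟩ := IsAlgClosed.exists_pow_nat_eq ((d' : ℤ) : QB) (n := 2) (by norm_num)
  have hpm : ∀ (d : ℤ) (s : QB), s ^ 2 = d → ∀ σ : QB ≃ₐ[ℚ] QB, σ s = s ∨ σ s = -s := by
    intro d s hs σ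
    have : (σ s) ^ 2 = s ^ 2 := by rw [← map_pow, hs, map_intCast]
    exact sq_eq_sq_iff_eq_or_eq_neg.1 this
  obtain ⟨q, hq⟩ := Pool.Agent.TH841.SH.fix_mem (K := ℚ) (s * t) (by
    intro σ
    rw [map_mul]
    have h1 := h s t hs ht σ
    by_cases h2 : σ s = s
    · rw [h2, h1.1 h2]
    · have h3 : σ t ≠ t := fun h' => h2 (h1.2 h')
      rw [(hpm d s hs σ).resolve_left h2, (hpm d' t ht σ).resolve_left h3]
      ring)
  refine ⟨q, ?_⟩
  apply (algebraMap ℚ QB).injective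
  rw [map_mul, map_mul, hq, map_intCast, map_intCast, ← hs, ← ht]
  ring

/-- everywhere locally soluble -/
def EL (m : ℤ) (d : ℤ × ℤ) : Prop := d.1 ≠ 0 ∧ d.2 ≠ 0 ∧
  LocC ℝ 0 (-m) (16 * m) d.1 d.2 ∧ ∀ (p : ℕ) [Fact p.Prime], LocC ℚ_[p] 0 (-m) (16 * m) d.1 d.2

/-- four classes at most -/
theorem not_five {m : ℤ} (hm : m ≠ 0) (hf : Fin2 (EQm m)) (d : Fin 5 → ℤ × ℤ)
    (hd : ∀ i, EL m (d i)) (hne : ∀ i j, i < j → ¬ (IsSquare (((d i).1 : ℚ) * (d j).1) ∧
      IsSquare (((d i).2 : ℚ) * (d j).2))) : False := by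
  have hR := isR m
  have hex : ∀ i, ∃ f : selHom (EQm m), (∀ s : QB, s ^ 2 = ((d i).1 : ℤ) →
      ∀ σ : QB ≃ₐ[ℚ] QB, σ s = s ↔
        IsX ((EQm m).baseChange QB) (algebraMap ℚ QB ((0 : ℤ) : ℚ)) (f.1 σ)) ∧
      ∀ s : QB, s ^ 2 = ((d i).2 : ℤ) → ∀ σ : QB ≃ₐ[ℚ] QB, σ s = s ↔
        IsX ((EQm m).baseChange QB) (algebraMap ℚ QB ((-m : ℤ) : ℚ)) (f.1 σ) := by
    intro i
    obtain ⟨n1, n2, h1, h2⟩ := hd i
    obtain ⟨f, hf, f1, f2⟩ := Pool.Agent.Z864.SX.exists_hom hR (by omega) (by omega) (by omega)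
      n1 n2 h1 (fun p _ => h2 p)
    exact ⟨⟨f, hf⟩, f1, f2⟩
  choose Ψ h1 h2 using hex
  have hinj : Function.Injective Ψ := by
    have key : ∀ i j, Ψ i = Ψ j → IsSquare (((d i).1 : ℚ) * (d j).1) ∧
        IsSquare (((d i).2 : ℚ) * (d j).2) := by
      intro i j hij
      constructor
      · apply cls_sq
        intro s t hs ht σ
        rw [h1 i s hs σ, h1 j t ht σ, hij]
      · apply cls_sq
        intro s t hs ht σ
        rw [h2 i s hs σ, h2 j t ht σ, hij]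
    intro i j hij
    rcases lt_trichotomy i j with h | h | h
    · exact absurd (key i j hij) (hne i j h)
    · exact h
    · exact absurd (key j i hij.symm) (hne j i h)
  have hc := card_selHom hm hf
  have hfin : Finite (selHom (EQm m)) := Nat.finite_of_card_ne_zero (by rw [hc]; norm_num)
  have h5 := Nat.card_le_card_of_injective Ψ hinj
  rw [hc, Nat.card_eq_fintype_card, Fintype.card_fin] at h5
  omega

lemma cases5 : ∀ i j : Fin 5, i < j → (i = 0 ∧ j = 1) ∨ (i = 0 ∧ j = 2) ∨ (i = 0 ∧ j = 3) ∨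
    (i = 0 ∧ j = 4) ∨ (i = 1 ∧ j = 2) ∨ (i = 1 ∧ j = 3) ∨ (i = 1 ∧ j = 4) ∨ (i = 2 ∧ j = 3) ∨
    (i = 2 ∧ j = 4) ∨ (i = 3 ∧ j = 4) := by
  decide

lemma q_neg {x : ℚ} (h : IsSquare x) : ¬ x < 0 := fun h0 => by
  obtain ⟨r, hr⟩ := h
  have := mul_self_nonneg r
  rw [← hr] at this
  exact absurd h0 (not_lt.2 this)

lemma q17 : ¬ IsSquare (17 : ℚ) := by
  intro h
  have h1 : IsSquare (((17 : ℤ)) : ℚ) := by exact_mod_cast h
  rw [Rat.isSquare_intCast_iff] at h1
  obtain ⟨r, hr⟩ := h1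
  have h2 : r < 5 := by nlinarith
  have h3 : -5 < r := by nlinarith
  interval_cases r <;> omega

/-- parity of the valuation of a square -/
lemma q_even {p : ℕ} [Fact p.Prime] {a : ℤ} (ha : a ≠ 0) (h : IsSquare (a : ℚ)) :
    Even (a : ℚ_[p]).valuation := by
  have ha' : (a : ℚ_[p]) ≠ 0 := by exact_mod_cast ha
  refine even_val ha' ?_
  obtain ⟨r, hr⟩ := h
  refine ⟨(r : ℚ_[p]), ?_⟩
  exact_mod_cast congrArg (Rat.cast : ℚ → ℚ_[p]) hr

/-- **The converse.** -/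
theorem sg_of_fin2 {m : ℤ} (hs : Squarefree m) (hf : Fin2 (EQm m)) : Sg m := by
  classical
  intro x y hx17 first second
  have hm0 := hs.ne_zero
  have hpr : ∀ p ∈ PR m, p.Prime := fun p hp => ((mem_PR hm0).1 hp).1
  set X : Finset ℕ := (PR m).filter (fun p => x p ≠ 0) with hX
  set Y : Finset ℕ := (PR m).filter (fun p => y p ≠ 0) with hY
  have hXP : X ⊆ PR m := Finset.filter_subset _ _
  have hYP : Y ⊆ PR m := Finset.filter_subset _ _
  have ex : ∀ p ∈ PR m, x p = ind X p := by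
    intro p hp
    unfold ind
    by_cases h : x p = 0
    · have h' : p ∉ X := fun h' => absurd h (Finset.mem_filter.1 h').2
      rw [if_neg h', h]
    · rw [if_pos (Finset.mem_filter.2 ⟨hp, h⟩)]
      exact (zmod_cases (x p)).resolve_left h
  have ey : ∀ p ∈ PR m, y p = ind Y p := by
    intro p hp
    unfold ind
    by_cases h : y p = 0
    · have h' : p ∉ Y := fun h' => absurd h (Finset.mem_filter.1 h').2
      rw [if_neg h', h]
    · rw [if_pos (Finset.mem_filter.2 ⟨hp, h⟩)]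
      exact (zmod_cases (y p)).resolve_left h
  have h17 : 17 ∉ X := fun h => (Finset.mem_filter.1 h).2 hx17
  obtain ⟨p1, p2, hloc⟩ := everywhere hs hXP hYP h17 (fun p hp h => by
    rw [← ex p hp, ← first p hp h]
    congr 1
    exact Finset.sum_congr rfl fun q hq => by rw [ey q hq]) (fun q hq => by
    rw [← ey q hq, ← second q hq]
    congr 1
    exact Finset.sum_congr rfl fun p hp => by rw [ex p hp])
  set d1 : ℤ := ∏ r ∈ X, ((r : ℕ) : ℤ) with hd1
  set d2 : ℤ := ∏ q ∈ Y, ps m q with hd2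
  have hme : m = d2 * ∏ q ∈ PR m \ Y, ps m q := by
    rw [hd2, mul_comm, Finset.prod_sdiff hYP, prod_PR hs]
  have hd2m : d2 ∣ m := ⟨_, hme⟩
  have s2 : Squarefree d2 := hs.squarefree_of_dvd hd2m
  have hd1n : d1 = ((∏ p ∈ X, p : ℕ) : ℤ) := by rw [hd1]; push_cast; rfl
  have s1 : Squarefree d1 := by
    rw [hd1n]
    exact Int.squarefree_natCast.2 (sqf_prod X fun p hp => hpr p (hXP hp))
  have mem1 : ∀ p : ℕ, p.Prime → ((p : ℤ) ∣ d1 ↔ p ∈ X) := by
    intro p hp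
    rw [hd1n, Int.natCast_dvd_natCast, Prime.dvd_finsetProd_iff hp.prime]
    constructor
    · rintro ⟨q, hq, hpq⟩
      rw [(Nat.prime_dvd_prime_iff_eq hp (hpr q (hXP hq))).1 hpq]
      exact hq
    · intro h
      exact ⟨p, h, dvd_rfl⟩
  have v1 : (d1 : ℚ_[17]).valuation = 0 :=
    val_zero (p := 17) (fun h => h17 ((mem1 17 (by norm_num)).1 h))
  have v17 : (17 : ℚ_[17]).valuation = 1 := val17
  have hm17 : (m : ℚ_[17]) ≠ 0 := by exact_mod_cast hm0
  have hd17 : (d1 : ℚ_[17]) ≠ 0 := by exact_mod_cast p1.ne'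
  have hd17' : (d2 : ℚ_[17]) ≠ 0 := by exact_mod_cast p2.ne'
  have hmQ : (m : ℚ) ≠ 0 := by exact_mod_cast hm0
  have hmul_cast : ∀ a b : ℤ, (a : ℚ) * (b : ℚ) = ((a * b : ℤ) : ℚ) := fun a b => by push_cast; ring
  -- the case of a square class which is not trivial
  by_contra hcon
  have hne0 : ¬ (X = ∅ ∧ Y = ∅) := by
    rintro ⟨a, b⟩
    apply hcon
    intro p hp
    rw [ex p hp, ey p hp, a, b]
    exact ⟨rfl, rfl⟩
  have r0 : LocC ℝ 0 (-m) (16 * m) 1 1 := locC_real (by norm_num) (by norm_num)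
  let d : Fin 5 → ℤ × ℤ := ![(1, 1), (-1, m * 1), (-m * 1, 17 * 1), (-(-m * 1), m * (17 * 1)),
    (d1, d2)]
  have hEL : ∀ i, EL m (d i) := by
    intro i
    fin_cases i
    · exact ⟨one_ne_zero, one_ne_zero, r0, fun p _ => locC_one p m⟩
    · exact ⟨by norm_num [d], mul_ne_zero hm0 one_ne_zero, locC_T0 hm0 r0,
        fun p _ => locC_T0 hm0 (locC_one p m)⟩
    · exact ⟨mul_ne_zero (neg_ne_zero.2 hm0) one_ne_zero, by norm_num [d], locC_T1 hm0 r0,
        fun p _ => locC_T1 hm0 (locC_one p m)⟩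
    · exact ⟨neg_ne_zero.2 (mul_ne_zero (neg_ne_zero.2 hm0) one_ne_zero),
        mul_ne_zero hm0 (by norm_num), locC_T0 hm0 (locC_T1 hm0 r0),
        fun p _ => locC_T0 hm0 (locC_T1 hm0 (locC_one p m))⟩
    · exact ⟨p1.ne', p2.ne', locC_real p1 p2, fun p _ => hloc p⟩
  have sq17' : ∀ {a : ℚ}, a ≠ 0 → IsSquare a → ¬ IsSquare (17 * a) := by
    intro a ha h h'
    refine q17 (sq_cancel ha h ?_)
    rwa [mul_comm]
  refine not_five hm0 hf d hEL ?_
  intro i j hij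
  rintro ⟨c1, c2⟩
  rcases cases5 i j hij with ⟨rfl, rfl⟩ | ⟨rfl, rfl⟩ | ⟨rfl, rfl⟩ | ⟨rfl, rfl⟩ | ⟨rfl, rfl⟩ | ⟨rfl, rfl⟩ |
    ⟨rfl, rfl⟩ | ⟨rfl, rfl⟩ | ⟨rfl, rfl⟩ | ⟨rfl, rfl⟩
  · -- 0, 1
    have h : IsSquare (((1 : ℤ) : ℚ) * ((-1 : ℤ) : ℚ)) := c1
    exact q_neg h (by norm_num)
  · -- 0, 2
    have h : IsSquare (((1 : ℤ) : ℚ) * ((17 * 1 : ℤ) : ℚ)) := c2
    have e : ((1 : ℤ) : ℚ) * ((17 * 1 : ℤ) : ℚ) = 17 := by push_cast; ring
    rw [e] at h
    exact q17 h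
  · -- 0, 3
    have h : IsSquare (((1 : ℤ) : ℚ) * ((-(-m * 1) : ℤ) : ℚ)) := c1
    have h' : IsSquare (((1 : ℤ) : ℚ) * ((m * (17 * 1) : ℤ) : ℚ)) := c2
    refine sq17' hmQ ?_ ?_
    · have e : ((1 : ℤ) : ℚ) * ((-(-m * 1) : ℤ) : ℚ) = m := by push_cast; ring
      rwa [e] at h
    · have e : ((1 : ℤ) : ℚ) * ((m * (17 * 1) : ℤ) : ℚ) = 17 * m := by push_cast; ring
      rwa [e] at h'
  · -- 0, 4
    have h : IsSquare (((1 : ℤ) : ℚ) * (d1 : ℚ)) := c1
    have h' : IsSquare (((1 : ℤ) : ℚ) * (d2 : ℚ)) := c2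
    rw [Int.cast_one, one_mul] at h h'
    have hXe : X = ∅ := by
      rw [Finset.eq_empty_iff_forall_notMem]
      intro p hp
      have hpp := hpr p (hXP hp)
      have : Fact p.Prime := ⟨hpp⟩
      have h3 := q_even (p := p) p1.ne' h
      rw [val_one ((mem1 p hpp).2 hp) s1] at h3
      exact absurd h3 (by decide)
    have nodd : ∀ p : ℕ, p.Prime → ¬ (p : ℤ) ∣ d2 := by
      intro p hpp hd
      have : Fact p.Prime := ⟨hpp⟩
      have h3 := q_even (p := p) p2.ne' h'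
      rw [val_one hd s2] at h3
      exact absurd h3 (by decide)
    have hd21 : d2 = 1 := by
      by_contra hne
      have h4 : d2.natAbs ≠ 1 := by omega
      obtain ⟨p, hpp, hpd⟩ := Nat.exists_prime_and_dvd h4
      exact nodd p hpp (Int.natCast_dvd.2 hpd)
    have hYe : Y = ∅ := by
      rw [Finset.eq_empty_iff_forall_notMem]
      intro p hp
      have hpp := hpr p (hYP hp)
      have h5 : ps m p ∣ d2 := Finset.dvd_prod_of_mem _ hp
      by_cases hp2 : p = 2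
      · -- all elements of `Y` are `2`
        have hY2 : Y = {2} := by
          rw [Finset.eq_singleton_iff_unique_mem]
          refine ⟨hp2 ▸ hp, fun q hq => ?_⟩
          by_contra hq2
          have h6 : ps m q ∣ d2 := Finset.dvd_prod_of_mem _ hq
          rw [ps_odd hq2] at h6
          refine nodd q (hpr q (hYP hq)) (dvd_trans ?_ h6)
          rw [← Int.natAbs_dvd_natAbs, sgp_abs, Int.natAbs_natCast]
        have h7 : d2 = ps m 2 := by rw [hd2, hY2, Finset.prod_singleton]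
        have h8 := (two_mem_PR hm0).1 (hp2 ▸ hYP hp)
        obtain ⟨a1, a2⟩ := d2_spec hs
        have ho := oe_mod m
        rw [ps_two] at h7
        rw [← h7, hd21, one_mul] at a1
        omega
      · rw [ps_odd hp2] at h5
        refine nodd p hpp (dvd_trans ?_ h5)
        rw [← Int.natAbs_dvd_natAbs, sgp_abs, Int.natAbs_natCast]
    exact hne0 ⟨hXe, hYe⟩
  · -- 1, 2
    have h : IsSquare (((-1 : ℤ) : ℚ) * ((-m * 1 : ℤ) : ℚ)) := c1
    have h' : IsSquare (((m * 1 : ℤ) : ℚ) * ((17 * 1 : ℤ) : ℚ)) := c2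
    refine sq17' hmQ ?_ ?_
    · have e : ((-1 : ℤ) : ℚ) * ((-m * 1 : ℤ) : ℚ) = m := by push_cast; ring
      rwa [e] at h
    · have e : ((m * 1 : ℤ) : ℚ) * ((17 * 1 : ℤ) : ℚ) = 17 * m := by push_cast; ring
      rwa [e] at h'
  · -- 1, 3
    have h : IsSquare (((m * 1 : ℤ) : ℚ) * ((m * (17 * 1) : ℤ) : ℚ)) := c2
    have e : ((m * 1 : ℤ) : ℚ) * ((m * (17 * 1) : ℤ) : ℚ) = 17 * (m * m) := by push_cast; ring
    rw [e] at h
    exact sq17' (mul_ne_zero hmQ hmQ) (IsSquare.mul_self _) h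
  · -- 1, 4
    have h : IsSquare (((-1 : ℤ) : ℚ) * (d1 : ℚ)) := c1
    refine q_neg h ?_
    have : (0 : ℚ) < d1 := by exact_mod_cast p1
    push_cast
    linarith
  · -- 2, 3
    have h : IsSquare (((-m * 1 : ℤ) : ℚ) * ((-(-m * 1) : ℤ) : ℚ)) := c1
    refine q_neg h ?_
    push_cast
    have : (0 : ℚ) < m * m := mul_self_pos.2 hmQ
    linarith
  · -- 2, 4
    have h : IsSquare (((-m * 1 : ℤ) : ℚ) * (d1 : ℚ)) := c1
    have h' : IsSquare (((17 * 1 : ℤ) : ℚ) * (d2 : ℚ)) := c2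
    rw [hmul_cast] at h h'
    have e1 := q_even (p := 17) (mul_ne_zero (mul_ne_zero (neg_ne_zero.2 hm0) one_ne_zero) p1.ne') h
    have e2 := q_even (p := 17) (mul_ne_zero (by norm_num) p2.ne') h'
    push_cast at e1 e2
    rw [mul_one, Padic.valuation_mul (neg_ne_zero.2 hm17) hd17, val_neg, v1] at e1
    rw [Padic.valuation_mul (by norm_num) hd17', v17] at e2
    by_cases hd : (17 : ℤ) ∣ d2
    · rw [val_m17 hs (hd.trans hd2m)] at e1
      exact absurd e1 (by decide)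
    · rw [val_zero (p := 17) (n := d2) (by exact_mod_cast hd)] at e2
      exact absurd e2 (by decide)
  · -- 3, 4
    have h : IsSquare (((-(-m * 1) : ℤ) : ℚ) * (d1 : ℚ)) := c1
    have h' : IsSquare (((m * (17 * 1) : ℤ) : ℚ) * (d2 : ℚ)) := c2
    rw [hmul_cast] at h h'
    have e1 := q_even (p := 17)
      (mul_ne_zero (neg_ne_zero.2 (mul_ne_zero (neg_ne_zero.2 hm0) one_ne_zero)) p1.ne') h
    have e2 := q_even (p := 17) (mul_ne_zero (mul_ne_zero hm0 (by norm_num)) p2.ne') h'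
    push_cast at e1 e2
    rw [mul_one, neg_neg, Padic.valuation_mul hm17 hd17, v1] at e1
    rw [Padic.valuation_mul (mul_ne_zero hm17 (by norm_num)) hd17',
      Padic.valuation_mul hm17 (by norm_num), v17] at e2
    by_cases hd : (17 : ℤ) ∣ m
    · rw [val_m17 hs hd] at e1
      exact absurd e1 (by decide)
    · have hd' : ¬ (17 : ℤ) ∣ d2 := fun h => hd (h.trans hd2m)
      rw [val_zero (p := 17) (n := d2) (by exact_mod_cast hd'),
        val_zero (p := 17) (n := m) (by exact_mod_cast hd)] at e2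
      exact absurd e2 (by decide)

end Pool.Agent.N875.P17
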