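import Pool.Agent.N875.P17.Cn1

/-!
# The converse: a kernel vector gives everywhere locally soluble square classes
-/

set_option autoImplicit false

open Finset

namespace Pool.Agent.N875.P17

open Pool.Agent.N875.X15
open Pool.Agent.TH841.SH (LocC SelG)

section

variable {m : ℤ} {X Y : Finset ℕ}

lemma row_exp {p : ℕ} (hp : p ∈ PR m) (y : ℕ → ZMod 2) :
    ∑ q ∈ PR m, Lm m p q * y q = ∑ q ∈ (PR m).erase p, ra p (ps m q) * (y q + y p) := by
  classical
  rw [← Finset.add_sum_erase _ _ hp]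
  have h1 : Lm m p p = ∑ r ∈ (PR m).erase p, ra p (ps m r) := if_pos rfl
  have h2 : ∑ q ∈ (PR m).erase p, Lm m p q * y q =
      ∑ q ∈ (PR m).erase p, ra p (ps m q) * y q := by
    refine Finset.sum_congr rfl fun q hq => ?_
    have e : Lm m p q = ra p (ps m q) := if_neg (Finset.ne_of_mem_erase hq).symm
    rw [e]
  rw [h1, h2, Finset.sum_mul, ← Finset.sum_add_distrib]
  exact Finset.sum_congr rfl fun q _ => by ring

/-- the sum of the rows of the odd primes -/
theorem row_total (hs : Squarefree m) (hY : Y ⊆ PR m)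
    (hal : ∑ q ∈ PR m, al m q * ind Y q = 0)
    (h2 : 2 ∈ PR m → ∑ q ∈ PR m, Lm m 2 q * ind Y q = 0) :
    ∑ p ∈ (PR m).erase 2, ∑ q ∈ PR m, Lm m p q * ind Y q = 0 := by
  classical
  have hm0 := hs.ne_zero
  have hpr : ∀ p ∈ PR m, p.Prime := fun p hp => ((mem_PR hm0).1 hp).1
  have hP' : ∀ p ∈ (PR m).erase 2, p.Prime ∧ p ≠ 2 := fun p hp =>
    ⟨hpr p (Finset.mem_of_mem_erase hp), Finset.ne_of_mem_erase hp⟩
  have hps := pair_sum (m := m) hP' (ind Y)
  by_cases h : 2 ∈ PR m
  · have hY' : ∀ p ∈ Y.erase 2, p.Prime ∧ p ≠ 2 := fun p hp =>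
      ⟨hpr p (hY (Finset.mem_of_mem_erase hp)), Finset.ne_of_mem_erase hp⟩
    have e1 : ∀ p ∈ (PR m).erase 2, ∑ q ∈ PR m, Lm m p q * ind Y q =
        ra p (ps m 2) * (ind Y 2 + ind Y p) +
          ∑ q ∈ ((PR m).erase 2).erase p, ra p (ps m q) * (ind Y q + ind Y p) := by
      intro p hp
      rw [row_exp (Finset.mem_of_mem_erase hp), Finset.erase_right_comm]
      refine (Finset.add_sum_erase _ _ ?_).symm
      exact Finset.mem_erase.2 ⟨(Finset.ne_of_mem_erase hp).symm, h⟩
    rw [Finset.sum_congr rfl e1, Finset.sum_add_distrib, hps]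
    -- sums over `Y`
    have sY : ∀ f : ℕ → ZMod 2, ∑ p ∈ (PR m).erase 2, f p * ind Y p = ∑ p ∈ Y.erase 2, f p := by
      intro f
      rw [← sum_ind (P := (PR m).erase 2) (S := Y.erase 2) (Finset.erase_subset_erase _ hY) f]
      refine Finset.sum_congr rfl fun p hp => ?_
      have hne := Finset.ne_of_mem_erase hp
      congr 1
      unfold ind
      by_cases hpY : p ∈ Y
      · rw [if_pos hpY, if_pos (Finset.mem_erase.2 ⟨hne, hpY⟩)]
      · rw [if_neg hpY, if_neg (fun h => hpY (Finset.mem_of_mem_erase h))]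
    have hc : ps m 2 = -1 ∨ ps m 2 = 2 ∨ ps m 2 = -2 := by
      rw [ps_two]
      obtain ⟨a1, a2⟩ := d2_spec hs
      have ho := oe_mod m
      rcases a2 with ⟨-, a | a⟩ | ⟨-, a | a⟩
      · exfalso
        rw [a, one_mul] at a1
        have := (two_mem_PR hm0).1 h
        omega
      · exact Or.inl a
      · exact Or.inr (Or.inl a)
      · exact Or.inr (Or.inr a)
    have e2 : ∑ p ∈ (PR m).erase 2, ra p (ps m 2) * (ind Y 2 + ind Y p) =
        (∑ p ∈ (PR m).erase 2, ra p (ps m 2)) * ind Y 2 + ∑ p ∈ Y.erase 2, ra p (ps m 2) := by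
      rw [← sY, Finset.sum_mul, ← Finset.sum_add_distrib]
      exact Finset.sum_congr rfl fun p _ => by ring
    have hz1 := hz_sgn (m := m) hc hP'
    have hz2 := hz_sgn (m := m) hc hY'
    rw [hz_oz hc (prodS4 hP')] at hz1
    rw [hz_oz hc (prodS4 hY')] at hz2
    have e3 := h2 h
    rw [row_exp h] at e3
    have e4 : ∑ q ∈ (PR m).erase 2, ra 2 (ps m q) * (ind Y q + ind Y 2) =
        ∑ q ∈ Y.erase 2, ra 2 (ps m q) + (∑ q ∈ (PR m).erase 2, ra 2 (ps m q)) * ind Y 2 := by
      rw [← sY, Finset.sum_mul, ← Finset.sum_add_distrib]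
      exact Finset.sum_congr rfl fun p _ => by ring
    have g2 : ∀ T : Finset ℕ, (∀ p ∈ T, p.Prime ∧ p ≠ 2) →
        ∑ q ∈ T, ra 2 (ps m q) = oz (∏ q ∈ T, sgp q) := by
      intro T hT
      rw [← ra_two, ← ra_prod Nat.prime_two]
      · exact Finset.sum_congr rfl fun q hq => by rw [ps_odd (hT q hq).2]
      · intro q hq
        rw [gd_two]
        exact sgp_mod (hT q hq).1 (hT q hq).2
    rw [e4, g2 _ hY', g2 _ hP'] at e3
    have e5 : ∑ q ∈ PR m, al m q * ind Y q = al m 2 * ind Y 2 + ∑ p ∈ Y.erase 2, al m p := by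
      rw [← sY]
      exact (Finset.add_sum_erase (PR m) (fun q => al m q * ind Y q) h).symm
    rw [e5] at hal
    have e6 : (if ps m 2 < 0 then 1 else 0 : ZMod 2) = al m 2 := rfl
    rw [e2, hz1, hz2, e6, sY]
    generalize al m 2 = a at *
    generalize ind Y 2 = b at *
    generalize ∑ p ∈ Y.erase 2, al m p = c at *
    generalize ∑ p ∈ (PR m).erase 2, al m p = d at *
    generalize oz (∏ p ∈ Y.erase 2, sgp p) = e at *
    generalize oz (∏ p ∈ (PR m).erase 2, sgp p) = f at *
    clear * - e3 hal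
    by_cases hcc : ps m 2 = -1
    · rw [if_pos hcc, if_pos hcc]
      revert a b c d e f
      decide
    · rw [if_neg hcc, if_neg hcc]
      revert a b c d e f
      decide
  · rw [Finset.erase_eq_of_notMem h] at hps ⊢
    rw [Finset.sum_congr rfl fun p hp => row_exp hp (ind Y), hps, hal, mul_zero]

lemma prod_sign (T : Finset ℕ) (h0 : ∀ q ∈ T, ps m q ≠ 0) :
    (∑ q ∈ T, al m q = 0 ∧ 0 < ∏ q ∈ T, ps m q) ∨
      (∑ q ∈ T, al m q = 1 ∧ ∏ q ∈ T, ps m q < 0) := by
  classical
  induction T using Finset.induction_on with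
  | empty => left; simp
  | insert a s ha ih =>
    have h1 := h0 a (Finset.mem_insert_self _ _)
    rw [Finset.sum_insert ha, Finset.prod_insert ha]
    rcases ih fun q hq => h0 q (Finset.mem_insert_of_mem hq) with ⟨h2, h3⟩ | ⟨h2, h3⟩
    · rcases lt_or_gt_of_ne h1 with h4 | h4
      · right
        refine ⟨?_, mul_neg_of_neg_of_pos h4 h3⟩
        rw [h2, add_zero]
        exact if_pos h4
      · left
        refine ⟨?_, mul_pos h4 h3⟩
        rw [h2, add_zero]
        exact if_neg (by omega)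
    · rcases lt_or_gt_of_ne h1 with h4 | h4
      · left
        refine ⟨?_, mul_pos_of_neg_of_neg h4 h3⟩
        have : al m a = 1 := if_pos h4
        rw [h2, this]
        rfl
      · right
        refine ⟨?_, mul_neg_of_pos_of_neg h4 h3⟩
        have : al m a = 0 := if_neg (by omega)
        rw [h2, this, zero_add]

/-- **The odd primes dividing `m`.** -/
theorem p4_of_rows (hs : Squarefree m) (hX : X ⊆ PR m) (hY : Y ⊆ PR m) {p : ℕ}
    [hpf : Fact p.Prime] (hpP : p ∈ PR m) (hp2 : p ≠ 2) (h17 : 17 ∉ X)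
    (row : ra p 17 * ind X p + ∑ q ∈ PR m, Lm m p q * ind Y q = 0)
    (col : ∑ r ∈ PR m, Lm m r p * ind X r + al m p * ind Y p = 0) :
    P4 p m (∏ r ∈ X, ((r : ℕ) : ℤ)) (∏ q ∈ Y, ps m q) := by
  classical
  have hp := hpf.out
  have hm0 := hs.ne_zero
  have hpr : ∀ p ∈ PR m, p.Prime := fun p hp => ((mem_PR hm0).1 hp).1
  have gps : ∀ q ∈ PR m, q ≠ p → Gd p (ps m q) := fun q hq hpq =>
    gd_ps hs (hpr q hq) hp hpq
  set d1 : ℤ := ∏ r ∈ X, ((r : ℕ) : ℤ) with hd1
  set d2 : ℤ := ∏ q ∈ Y, ps m q with hd2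
  set e : ℤ := ∏ q ∈ PR m \ Y, ps m q with he
  have hme : m = d2 * e := by
    rw [he, hd2, mul_comm, Finset.prod_sdiff hY, prod_PR hs]
  have hd2' : (d2 : ℚ_[p]) ≠ 0 := by
    have : d2 ≠ 0 := by
      intro h
      rw [h, zero_mul] at hme
      exact hm0 hme
    exact_mod_cast this
  have gm1 : Gd p (-1) := by
    rw [gd_odd hp2, dvd_neg]
    intro h1
    have h2 : p ∣ 1 := by exact_mod_cast h1
    exact hp.one_lt.ne' (Nat.dvd_one.1 h2)
  have hpos := hp.pos
  have hp0 : (p : ℚ_[p]) ≠ 0 := by exact_mod_cast hp.ne_zero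
  have hrec : ∀ T : Finset ℕ, T ⊆ PR m →
      ∑ r ∈ T, ra r (ps m p) = ∑ r ∈ T, ra p ((r : ℕ) : ℤ) := by
    intro T hT
    refine Finset.sum_congr rfl fun r hr => ?_
    unfold ra
    rw [ps_odd hp2, recip_ch (hpr r (hT hr)) hp hp2, ch_odd hp2]
  -- the second coordinate, for the class of `17 ^ ind`
  have gY : p ∉ Y → Gd p d2 := fun hYp => gd_prod hp _ _ fun q hq =>
    gps q (hY hq) (fun h => hYp (h ▸ hq))
  have ge : p ∈ Y → Gd p e := fun hYp => gd_prod hp _ _ fun q hq => by
    obtain ⟨h1, h2⟩ := Finset.mem_sdiff.1 hq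
    exact gps q h1 (fun h => h2 (h ▸ hYp))
  have rY : p ∉ Y → ∑ q ∈ PR m, Lm m p q * ind Y q = ra p d2 := fun hYp => by
    rw [row_notMem hY hYp, ra_prod hp _ _ fun q hq => gps q (hY hq) (fun h => hYp (h ▸ hq))]
  have rYe : p ∈ Y → ∑ q ∈ PR m, Lm m p q * ind Y q = ra p e := fun hYp => by
    rw [row_mem hY hYp, ra_prod hp]
    intro q hq
    obtain ⟨h1, h2⟩ := Finset.mem_sdiff.1 hq
    exact gps q h1 (fun h => h2 (h ▸ hYp))
  by_cases hXp : p ∈ X
  · have hi : ind X p = 1 := if_pos hXp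
    have hp17 : p ≠ 17 := by
      rintro rfl
      exact h17 hXp
    have g17 : Gd p 17 := by
      rw [gd_odd hp2]
      have h17 : ¬ (p : ℤ) ∣ ((17 : ℕ) : ℤ) := not_dvd_of_prime (by norm_num) hp17
      exact_mod_cast h17
    rw [hi, mul_one] at row
    -- the first coordinate
    set A : ℤ := ∏ r ∈ (PR m).erase p, ps m r with hA
    set B : ℤ := ∏ r ∈ X.erase p, ((r : ℕ) : ℤ) with hB
    have g1 : ∀ r ∈ (PR m).erase p, Gd p (ps m r) := fun r hr =>
      gps r (Finset.mem_of_mem_erase hr) (Finset.ne_of_mem_erase hr)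
    have g2 : ∀ r ∈ X.erase p, Gd p ((r : ℕ) : ℤ) := fun r hr =>
      gd_nat (hpr r (hX (Finset.mem_of_mem_erase hr))) hp hp2 (Finset.ne_of_mem_erase hr)
    have gAB : Gd p (A * B) := gd_mul hp (gd_prod hp _ _ g1) (gd_prod hp _ _ g2)
    have e1 : ps m p * A = m := by
      rw [hA, Finset.mul_prod_erase _ _ hpP, prod_PR hs]
    have e2 : ((p : ℕ) : ℤ) * B = d1 := by
      rw [hB, Finset.mul_prod_erase _ _ hXp]
    rw [col_mem hX hXp, hrec _ ((Finset.erase_subset _ _).trans hX), ra_prod hp _ _ g1,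
      ra_prod hp _ _ g2, ← ra_mul hp (gd_prod hp _ _ g1) (gd_prod hp _ _ g2)] at col
    have key1 : p ∉ Y → IsSquare ((d1 : ℚ_[p]) * (-m)) := fun hYp => by
      have hiY : ind Y p = 0 := if_neg hYp
      rw [hiY, mul_zero, add_zero] at col
      have hAB := (ra_iff gAB).1 col
      by_cases h4 : p % 4 = 1
      · have hal : al m p = 0 := by
          unfold al
          rw [ps_odd hp2]
          unfold sgp
          rw [if_pos h4, if_neg (by omega)]
        have hm1 : IsSquare (((-1 : ℤ)) : ℚ_[p]) := by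
          rw [← ra_iff gm1, ra_neg_one (m := m) hp hp2, hal]
        have h3 := (hm1.mul hAB).mul (IsSquare.mul_self (p : ℚ_[p]))
        have e3 : (d1 : ℚ_[p]) * (-m) = ((-1 : ℤ) : ℚ_[p]) * ((A * B : ℤ) : ℚ_[p]) * (p * p) := by
          rw [← e1, ← e2, ps_odd hp2]
          unfold sgp
          rw [if_pos h4]
          push_cast
          ring
        rw [e3]
        exact h3
      · have h3 := hAB.mul (IsSquare.mul_self (p : ℚ_[p]))
        have e3 : (d1 : ℚ_[p]) * (-m) = ((A * B : ℤ) : ℚ_[p]) * (p * p) := by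
          rw [← e1, ← e2, ps_odd hp2]
          unfold sgp
          rw [if_neg h4]
          push_cast
          ring
        rw [e3]
        exact h3
    have key2 : p ∈ Y → IsSquare ((d1 : ℚ_[p]) * m) := fun hYp => by
      have hiY : ind Y p = 1 := if_pos hYp
      rw [hiY, mul_one] at col
      by_cases h4 : p % 4 = 1
      · have hal : al m p = 0 := by
          unfold al
          rw [ps_odd hp2]
          unfold sgp
          rw [if_pos h4, if_neg (by omega)]
        rw [hal, add_zero] at col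
        have h3 := ((ra_iff gAB).1 col).mul (IsSquare.mul_self (p : ℚ_[p]))
        have e3 : (d1 : ℚ_[p]) * m = ((A * B : ℤ) : ℚ_[p]) * (p * p) := by
          rw [← e1, ← e2, ps_odd hp2]
          unfold sgp
          rw [if_pos h4]
          push_cast
          ring
        rw [e3]
        exact h3
      · rw [← ra_neg_one (m := m) hp hp2, ← ra_mul hp gAB gm1] at col
        have h3 := ((ra_iff (gd_mul hp gAB gm1)).1 col).mul (IsSquare.mul_self (p : ℚ_[p]))
        have e3 : (d1 : ℚ_[p]) * m = ((A * B * -1 : ℤ) : ℚ_[p]) * (p * p) := by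
          rw [← e1, ← e2, ps_odd hp2]
          unfold sgp
          rw [if_neg h4]
          push_cast
          ring
        rw [e3]
        exact h3
    by_cases hYp : p ∈ Y
    · right; right; right
      refine ⟨key2 hYp, ?_⟩
      rw [rYe hYp, ← ra_mul hp g17 (ge hYp)] at row
      have h3 := (ra_iff (gd_mul hp g17 (ge hYp))).1 row
      have e3 : (d2 : ℚ_[p]) * (17 * m) = (d2 * d2) * ((17 * e : ℤ) : ℚ_[p]) := by
        rw [hme]; push_cast; ring
      rw [e3]
      exact (IsSquare.mul_self _).mul h3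
    · right; right; left
      refine ⟨key1 hYp, ?_⟩
      rw [rY hYp, ← ra_mul hp g17 (gY hYp)] at row
      have h3 := (ra_iff (gd_mul hp g17 (gY hYp))).1 row
      push_cast at h3
      rwa [mul_comm] at h3
  · have hi : ind X p = 0 := if_neg hXp
    rw [hi, mul_zero, zero_add] at row
    have g2 : ∀ r ∈ X, Gd p ((r : ℕ) : ℤ) := fun r hr =>
      gd_nat (hpr r (hX hr)) hp hp2 (fun h => hXp (h ▸ hr))
    have gd1 : Gd p d1 := gd_prod hp _ _ g2
    rw [col_notMem hX hXp, hrec _ hX, ra_prod hp _ _ g2, ← hd1] at col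
    by_cases hYp : p ∈ Y
    · right; left
      have hiY : ind Y p = 1 := if_pos hYp
      rw [hiY, mul_one, ← ra_neg_one (m := m) hp hp2, ← ra_mul hp gd1 gm1] at col
      rw [rYe hYp] at row
      constructor
      · have h3 := (ra_iff (gd_mul hp gd1 gm1)).1 col
        push_cast at h3
        rwa [mul_neg_one] at h3
      · have h3 := (ra_iff (ge hYp)).1 row
        have e3 : (d2 : ℚ_[p]) * m = (d2 * d2) * (e : ℚ_[p]) := by
          rw [hme]; push_cast; ring
        rw [e3]
        exact (IsSquare.mul_self _).mul h3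
    · left
      have hiY : ind Y p = 0 := if_neg hYp
      rw [hiY, mul_zero, add_zero] at col
      rw [rY hYp] at row
      exact ⟨(ra_iff gd1).1 col, (ra_iff (gY hYp)).1 row⟩

end

end Pool.Agent.N875.P17
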