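import Pool.Agent.N875.P17.Two
import Pool.Agent.N875.X15.RcNc

/-!
# The local conditions of the 2-descent for `y² = x (x + m) (x - 16 m)`
-/

set_option autoImplicit false

namespace Pool.Agent.N875.P17

open Pool.Agent.N875.X15
open Pool.Agent.TH841.SH (LocC SelG)
open Pool.Agent.Y667.RP (mod_of_sq)

/-- the local condition in terms of `u = x` -/
lemma locC_iff17 {K : Type} [Field K] [CharZero K] {m d1 d2 : ℤ}
    (h : LocC K 0 (-m) (16 * m) d1 d2) :
    ∃ u : K, u ≠ 0 ∧ u + m ≠ 0 ∧ u - 16 * m ≠ 0 ∧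
      IsSquare (u * (u + m) * (u - 16 * m)) ∧ IsSquare (u * d1) ∧
      IsSquare ((u + m) * d2) := by
  obtain ⟨x, y, hy, hxy, h1, h2⟩ := h
  push_cast at hxy h1 h2
  have e1 : x - 0 = x := sub_zero x
  have e2 : x - -(m : K) = x + m := by ring
  rw [e1, e2] at hxy
  rw [e1] at h1
  rw [e2] at h2
  have h0 : x * (x + m) * (x - 16 * m) ≠ 0 := by rw [← hxy]; exact pow_ne_zero 2 hy
  exact ⟨x, left_ne_zero_of_mul (left_ne_zero_of_mul h0), right_ne_zero_of_mul
    (left_ne_zero_of_mul h0), right_ne_zero_of_mul h0, ⟨y, by rw [← hxy, pow_two]⟩, h1, h2⟩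

/-- the four possibilities at a ramified odd prime -/
def P4 (p : ℕ) [Fact p.Prime] (m d1 d2 : ℤ) : Prop :=
  (IsSquare (d1 : ℚ_[p]) ∧ IsSquare (d2 : ℚ_[p])) ∨
  (IsSquare (-(d1 : ℚ_[p])) ∧ IsSquare ((d2 : ℚ_[p]) * m)) ∨
  (IsSquare ((d1 : ℚ_[p]) * (-m)) ∧ IsSquare ((d2 : ℚ_[p]) * 17)) ∨
  (IsSquare ((d1 : ℚ_[p]) * m) ∧ IsSquare ((d2 : ℚ_[p]) * (17 * m)))

section odd

variable {p : ℕ} [hp : Fact p.Prime]

/-- **The local condition at the odd primes dividing `m`.** -/
theorem loc_dvd17 (hp2 : p ≠ 2) {m d1 d2 : ℤ} (hm : Squarefree m) (hpm : (p : ℤ) ∣ m)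
    (h : LocC ℚ_[p] 0 (-m) (16 * m) d1 d2) : P4 p m d1 d2 := by
  obtain ⟨u, hu, hv, hw, hs, h1, h2⟩ := locC_iff17 h
  have hm0 : m ≠ 0 := hm.ne_zero
  have hm' : (m : ℚ_[p]) ≠ 0 := by exact_mod_cast hm0
  have vm := val_one hpm hm
  have n2 : ¬ (p : ℤ) ∣ (2 : ℤ) := not_dvd_of_prime Nat.prime_two hp2
  have hpr : Prime (p : ℤ) := Nat.prime_iff_prime_int.1 hp.out
  have v16 : (16 * (m : ℚ_[p])).valuation = 1 := by
    have := val_mul_unit (p := p) (n := m) 16 (fun h => n2 (by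
      have : (16 : ℤ) = 2 ^ 4 := by norm_num
      rw [this] at h
      exact hpr.dvd_of_dvd_pow h)) hm0
    push_cast at this
    rw [this, vm]
  have neg : ∀ x : ℚ_[p], (-x).valuation = x.valuation := by
    intro x
    by_cases hx : x = 0
    · rw [hx, neg_zero]
    exact (norm_eq_iff (neg_ne_zero.2 hx) hx).1 (norm_neg x)
  have E1 : u + (m : ℚ_[p]) - u = m := by ring
  have E2 : u - 16 * (m : ℚ_[p]) - u = -(16 * m) := by ring
  have E3 : u - 16 * (m : ℚ_[p]) - (u + m) = -(17 * m) := by ring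
  have E1' : u - (u + (m : ℚ_[p])) = -m := by ring
  have E2' : u - (u - 16 * (m : ℚ_[p])) = 16 * m := by ring
  have E3' : u + (m : ℚ_[p]) - (u - 16 * m) = 17 * m := by ring
  have n16 : (16 * (m : ℚ_[p])) ≠ 0 := mul_ne_zero (by norm_num) hm'
  have n17 : (17 * (m : ℚ_[p])) ≠ 0 := mul_ne_zero (by norm_num) hm'
  -- the four possibilities in terms of `u`, `v`, `w`
  have main : (IsSquare u ∧ IsSquare (u + (m : ℚ_[p]))) ∨
      (IsSquare ((u + (m : ℚ_[p])) * m) ∧ IsSquare ((u - 16 * m) * (-m))) ∨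
      (IsSquare (u * (-m)) ∧ IsSquare ((u - 16 * m) * (-(17 * (m : ℚ_[p]))))) ∨
      (IsSquare (u * m) ∧ IsSquare ((u + m) * (17 * (m : ℚ_[p])))) := by
    have q16 : (16 : ℚ_[p]) ≠ 0 := by norm_num
    have f2 : -(16 * (m : ℚ_[p])) = 16 * (-m) := by ring
    by_cases h5 : p = 17
    · have v17 : (17 * (m : ℚ_[p])).valuation = 2 := by
        have h5' : (17 : ℚ_[p]) = ((p : ℕ) : ℚ_[p]) := by
          have := congrArg (Nat.cast : ℕ → ℚ_[p]) h5
          rw [this]
          norm_num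
        rw [Padic.valuation_mul (by norm_num) hm', vm, h5', val_p]
        norm_num
      have hs' : IsSquare ((u + (m : ℚ_[p])) * (u - 16 * m) * u) := by
        have e : (u + (m : ℚ_[p])) * (u - 16 * m) * u = u * (u + m) * (u - 16 * m) := by
          ring
        rwa [e]
      have := loc_ram hp2 (u := u + (m : ℚ_[p])) (v := u - 16 * m) (w := u) hv hw hu hs'
        (by rw [E3]; exact neg_ne_zero.2 n17) (by rw [E1']; exact neg_ne_zero.2 hm')
        (by rw [E2']; exact n16) (l := 2) (k := 1) (by rw [E3, neg, v17])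
        (by rw [E1', neg, vm]) (by rw [E2', v16]) (by norm_num) (by decide)
      rw [E1', E2', E3, E3', E2, E1, f2] at this
      rcases this with ⟨a, b⟩ | ⟨a, b⟩ | ⟨a, b⟩ | ⟨a, b⟩
      · left
        refine ⟨?_, a⟩
        exact sq_cancel (mul_ne_zero hv hw) (a.mul b) hs'
      · right; right; left
        exact ⟨b, a⟩
      · right; right; right
        exact ⟨drop sq4 q16 b, a⟩
      · right; left
        exact ⟨a, drop sq4 q16 b⟩
    · have v17 : (17 * (m : ℚ_[p])).valuation = 1 := by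
        have := val_mul_unit (p := p) (n := m) 17 (fun h => by
          have e : (17 : ℤ) = ((17 : ℕ) : ℤ) := by norm_num
          rw [e] at h
          exact not_dvd_of_prime (by norm_num) h5 h) hm0
        push_cast at this
        rw [this, vm]
      have := loc_ram hp2 (u := u) (v := u + (m : ℚ_[p])) (w := u - 16 * m) hu hv hw hs
        (by rw [E1]; exact hm') (by rw [E2]; exact neg_ne_zero.2 n16)
        (by rw [E3]; exact neg_ne_zero.2 n17) (l := 1) (k := 1) (by rw [E1, vm])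
        (by rw [E2, neg, v16]) (by rw [E3, neg, v17]) le_rfl (by decide)
      rw [E1', E2', E3, E3', E2, E1, f2] at this
      rcases this with ⟨a, b⟩ | ⟨a, b⟩ | ⟨a, b⟩ | ⟨a, b⟩
      · left
        exact ⟨a, b⟩
      · right; left
        exact ⟨a, drop sq4 q16 b⟩
      · right; right; left
        exact ⟨a, b⟩
      · right; right; right
        exact ⟨drop sq4 q16 a, b⟩
  have hone : ∀ {x : ℚ_[p]}, IsSquare x → IsSquare (x * 1) := fun h => by rwa [mul_one]
  unfold P4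
  rcases main with ⟨a, b⟩ | ⟨a, b⟩ | ⟨a, b⟩ | ⟨a, b⟩
  · left
    have c1 := to_coord hu (hone a) h1
    have c2 := to_coord hv (hone b) h2
    rw [mul_one] at c1 c2
    exact ⟨c1, c2⟩
  · right; left
    refine ⟨?_, to_coord hv a h2⟩
    have c : IsSquare (u * (-1)) := by
      have c1 := hs.mul (a.mul b)
      have e : u * (u + ↑m) * (u - 16 * ↑m) * ((u + ↑m) * ↑m * ((u - 16 * ↑m) * -↑m)) =
        (((u + (m : ℚ_[p])) * (u - 16 * m) * m) * ((u + (m : ℚ_[p])) * (u - 16 * m) * m)) *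
          (u * (-1)) := by ring
      rw [e] at c1
      have h0 : (u + (m : ℚ_[p])) * (u - 16 * m) * m ≠ 0 := mul_ne_zero (mul_ne_zero hv hw) hm'
      exact sq_cancel (mul_ne_zero h0 h0) (IsSquare.mul_self _) c1
    have := to_coord hu c h1
    rwa [mul_neg, mul_one] at this
  · right; right; left
    refine ⟨to_coord hu a h1, ?_⟩
    have c : IsSquare ((u + (m : ℚ_[p])) * 17) := by
      have c1 := hs.mul (a.mul b)
      have e : u * (u + ↑m) * (u - 16 * ↑m) * (u * (-m) * ((u - 16 * ↑m) * -(17 * (m : ℚ_[p])))) =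
        ((u * (u - 16 * m) * m) * (u * (u - 16 * m) * m)) *
          ((u + (m : ℚ_[p])) * 17) := by ring
      rw [e] at c1
      have h0 : u * (u - 16 * (m : ℚ_[p])) * m ≠ 0 := mul_ne_zero (mul_ne_zero hu hw) hm'
      exact sq_cancel (mul_ne_zero h0 h0) (IsSquare.mul_self _) c1
    exact to_coord hv c h2
  · right; right; right
    exact ⟨to_coord hu a h1, to_coord hv b h2⟩

/-- **The local condition at the good odd primes.** -/
theorem loc_ndvd17 (hp2 : p ≠ 2) (hp17 : p ≠ 17) {m d1 d2 : ℤ} (hm0 : m ≠ 0)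
    (hpm : ¬ (p : ℤ) ∣ m) (hd1 : Squarefree d1) (hd2 : Squarefree d2)
    (h : LocC ℚ_[p] 0 (-m) (16 * m) d1 d2) : ¬ (p : ℤ) ∣ d1 ∧ ¬ (p : ℤ) ∣ d2 := by
  obtain ⟨u, hu, hv, hw, hs, h1, h2⟩ := locC_iff17 h
  have hm' : (m : ℚ_[p]) ≠ 0 := by exact_mod_cast hm0
  have vm := val_zero hpm
  have n2 : ¬ (p : ℤ) ∣ (2 : ℤ) := not_dvd_of_prime Nat.prime_two hp2
  have hpr : Prime (p : ℤ) := Nat.prime_iff_prime_int.1 hp.out
  have v16 : (16 * (m : ℚ_[p])).valuation = 0 := by
    have := val_mul_unit (p := p) (n := m) 16 (fun h => n2 (by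
      have : (16 : ℤ) = 2 ^ 4 := by norm_num
      rw [this] at h
      exact hpr.dvd_of_dvd_pow h)) hm0
    push_cast at this
    rw [this, vm]
  have neg : ∀ x : ℚ_[p], (-x).valuation = x.valuation := by
    intro x
    by_cases hx : x = 0
    · rw [hx, neg_zero]
    exact (norm_eq_iff (neg_ne_zero.2 hx) hx).1 (norm_neg x)
  have E1 : u + (m : ℚ_[p]) - u = m := by ring
  have E2 : u - 16 * (m : ℚ_[p]) - u = -(16 * m) := by ring
  have E3 : u - 16 * (m : ℚ_[p]) - (u + m) = -(17 * m) := by ring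
  have n16 : (16 * (m : ℚ_[p])) ≠ 0 := mul_ne_zero (by norm_num) hm'
  have n17 : (17 * (m : ℚ_[p])) ≠ 0 := mul_ne_zero (by norm_num) hm'
  have v17 : (17 * (m : ℚ_[p])).valuation = 0 := by
    have := val_mul_unit (p := p) (n := m) 17 (fun h => by
      have e : (17 : ℤ) = ((17 : ℕ) : ℤ) := by norm_num
      rw [e] at h
      exact not_dvd_of_prime (by norm_num) hp17 h) hm0
    push_cast at this
    rw [this, vm]
  have := loc_unr hp2 (u := u) (v := u + (m : ℚ_[p])) (w := u - 16 * m) hu hv hw hs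
    (by rw [E1]; exact hm') (by rw [E2]; exact neg_ne_zero.2 n16)
    (by rw [E3]; exact neg_ne_zero.2 n17) (l := 0) (k := 0) (by rw [E1, vm])
    (by rw [E2, neg, v16]) (by rw [E3, neg, v17]) (by norm_num) (by decide) (by decide)
    (fun h => absurd h (by norm_num))
  exact ⟨not_dvd_of_even hu this.1 hd1 h1, not_dvd_of_even hv this.2.1 hd2 h2⟩

/-- **The first coordinate at `17`.** -/
theorem loc_17 (h17 : p = 17) {m d1 d2 : ℤ} (hm0 : m ≠ 0)
    (hpm : ¬ (p : ℤ) ∣ m) (hd1 : Squarefree d1)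
    (h : LocC ℚ_[p] 0 (-m) (16 * m) d1 d2) : ¬ (p : ℤ) ∣ d1 := by
  obtain ⟨u, hu, hv, hw, hs, h1, h2⟩ := locC_iff17 h
  have hm' : (m : ℚ_[p]) ≠ 0 := by exact_mod_cast hm0
  have vm := val_zero hpm
  have hp2 : p ≠ 2 := by omega
  have n2 : ¬ (p : ℤ) ∣ (2 : ℤ) := not_dvd_of_prime Nat.prime_two hp2
  have hpr : Prime (p : ℤ) := Nat.prime_iff_prime_int.1 hp.out
  have v16 : (16 * (m : ℚ_[p])).valuation = 0 := by
    have := val_mul_unit (p := p) (n := m) 16 (fun h => n2 (by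
      have : (16 : ℤ) = 2 ^ 4 := by norm_num
      rw [this] at h
      exact hpr.dvd_of_dvd_pow h)) hm0
    push_cast at this
    rw [this, vm]
  have neg : ∀ x : ℚ_[p], (-x).valuation = x.valuation := by
    intro x
    by_cases hx : x = 0
    · rw [hx, neg_zero]
    exact (norm_eq_iff (neg_ne_zero.2 hx) hx).1 (norm_neg x)
  have n16 : (16 * (m : ℚ_[p])) ≠ 0 := mul_ne_zero (by norm_num) hm'
  refine not_dvd_of_even hu ?_ hd1 h1
  have hsum : Even (u.valuation + (u + m).valuation + (u - 16 * m).valuation) := by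
    have := even_val (mul_ne_zero (mul_ne_zero hu hv) hw) hs
    rwa [Padic.valuation_mul (mul_ne_zero hu hv) hw, Padic.valuation_mul hu hv] at this
  obtain ⟨r, hr⟩ := hsum
  rcases lt_trichotomy u.valuation 0 with c | c | c
  · have e1 := val_add_eq hu hm' hv (by rw [vm]; exact c)
    have e2 := val_add_eq hu (neg_ne_zero.2 n16) (by rwa [← sub_eq_add_neg]) (by
      rw [neg, v16]; exact c)
    rw [← sub_eq_add_neg] at e2
    exact ⟨r - u.valuation, by omega⟩
  · rw [c]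
    exact Even.zero
  · have e1 := val_add_eq hm' hu (by rwa [add_comm]) (by rw [vm]; exact c)
    have e2 := val_add_eq (neg_ne_zero.2 n16) hu (by rwa [add_comm, ← sub_eq_add_neg]) (by
      rw [neg, v16]; exact c)
    rw [add_comm, vm] at e1
    rw [add_comm, ← sub_eq_add_neg, neg, v16] at e2
    exact ⟨r, by omega⟩

end odd

/-- the signs -/
lemma loc_sign17 {m d1 d2 : ℤ} (hm : m ≠ 0) (hd1 : d1 ≠ 0) (hd2 : d2 ≠ 0)
    (h : LocC ℝ 0 (-m) (16 * m) d1 d2) : (0 < m ∧ 0 < d2) ∨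
      (m < 0 ∧ ((0 < d1 ∧ 0 < d2) ∨ (d1 < 0 ∧ d2 < 0))) := by
  obtain ⟨u, hu, hv, hw, hs, h1, h2⟩ := locC_iff17 h
  have k1 : 0 ≤ u * d1 := by
    obtain ⟨r, hr⟩ := h1
    rw [hr]
    exact mul_self_nonneg r
  have k2 : 0 ≤ (u + m) * d2 := by
    obtain ⟨r, hr⟩ := h2
    rw [hr]
    exact mul_self_nonneg r
  have k3 : 0 < u * (u + m) * (u - 16 * m) := by
    obtain ⟨r, hr⟩ := hs
    refine lt_of_le_of_ne ?_ (mul_ne_zero (mul_ne_zero hu hv) hw).symm
    rw [hr]
    exact mul_self_nonneg r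
  have pos_of : ∀ {a : ℝ} {d : ℤ}, d ≠ 0 → 0 < a → 0 ≤ a * d → 0 < d := by
    intro a d hd ha h0
    by_contra hcon
    have h3 : (d : ℝ) < 0 := by
      have : d < 0 := by omega
      exact_mod_cast this
    nlinarith
  have neg_of : ∀ {a : ℝ} {d : ℤ}, d ≠ 0 → a < 0 → 0 ≤ a * d → d < 0 := by
    intro a d hd ha h0
    by_contra hcon
    have h3 : (0 : ℝ) < d := by
      have : 0 < d := by omega
      exact_mod_cast this
    nlinarith
  rcases lt_or_gt_of_ne hm with hm | hm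
  · right
    refine ⟨hm, ?_⟩
    have hm' : (m : ℝ) < 0 := by exact_mod_cast hm
    rcases lt_or_gt_of_ne hu with c | c
    · right
      have c2 : u + m < 0 := by linarith
      exact ⟨neg_of hd1 c k1, neg_of hd2 c2 k2⟩
    · left
      have c2 : 0 < u - 16 * m := by linarith
      have c3 : 0 < u + m := by
        by_contra hcon
        push Not at hcon
        have : u * (u + m) * (u - 16 * m) ≤ 0 :=
          mul_nonpos_of_nonpos_of_nonneg (mul_nonpos_of_nonneg_of_nonpos c.le hcon) c2.le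
        linarith
      exact ⟨pos_of hd1 c k1, pos_of hd2 c3 k2⟩
  · left
    refine ⟨hm, ?_⟩
    have hm' : (0 : ℝ) < m := by exact_mod_cast hm
    have c3 : 0 < u + m := by
      by_contra hcon
      push Not at hcon
      have c4 : u < 0 := by linarith
      have c5 : u - 16 * m < 0 := by linarith
      have : 0 ≤ u * (u + m) := mul_nonneg_of_nonpos_of_nonpos c4.le hcon
      have : u * (u + m) * (u - 16 * m) ≤ 0 := mul_nonpos_of_nonneg_of_nonpos this c5.le
      linarith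
    exact pos_of hd2 c3 k2

/-- the second coordinate at `2` -/
lemma loc_two17 {m d1 d2 : ℤ} (hm : Squarefree m) (hd2 : Squarefree d2)
    (h : LocC ℚ_[2] 0 (-m) (16 * m) d1 d2) :
    (IsSquare (d2 : ℚ_[2]) ∨ IsSquare ((d2 : ℚ_[2]) * m)) ∨ (m % 8 = 1 ∧ d2 % 4 = 1) := by
  obtain ⟨u, hu, hv, hw, hs, h1, h2⟩ := locC_iff17 h
  have hm0 : m ≠ 0 := hm.ne_zero
  rcases two_v17 hm0 hu hv hw hs with h3 | h3 | ⟨h3, h4⟩
  · left; left
    exact sq_cancel hv h3 h2
  · left; right
    exact to_coord hv h3 h2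
  · right
    have h5 := odd_of_sq hm h4
    refine ⟨h5, ?_⟩
    have h6 : IsSquare ((d2 : ℚ_[2]) * (5 * m)) := to_coord hv h3 h2
    have h7 : IsSquare ((m : ℚ_[2]) * (5 * d2)) := by
      have e : (m : ℚ_[2]) * (5 * d2) = (d2 : ℚ_[2]) * (5 * m) := by ring
      rwa [e]
    have hm' : (m : ℚ_[2]) ≠ 0 := by exact_mod_cast hm0
    have h8 : IsSquare (((5 * d2 : ℤ)) : ℚ_[2]) := by
      push_cast
      exact sq_cancel hm' h4 h7
    have h9 : ¬ ((2 : ℕ) : ℤ) ∣ d2 := by
      have h10 : IsSquare ((5 : ℚ_[2]) * d2) := by exact_mod_cast h8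
      refine not_dvd_of_even (by norm_num) ?_ hd2 h10
      have : ((5 : ℤ) : ℚ_[2]).valuation = 0 := val_zero (by norm_num)
      have h5' : (5 : ℚ_[2]).valuation = 0 := by exact_mod_cast this
      rw [h5']
      exact Even.zero
    have h11 := mod_of_sq (d := 5 * d2) (by push_cast at h9; omega) h8
    omega

lemma loc_two_odd17 {m d1 d2 : ℤ} (hm : Squarefree m) (hm4 : m % 4 = 1) (hd1 : Squarefree d1)
    (hd2 : Squarefree d2)
    (h : LocC ℚ_[2] 0 (-m) (16 * m) d1 d2) : ¬ (2 : ℤ) ∣ d1 ∧ d2 % 4 = 1 := by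
  constructor
  · obtain ⟨u, hu, hv, hw, hs, h1, h2⟩ := locC_iff17 h
    exact_mod_cast not_dvd_of_even hu (two_u17 hm4 hu hv hw hs) hd1 h1
  · rcases loc_two17 hm hd2 h with (h1 | h1) | h1
    · have := odd_of_sq hd2 h1
      omega
    · have hmm : ¬ (2 : ℤ) ∣ m := by omega
      have h9 : ¬ ((2 : ℕ) : ℤ) ∣ d2 := by
        have h10 : IsSquare ((m : ℚ_[2]) * d2) := by rwa [mul_comm]
        have hm' : (m : ℚ_[2]) ≠ 0 := by exact_mod_cast hm.ne_zero
        refine not_dvd_of_even hm' ?_ hd2 h10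
        rw [val_zero (by exact_mod_cast hmm)]
        exact Even.zero
      have h11 := mod_of_sq (d := d2 * m) (by
        intro h12
        rcases Int.prime_two.dvd_or_dvd h12 with h13 | h13
        · exact h9 (by exact_mod_cast h13)
        · exact hmm h13) (by push_cast; exact h1)
      have h14 : d2 % 4 * (m % 4) % 4 = 1 := by
        rw [← Int.mul_emod]
        omega
      rw [hm4] at h14
      omega
    · exact h1.2

end Pool.Agent.N875.P17
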