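import Pool.Agent.N875.P17.Lo1

/-!
# The converse of the local conditions: the odd primes which do not divide `m`
-/

set_option autoImplicit false

open Finset

namespace Pool.Agent.N875.P17

open Pool.Agent.N875.X15
open Pool.Agent.TH841.SH (LocC SelG)

section

variable {p : ℕ} [hp : Fact p.Prime]

lemma rc_ne (hp2 : p ≠ 2) : ringChar (ZMod p) ≠ 2 := by
  rw [ZMod.ringChar_zmod_n]
  exact hp2

lemma sum_sh (hp2 : p ≠ 2) {a : ZMod p} (ha : a ≠ 0) :
    ∑ t : ZMod p, quadraticChar (ZMod p) t * quadraticChar (ZMod p) (t + a) = -1 := by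
  have h0 : ∑ u : ZMod p, quadraticChar (ZMod p) u = 0 := quadraticChar_sum_zero (rc_ne hp2)
  have h1 : ∑ u ∈ univ.erase (1 : ZMod p), quadraticChar (ZMod p) u = -1 := by
    have := Finset.add_sum_erase univ (fun u : ZMod p => quadraticChar (ZMod p) u)
      (mem_univ (1 : ZMod p))
    rw [h0] at this
    simp only [map_one] at this
    linarith
  have h2 : ∑ t : ZMod p, quadraticChar (ZMod p) t * quadraticChar (ZMod p) (t + a)
      = ∑ t ∈ univ.erase (0 : ZMod p), quadraticChar (ZMod p) t * quadraticChar (ZMod p) (t + a) := by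
    rw [← Finset.add_sum_erase univ _ (mem_univ (0 : ZMod p))]
    simp
  rw [h2, ← h1]
  refine Finset.sum_bij (fun t _ => 1 + a / t) ?_ ?_ ?_ ?_
  · intro t ht
    rw [Finset.mem_erase] at ht ⊢
    refine ⟨?_, mem_univ _⟩
    intro h
    have : a / t = 0 := by linear_combination h
    rcases div_eq_zero_iff.1 this with h | h
    · exact ha h
    · exact ht.1 h
  · intro t ht t' ht' h
    rw [Finset.mem_erase] at ht ht'
    have h3 : a / t = a / t' := by linear_combination h
    rw [div_eq_div_iff ht.1 ht'.1] at h3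
    exact (mul_left_cancel₀ ha h3).symm
  · intro u hu
    rw [Finset.mem_erase] at hu
    have hu1 : u - 1 ≠ 0 := sub_ne_zero.2 hu.1
    refine ⟨a / (u - 1), ?_, ?_⟩
    · rw [Finset.mem_erase]
      exact ⟨div_ne_zero ha hu1, mem_univ _⟩
    · field_simp
      ring
  · intro t ht
    rw [Finset.mem_erase] at ht
    have : t * (t + a) = t ^ 2 * (1 + a / t) := by
      have := ht.1
      field_simp
    rw [← map_mul, this, map_mul, quadraticChar_sq_one' ht.1, one_mul]

lemma sum_tr (hp2 : p ≠ 2) (c : ZMod p) : ∑ t : ZMod p, quadraticChar (ZMod p) (t + c) = 0 := by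
  rw [← quadraticChar_sum_zero (F := ZMod p) (rc_ne hp2),
    ← Equiv.sum_comp (Equiv.addRight c) (fun t => quadraticChar (ZMod p) t)]
  rfl

lemma sum_sh2 (hp2 : p ≠ 2) {a b : ZMod p} (hab : a ≠ b) :
    ∑ t : ZMod p, quadraticChar (ZMod p) (t + a) * quadraticChar (ZMod p) (t + b) = -1 := by
  rw [← sum_sh hp2 (sub_ne_zero.2 hab.symm),
    ← Equiv.sum_comp (Equiv.addRight a) (fun t => quadraticChar (ZMod p) t *
      quadraticChar (ZMod p) (t + (b - a)))]
  refine Finset.sum_congr rfl fun t _ => ?_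
  have e : t + b = t + a + (b - a) := by ring
  rw [e]
  rfl

/-- **Square classes over the field with `p` elements.** -/
theorem exists_class (hp2 : p ≠ 2) {a b : ZMod p} (ha : a ≠ 0) (hb : b ≠ 0) (hab : a ≠ b)
    {e1 e2 : ℤ} (h1 : e1 = 1 ∨ e1 = -1) (h2 : e2 = 1 ∨ e2 = -1) (hne : ¬ (e1 = 1 ∧ e2 = 1)) :
    ∃ x : ZMod p, (1 + e1 * quadraticChar (ZMod p) x) *
      (1 + e2 * quadraticChar (ZMod p) (x + a)) *
      (1 + e1 * e2 * quadraticChar (ZMod p) (x + b)) ≠ 0 := by
  by_contra hcon
  push Not at hcon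
  set χ := quadraticChar (ZMod p)
  have s0 : ∑ x : ZMod p, (1 + e1 * χ x) * (1 + e2 * χ (x + a)) * (1 + e1 * e2 * χ (x + b)) = 0 :=
    Finset.sum_eq_zero fun x _ => hcon x
  have q1 : e1 * e1 = 1 := by rcases h1 with rfl | rfl <;> norm_num
  have q2 : e2 * e2 = 1 := by rcases h2 with rfl | rfl <;> norm_num
  have hexp : ∀ x : ZMod p, (1 + e1 * χ x) * (1 + e2 * χ (x + a)) * (1 + e1 * e2 * χ (x + b)) =
      (1 + χ x * χ (x + a) * χ (x + b)) + (e1 * χ x + e2 * χ (x + a) + e1 * e2 * χ (x + b) +
        e1 * e2 * (χ x * χ (x + a)) + e2 * (χ x * χ (x + b)) +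
        e1 * (χ (x + a) * χ (x + b))) := by
    intro x
    linear_combination (e2 * χ x * χ (x + b) + e2 * e2 * χ x * χ (x + a) * χ (x + b)) * q1 +
      (e1 * χ (x + a) * χ (x + b) + χ x * χ (x + a) * χ (x + b)) * q2
  have t1 : ∑ x : ZMod p, χ x = 0 := quadraticChar_sum_zero (rc_ne hp2)
  have t2 := sum_tr hp2 a
  have t3 := sum_tr hp2 b
  have t4 := sum_sh hp2 ha
  have t5 := sum_sh hp2 hb
  have t6 := sum_sh2 hp2 hab
  have hpos : 0 ≤ ∑ x : ZMod p, (1 + χ x * χ (x + a) * χ (x + b)) := by
    refine Finset.sum_nonneg fun x _ => ?_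
    have h3 : ∀ y : ZMod p, χ y = 0 ∨ χ y = 1 ∨ χ y = -1 := fun y =>
      quadraticChar_isQuadratic (ZMod p) y
    rcases h3 x with k1 | k1 | k1 <;> rcases h3 (x + a) with k2 | k2 | k2 <;>
      rcases h3 (x + b) with k3 | k3 | k3 <;> rw [k1, k2, k3] <;> norm_num
  have s1 : ∑ x : ZMod p, (1 + e1 * χ x) * (1 + e2 * χ (x + a)) * (1 + e1 * e2 * χ (x + b)) =
      ∑ x : ZMod p, (1 + χ x * χ (x + a) * χ (x + b)) + (e1 * ∑ x : ZMod p, χ x +
        e2 * ∑ x : ZMod p, χ (x + a) + e1 * e2 * ∑ x : ZMod p, χ (x + b) +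
        e1 * e2 * ∑ x : ZMod p, χ x * χ (x + a) + e2 * ∑ x : ZMod p, χ x * χ (x + b) +
        e1 * ∑ x : ZMod p, χ (x + a) * χ (x + b)) := by
    simp only [Finset.mul_sum, ← Finset.sum_add_distrib]
    exact Finset.sum_congr rfl fun x _ => hexp x
  rw [s1, t1, t2, t3, t4, t5, t6] at s0
  rcases h1 with rfl | rfl <;> rcases h2 with rfl | rfl
  · exact hne ⟨rfl, rfl⟩
  all_goals
    norm_num at s0
    linarith

lemma sqp (hp2 : p ≠ 2) {n : ℤ} (hn : ¬ (p : ℤ) ∣ n)
    (h : quadraticChar (ZMod p) (n : ZMod p) = 1) : IsSquare (n : ℚ_[p]) := by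
  have hn' : (n : ZMod p) ≠ 0 := fun h0 => hn ((ZMod.intCast_zmod_eq_zero_iff_dvd n p).1 h0)
  exact sq_of_zmod hp2 hn ((quadraticChar_one_iff_isSquare hn').1 h)

/-- **The good primes.** -/
theorem locC_good (hp2 : p ≠ 2) (hp17 : p ≠ 17) {m d1 d2 : ℤ} (hpm : ¬ (p : ℤ) ∣ m)
    (h1 : ¬ (p : ℤ) ∣ d1) (h2 : ¬ (p : ℤ) ∣ d2) : LocC ℚ_[p] 0 (-m) (16 * m) d1 d2 := by
  have hpr : Prime (p : ℤ) := Nat.prime_iff_prime_int.1 hp.out
  have hz : ∀ n : ℤ, ¬ (p : ℤ) ∣ n → ((n : ℤ) : ZMod p) ≠ 0 := fun n hn h =>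
    hn ((ZMod.intCast_zmod_eq_zero_iff_dvd n p).1 h)
  have hzd : ∀ n : ℤ, ((n : ℤ) : ZMod p) ≠ 0 → ¬ (p : ℤ) ∣ n := fun n hn h =>
    hn ((ZMod.intCast_zmod_eq_zero_iff_dvd n p).2 h)
  have hmul : ∀ x y : ℤ, ¬ (p : ℤ) ∣ x → ¬ (p : ℤ) ∣ y → ¬ (p : ℤ) ∣ x * y := fun x y hx hy h => by
    rcases hpr.dvd_or_dvd h with h3 | h3
    · exact hx h3
    · exact hy h3
  have hm0 : m ≠ 0 := by
    rintro rfl
    exact hpm (dvd_zero _)
  have n2 : ¬ (p : ℤ) ∣ 2 := not_dvd_of_prime Nat.prime_two hp2
  have n17 : ¬ (p : ℤ) ∣ 17 := by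
    have := not_dvd_of_prime (p := p) (by norm_num : Nat.Prime 17) hp17
    exact_mod_cast this
  have n4 : ¬ (p : ℤ) ∣ 4 := by
    have := hmul 2 2 n2 n2
    norm_num at this
    exact this
  have n16 : ¬ (p : ℤ) ∣ 16 := by
    have := hmul 4 4 n4 n4
    norm_num at this
    exact this
  have n1 : ¬ (p : ℤ) ∣ -1 := by
    rw [dvd_neg]
    intro h
    have h3 : p ∣ 1 := by exact_mod_cast h
    exact hp.out.one_lt.ne' (Nat.dvd_one.1 h3)
  set χ := quadraticChar (ZMod p) with hχ
  have dich : ∀ n : ℤ, ¬ (p : ℤ) ∣ n → χ (n : ZMod p) = 1 ∨ χ (n : ZMod p) = -1 := fun n hn =>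
    quadraticChar_dichotomy (hz n hn)
  have self : ∀ n : ℤ, ¬ (p : ℤ) ∣ n → χ (n : ZMod p) * χ (n : ZMod p) = 1 := by
    intro n hn
    rcases dich n hn with h | h <;> rw [h] <;> norm_num
  by_cases hne : χ (d1 : ZMod p) = 1 ∧ χ (d2 : ZMod p) = 1
  · exact locC_P4 hm0 (Or.inl ⟨sqp hp2 h1 hne.1, sqp hp2 h2 hne.2⟩)
  · obtain ⟨x, hx⟩ := exists_class hp2 (a := (m : ZMod p)) (b := ((-(16 * m) : ℤ) : ZMod p))
      (hz m hpm) (hz _ (by rw [dvd_neg]; exact hmul _ _ n16 hpm)) (by
        intro h
        apply hmul 17 m n17 hpm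
        rw [← ZMod.intCast_zmod_eq_zero_iff_dvd]
        push_cast at h ⊢
        linear_combination h) (dich d1 h1) (dich d2 h2) hne
    have f1 := left_ne_zero_of_mul (left_ne_zero_of_mul hx)
    have f2 := right_ne_zero_of_mul (left_ne_zero_of_mul hx)
    have f3 := right_ne_zero_of_mul hx
    -- the factors which do not vanish
    have conv : ∀ (e : ℤ) (y : ZMod p), (e = 1 ∨ e = -1) → y ≠ 0 → 1 + e * χ y ≠ 0 → χ y = e := by
      intro e y he hy h
      rcases quadraticChar_dichotomy hy with k | k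
      · rcases he with rfl | rfl
        · exact k
        · exfalso
          apply h
          rw [k]
          norm_num
      · rcases he with rfl | rfl
        · exfalso
          apply h
          rw [k]
          norm_num
        · exact k
    have he1 := dich d1 h1
    have he2 := dich d2 h2
    have he12 : χ (d1 : ZMod p) * χ (d2 : ZMod p) = 1 ∨ χ (d1 : ZMod p) * χ (d2 : ZMod p) = -1 := by
      rcases he1 with k | k <;> rcases he2 with k' | k' <;> rw [k, k'] <;> norm_num
    have sq16 : χ ((16 : ℤ) : ZMod p) = 1 := by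
      have e : ((16 : ℤ) : ZMod p) = ((4 : ℤ) : ZMod p) ^ 2 := by push_cast; norm_num
      rw [e, hχ]
      exact quadraticChar_sq_one' (hz 4 n4)
    by_cases x0 : x = 0
    · rw [x0, zero_add] at f2 f3
      have k2 := conv _ _ he2 (hz m hpm) f2
      have k3 := conv _ _ he12 (hz _ (by rw [dvd_neg]; exact hmul _ _ n16 hpm)) f3
      refine locC_P4 hm0 (Or.inr (Or.inl ⟨?_, ?_⟩))
      · have := sqp hp2 (n := d1 * -1) (hmul _ _ h1 n1) (by
          push_cast
          rw [map_mul]
          have e : ((-(16 * m) : ℤ) : ZMod p) = ((-1 : ℤ) : ZMod p) * ((16 : ℤ) : ZMod p) *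
            (m : ZMod p) := by push_cast; ring
          rw [e, map_mul, map_mul, sq16, mul_one, k2] at k3
          push_cast at k3
          have h3 := self d1 h1
          have h4 := self d2 h2
          have h5 : χ (-1 : ZMod p) = χ (d1 : ZMod p) := by
            linear_combination χ (d2 : ZMod p) * k3 - χ (-1) * h4 + χ (d1 : ZMod p) * h4
          rw [h5]
          exact h3)
        push_cast at this
        rwa [mul_neg_one] at this
      · have := sqp hp2 (n := d2 * m) (hmul _ _ h2 hpm) (by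
          push_cast
          rw [map_mul, ← hχ, k2]
          exact self d2 h2)
        push_cast at this
        exact this
    · by_cases x1 : x + (m : ZMod p) = 0
      · have hxm : x = -(m : ZMod p) := by linear_combination x1
        have k1 := conv _ _ he1 x0 f1
        have hb : x + ((-(16 * m) : ℤ) : ZMod p) = ((-1 : ℤ) : ZMod p) * ((17 : ℤ) : ZMod p) *
            (m : ZMod p) := by
          rw [hxm]; push_cast; ring
        have hb' : x + ((-(16 * m) : ℤ) : ZMod p) = ((-1 * 17 * m : ℤ) : ZMod p) := by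
          rw [hb]; push_cast; ring
        have k3 := conv _ _ he12 (by
          rw [hb']
          exact hz _ (hmul _ _ (hmul _ _ n1 n17) hpm)) f3
        have k1' : χ (((-1 : ℤ) : ZMod p) * (m : ZMod p)) = χ (d1 : ZMod p) := by
          rw [← k1, hxm]
          congr 1
          push_cast
          ring
        refine locC_P4 hm0 (Or.inr (Or.inr (Or.inl ⟨?_, ?_⟩)))
        · have := sqp hp2 (n := d1 * (-1 * m)) (hmul _ _ h1 (hmul _ _ n1 hpm)) (by
            have e : ((d1 * (-1 * m) : ℤ) : ZMod p) = (d1 : ZMod p) * (((-1 : ℤ) : ZMod p) *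
              (m : ZMod p)) := by push_cast; ring
            rw [e, map_mul, ← hχ, k1']
            exact self d1 h1)
          push_cast at this
          rwa [neg_one_mul] at this
        · have := sqp hp2 (n := d2 * 17) (hmul _ _ h2 n17) (by
            have e : ((d2 * 17 : ℤ) : ZMod p) = (d2 : ZMod p) * ((17 : ℤ) : ZMod p) := by
              push_cast; ring
            rw [e, map_mul, ← hχ]
            rw [hb] at k3
            have e' : ((-1 : ℤ) : ZMod p) * ((17 : ℤ) : ZMod p) * (m : ZMod p) =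
              ((17 : ℤ) : ZMod p) * (((-1 : ℤ) : ZMod p) * (m : ZMod p)) := by ring
            rw [e', map_mul, k1'] at k3
            have h3 := self d1 h1
            have h4 := self d2 h2
            have h5 : χ ((17 : ℤ) : ZMod p) = χ (d2 : ZMod p) := by
              linear_combination χ (d1 : ZMod p) * k3 - χ ((17 : ℤ) : ZMod p) * h3 +
                χ (d2 : ZMod p) * h3
            rw [h5]
            exact h4)
          push_cast at this
          exact this
      · by_cases x2 : x + ((-(16 * m) : ℤ) : ZMod p) = 0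
        · have hxm : x = ((16 : ℤ) : ZMod p) * (m : ZMod p) := by
            push_cast at x2 ⊢
            linear_combination x2
          have k1 := conv _ _ he1 x0 f1
          have k2 := conv _ _ he2 x1 f2
          have hb : x + (m : ZMod p) = ((17 : ℤ) : ZMod p) * (m : ZMod p) := by
            rw [hxm]; push_cast; ring
          rw [hxm, map_mul, sq16, one_mul] at k1
          rw [hb] at k2
          refine locC_P4 hm0 (Or.inr (Or.inr (Or.inr ⟨?_, ?_⟩)))
          · have := sqp hp2 (n := d1 * m) (hmul _ _ h1 hpm) (by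
              push_cast
              rw [map_mul, ← hχ, k1]
              exact self d1 h1)
            push_cast at this
            exact this
          · have := sqp hp2 (n := d2 * (17 * m)) (hmul _ _ h2 (hmul _ _ n17 hpm)) (by
              have e : ((d2 * (17 * m) : ℤ) : ZMod p) = (d2 : ZMod p) * (((17 : ℤ) : ZMod p) *
                (m : ZMod p)) := by push_cast; ring
              rw [e, map_mul, ← hχ, k2]
              exact self d2 h2)
            push_cast at this
            exact this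
        · have k1 := conv _ _ he1 x0 f1
          have k2 := conv _ _ he2 x1 f2
          have k3 := conv _ _ he12 x2 f3
          obtain ⟨u, hu⟩ : ∃ u : ℤ, (u : ZMod p) = x := ⟨(x.val : ℤ), by simp⟩
          have e1 : ((u + m : ℤ) : ZMod p) = x + (m : ZMod p) := by push_cast; rw [hu]
          have e2 : ((u - 16 * m : ℤ) : ZMod p) = x + ((-(16 * m) : ℤ) : ZMod p) := by
            push_cast; rw [hu]; ring
          have z0 : ¬ (p : ℤ) ∣ u := hzd _ (by rw [hu]; exact x0)
          have z1 : ¬ (p : ℤ) ∣ u + m := hzd _ (by rw [e1]; exact x1)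
          have z2 : ¬ (p : ℤ) ∣ u - 16 * m := hzd _ (by rw [e2]; exact x2)
          have nz : ∀ n : ℤ, ¬ (p : ℤ) ∣ n → (n : ℚ_[p]) ≠ 0 := by
            intro n hn h0
            apply hn
            have : n = 0 := by exact_mod_cast h0
            rw [this]
            exact dvd_zero _
          refine locC_mk (u := (u : ℚ_[p])) (nz _ z0) ?_ ?_ ?_ ?_ ?_
          · have := nz _ z1
            push_cast at this
            exact this
          · have := nz _ z2
            push_cast at this
            exact this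
          · have := sqp hp2 (n := u * (u + m) * (u - 16 * m)) (hmul _ _ (hmul _ _ z0 z1) z2) (by
              rw [Int.cast_mul, Int.cast_mul, e1, e2, hu, map_mul, map_mul, ← hχ, k1, k2, k3]
              have h3 := self d1 h1
              have h4 := self d2 h2
              linear_combination χ (d2 : ZMod p) * χ (d2 : ZMod p) * h3 + h4)
            push_cast at this
            exact this
          · have := sqp hp2 (n := u * d1) (hmul _ _ z0 h1) (by
              rw [Int.cast_mul, hu, map_mul, ← hχ, k1]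
              exact self d1 h1)
            push_cast at this
            exact this
          · have := sqp hp2 (n := (u + m) * d2) (hmul _ _ z1 h2) (by
              rw [Int.cast_mul, e1, map_mul, ← hχ, k2]
              exact self d2 h2)
            push_cast at this
            exact this

end

end Pool.Agent.N875.P17
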