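import Pool.Agent.N875.P17.Lo2

/-!
# The converse of the local conditions: the prime `17`
-/

set_option autoImplicit false

open Finset

namespace Pool.Agent.N875.P17

open Pool.Agent.N875.X15
open Pool.Agent.TH841.SH (LocC SelG)

lemma dec17 : ∀ m : ZMod 17, m ≠ 0 → (∃ r : ZMod 17, m = r * r) →
    ∃ y : ZMod 17, y ≠ 0 ∧ ∀ z : ZMod 17, y * y + m ≠ z * z := by
  decide

/-- **The prime `17`, not dividing `m`.** -/
theorem locC_17 {m d1 d2 : ℤ} (hpm : ¬ (17 : ℤ) ∣ m) (h1 : IsSquare (d1 : ℚ_[17]))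
    (h2 : ¬ (17 : ℤ) ∣ d2) : LocC ℚ_[17] 0 (-m) (16 * m) d1 d2 := by
  have hp2 : (17 : ℕ) ≠ 2 := by norm_num
  have hm0 : m ≠ 0 := by
    rintro rfl
    exact hpm (dvd_zero _)
  have hc : ((17 : ℕ) : ℤ) = 17 := rfl
  have hpr : Prime (17 : ℤ) := by
    have := Nat.prime_iff_prime_int.1 (by norm_num : Nat.Prime 17)
    exact_mod_cast this
  have hz : ∀ n : ℤ, ¬ (17 : ℤ) ∣ n → ((n : ℤ) : ZMod 17) ≠ 0 := fun n hn h =>
    hn ((ZMod.intCast_zmod_eq_zero_iff_dvd n 17).1 h)
  have hzd : ∀ n : ℤ, ((n : ℤ) : ZMod 17) ≠ 0 → ¬ (17 : ℤ) ∣ n := fun n hn h =>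
    hn ((ZMod.intCast_zmod_eq_zero_iff_dvd n 17).2 h)
  have hmul : ∀ x y : ℤ, ¬ (17 : ℤ) ∣ x → ¬ (17 : ℤ) ∣ y → ¬ (17 : ℤ) ∣ x * y :=
    fun x y hx hy h => by
      rcases hpr.dvd_or_dvd h with h3 | h3
      · exact hx h3
      · exact hy h3
  have nsq : ∀ n : ℤ, ¬ (17 : ℤ) ∣ n → ¬ IsSquare ((n : ℤ) : ZMod 17) →
      quadraticChar (ZMod 17) (n : ZMod 17) = -1 := by
    intro n hn h
    rcases quadraticChar_dichotomy (hz n hn) with k | k
    · exact absurd ((quadraticChar_one_iff_isSquare (hz n hn)).1 k) h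
    · exact k
  by_cases q2 : IsSquare ((d2 : ℤ) : ZMod 17)
  · exact locC_P4 hm0 (Or.inl ⟨h1, sq_of_zmod hp2 (by exact_mod_cast h2) q2⟩)
  · by_cases q3 : IsSquare ((m : ℤ) : ZMod 17)
    · obtain ⟨r, hr⟩ := q3
      obtain ⟨y, hy0, hy⟩ := dec17 _ (hz m hpm) ⟨r, hr⟩
      obtain ⟨v, hv⟩ : ∃ v : ℤ, (v : ZMod 17) = y := ⟨(y.val : ℤ), by simp⟩
      have z0 : ¬ (17 : ℤ) ∣ v := hzd _ (by rw [hv]; exact hy0)
      have e1 : ((v * v + m : ℤ) : ZMod 17) = y * y + (m : ZMod 17) := by push_cast; rw [hv]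
      have e2 : ((v * v - 16 * m : ℤ) : ZMod 17) = y * y + (m : ZMod 17) := by
        push_cast
        rw [hv]
        have : (16 : ZMod 17) = -1 := by decide
        rw [this]
        ring
      have hns : ¬ IsSquare ((v * v + m : ℤ) : ZMod 17) := by
        rintro ⟨z, hz'⟩
        rw [e1] at hz'
        exact hy z hz'
      have hne : y * y + (m : ZMod 17) ≠ 0 := by
        intro h0
        exact hy 0 (by rw [h0, mul_zero])
      have z1 : ¬ (17 : ℤ) ∣ v * v + m := hzd _ (by rw [e1]; exact hne)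
      have z2 : ¬ (17 : ℤ) ∣ v * v - 16 * m := hzd _ (by rw [e2]; exact hne)
      have nz : ∀ n : ℤ, ¬ (17 : ℤ) ∣ n → (n : ℚ_[17]) ≠ 0 := by
        intro n hn h0
        apply hn
        have : n = 0 := by exact_mod_cast h0
        rw [this]
        exact dvd_zero _
      have k1 := nsq _ z1 hns
      have k2 := nsq _ h2 q2
      refine locC_mk (u := ((v * v : ℤ) : ℚ_[17])) (nz _ (hmul _ _ z0 z0)) ?_ ?_ ?_ ?_ ?_
      · have := nz _ z1
        push_cast at this ⊢
        exact this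
      · have := nz _ z2
        push_cast at this ⊢
        exact this
      · have := sqp hp2 (n := v * v * (v * v + m) * (v * v - 16 * m))
          (by exact_mod_cast hmul _ _ (hmul _ _ (hmul _ _ z0 z0) z1) z2) (by
          rw [Int.cast_mul, Int.cast_mul (v * v), e1, e2]
          have e : ((v * v : ℤ) : ZMod 17) * (y * y + (m : ZMod 17)) * (y * y + (m : ZMod 17)) =
            (y * (y * y + (m : ZMod 17))) ^ 2 := by
            push_cast
            rw [hv]
            ring
          rw [e]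
          exact quadraticChar_sq_one' (mul_ne_zero hy0 hne))
        push_cast at this ⊢
        exact this
      · push_cast
        exact (IsSquare.mul_self _).mul h1
      · have := sqp hp2 (n := (v * v + m) * d2) (by exact_mod_cast hmul _ _ z1 h2) (by
          rw [Int.cast_mul, map_mul, k1, k2]
          norm_num)
        push_cast at this ⊢
        exact this
    · refine locC_P4 hm0 (Or.inr (Or.inl ⟨?_, ?_⟩))
      · have h4 : IsSquare ((-1 : ℤ) : ℚ_[17]) := sq_of_zmod hp2 (by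
          rw [hc]
          norm_num) ⟨4, by decide⟩
        have h5 := h4.mul h1
        push_cast at h5
        rwa [neg_one_mul] at h5
      · have := sqp hp2 (n := d2 * m) (by exact_mod_cast hmul _ _ h2 hpm) (by
          rw [Int.cast_mul, map_mul, nsq _ h2 q2, nsq _ hpm q3]
          norm_num)
        push_cast at this
        exact this

end Pool.Agent.N875.P17
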