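import Pool.Agent.N875.X15.RcNc

/-!
# Squarefree numbers as products of prime discriminants
-/

set_option autoImplicit false

namespace Pool.Agent.N875.P17

open Pool.Agent.N875.X15

open scoped Classical in
/-- the prime discriminants which divide the discriminant of `d` -/
noncomputable def SS (m d : ℤ) : Finset ℕ :=
  (PR m).filter (fun p : ℕ => if p = 2 then ¬ IsSquare (d : ℚ_[2]) else (p : ℤ) ∣ d)

section

variable {m d : ℤ}

lemma SS_sub : SS m d ⊆ PR m := by
  classical
  exact Finset.filter_subset _ _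

lemma mem_SS_two : 2 ∈ SS m d ↔ 2 ∈ PR m ∧ ¬ IsSquare (d : ℚ_[2]) := by
  classical
  unfold SS
  rw [Finset.mem_filter, if_pos rfl]

lemma mem_SS {p : ℕ} (hp2 : p ≠ 2) : p ∈ SS m d ↔ p ∈ PR m ∧ (p : ℤ) ∣ d := by
  classical
  unfold SS
  rw [Finset.mem_filter, if_neg hp2]

/-- **the product** -/
theorem prod_SS (hs : Squarefree m) (hds : Squarefree d)
    (hsup : ∀ p : ℕ, p.Prime → (p : ℤ) ∣ d → Ram m p) (h14 : m % 4 = 1 → d % 4 = 1)
    (h2loc : m % 4 ≠ 1 → IsSquare (d : ℚ_[2]) ∨ IsSquare ((d : ℚ_[2]) * m)) :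
    ∏ p ∈ SS m d, ps m p = d := by
  classical
  have hm0 := hs.ne_zero
  have hd0 := hds.ne_zero
  set S := SS m d with hS
  have hSP : S ⊆ PR m := SS_sub
  have h2S : 2 ∈ S ↔ 2 ∈ PR m ∧ ¬ IsSquare (d : ℚ_[2]) := mem_SS_two
  have hpS : ∀ p : ℕ, p ≠ 2 → (p ∈ S ↔ p.Prime ∧ (p : ℤ) ∣ d) := by
    intro p hp2
    rw [hS, mem_SS hp2, mem_PR hm0]
    constructor
    · rintro ⟨⟨h1, -⟩, h2⟩
      exact ⟨h1, h2⟩
    · rintro ⟨h1, h2⟩
      exact ⟨⟨h1, hsup p h1 h2⟩, h2⟩
  have he : S.erase 2 = d.natAbs.primeFactors.erase 2 := by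
    ext p
    rw [Finset.mem_erase, Finset.mem_erase]
    refine and_congr_right fun hp2 => ?_
    rw [hpS p hp2, Nat.mem_primeFactors, Int.natCast_dvd]
    have := Int.natAbs_ne_zero.2 hd0
    tauto
  have hv : ∀ (q : ℕ) [Fact q.Prime], ¬ (q : ℤ) ∣ d → (q : ℤ) ∣ m → ¬ IsSquare ((d : ℚ_[q]) * m) := by
    intro q _ h1 h2 h3
    have hd0' : (d : ℚ_[q]) ≠ 0 := by exact_mod_cast hd0
    have hm0' : (m : ℚ_[q]) ≠ 0 := by exact_mod_cast hm0
    have h4 := even_val (mul_ne_zero hd0' hm0') h3
    rw [Padic.valuation_mul hd0' hm0', val_zero h1, val_one h2 hs] at h4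
    exact absurd h4 (by decide)
  have hv' : ∀ (q : ℕ) [Fact q.Prime], (q : ℤ) ∣ d → ¬ (q : ℤ) ∣ m →
      ¬ IsSquare ((d : ℚ_[q]) * m) := by
    intro q _ h1 h2 h3
    have hd0' : (d : ℚ_[q]) ≠ 0 := by exact_mod_cast hd0
    have hm0' : (m : ℚ_[q]) ≠ 0 := by exact_mod_cast hm0
    have h4 := even_val (mul_ne_zero hd0' hm0') h3
    rw [Padic.valuation_mul hd0' hm0', val_zero h2, val_one h1 hds] at h4
    exact absurd h4 (by decide)
  rw [prod_ps, he]
  have h3 : (∏ p ∈ d.natAbs.primeFactors.erase 2, sgp p) = oe d := rfl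
  rw [h3]
  have ho := oe_mod d
  have hom := oe_mod m
  obtain ⟨e1, e2⟩ := d2_spec hs
  have hcases := oe_cases hds
  by_cases hP : 2 ∈ PR m
  · have hm4 := (two_mem_PR hm0).1 hP
    by_cases h2 : IsSquare (d : ℚ_[2])
    · rw [if_neg (fun h => (h2S.1 h).2 h2), one_mul]
      have hnd : ¬ (2 : ℤ) ∣ d := fun h => not_sq (p := 2) hds h h2
      have h8 := Pool.Agent.Y667.RP.mod_of_sq hnd h2
      rcases hcases with ⟨-, h | h⟩ | ⟨h, -⟩
      · exact h.symm
      · omega
      · exact absurd h hnd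
    · have h2S' : 2 ∈ S := h2S.2 ⟨hP, h2⟩
      rw [if_pos h2S']
      have h5 := (h2loc hm4).resolve_left h2
      by_cases hm2 : (2 : ℤ) ∣ m
      · have hd2 : (2 : ℤ) ∣ d := by
          by_contra hcon
          exact hv 2 hcon hm2 h5
        obtain ⟨d', hd'⟩ := hd2
        obtain ⟨m', hm'⟩ := hm2
        have hodd' : ¬ (2 : ℤ) ∣ d' := by
          rintro ⟨k, hk⟩
          have := hds 2 ⟨k, by rw [hd', hk]; ring⟩
          exact absurd (Int.isUnit_iff.1 this) (by norm_num)
        have hodm' : ¬ (2 : ℤ) ∣ m' := by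
          rintro ⟨k, hk⟩
          have := hs 2 ⟨k, by rw [hm', hk]; ring⟩
          exact absurd (Int.isUnit_iff.1 this) (by norm_num)
        have h6 : IsSquare (((d' * m' : ℤ)) : ℚ_[2]) := by
          have e : (d : ℚ_[2]) * m = (2 * 2) * (((d' * m' : ℤ)) : ℚ_[2]) := by
            rw [hd', hm']; push_cast; ring
          rw [e] at h5
          exact sq_cancel (mul_ne_zero two_ne_zero two_ne_zero) (IsSquare.mul_self _) h5
        have h7 := Pool.Agent.Y667.RP.mod_of_sq (d := d' * m') (by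
          intro h
          rcases Int.prime_two.dvd_or_dvd h with h | h
          · exact hodd' h
          · exact hodm' h) h6
        have h8 : (d' % 8) * (m' % 8) % 8 = 1 := by rw [← Int.mul_emod]; exact h7
        rcases e2 with ⟨h, -⟩ | ⟨-, h | h⟩
        · exact absurd ⟨m', hm'⟩ h
        · rw [h] at e1 ⊢
          have hm'' : m' = oe m := by omega
          rcases hcases with ⟨h9, -⟩ | ⟨-, h9 | h9⟩
          · exact absurd ⟨d', hd'⟩ h9
          · exact h9.symm
          · exfalso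
            have : d' = -oe d := by omega
            have c1 : m' % 8 = 1 ∨ m' % 8 = 5 := by omega
            have c2 : d' % 8 = 3 ∨ d' % 8 = 7 := by omega
            rcases c1 with c1 | c1 <;> rcases c2 with c2 | c2 <;> rw [c1, c2] at h8 <;> omega
        · rw [h] at e1 ⊢
          have hm'' : m' = -oe m := by omega
          rcases hcases with ⟨h9, -⟩ | ⟨-, h9 | h9⟩
          · exact absurd ⟨d', hd'⟩ h9
          · exfalso
            have : d' = oe d := by omega
            have c1 : m' % 8 = 3 ∨ m' % 8 = 7 := by omega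
            have c2 : d' % 8 = 1 ∨ d' % 8 = 5 := by omega
            rcases c1 with c1 | c1 <;> rcases c2 with c2 | c2 <;> rw [c1, c2] at h8 <;> omega
          · exact h9.symm
      · have hd2 : ¬ (2 : ℤ) ∣ d := fun h => hv' 2 h hm2 h5
        have h6 : IsSquare (((d * m : ℤ)) : ℚ_[2]) := by
          push_cast
          exact h5
        have h7 := Pool.Agent.Y667.RP.mod_of_sq (d := d * m) (by
          intro h
          rcases Int.prime_two.dvd_or_dvd h with h | h
          · exact hd2 h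
          · exact hm2 h) h6
        have h8 : (d % 8) * (m % 8) % 8 = 1 := by rw [← Int.mul_emod]; exact h7
        rcases e2 with ⟨-, h | h⟩ | ⟨h, -⟩
        · rw [h] at e1
          omega
        · rw [h] at e1 ⊢
          rcases hcases with ⟨-, h9 | h9⟩ | ⟨h9, -⟩
          · exfalso
            have c1 : m % 8 = 3 ∨ m % 8 = 7 := by omega
            have c2 : d % 8 = 1 ∨ d % 8 = 5 := by omega
            rcases c1 with c1 | c1 <;> rcases c2 with c2 | c2 <;> rw [c1, c2] at h8 <;> omega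
          · rw [neg_one_mul]
            exact h9.symm
          · exact absurd h9 hd2
        · exact absurd h hm2
  · rw [if_neg (fun h => hP (hSP h)), one_mul]
    have hm4 : m % 4 = 1 := by
      by_contra h
      exact hP ((two_mem_PR hm0).2 h)
    have hd4 := h14 hm4
    rcases hcases with ⟨-, h | h⟩ | ⟨h, -⟩
    · exact h.symm
    · omega
    · omega

/-- the complementary product -/
theorem prod_compl (hs : Squarefree m) (h : ∏ p ∈ SS m d, ps m p = d) :
    m = d * ∏ p ∈ PR m \ SS m d, ps m p := by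
  conv_lhs => rw [← prod_PR hs]
  rw [← Finset.prod_sdiff (SS_sub (m := m) (d := d)), h, mul_comm]

end

end Pool.Agent.N875.P17
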