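import Pool.Agent.N875.P17.Mat
import Pool.Agent.N875.P17.Rank
import Pool.Agent.N972.P17.Defs3

/-!
# The criteria `Sx` and `Sr` of `Pool.Agent.N972.P17`
-/

set_option autoImplicit false

open Finset

namespace Pool.Agent.N875.P17

open Pool.Agent.N875.X15
open Pool.Agent.N972.P17 (Cm Cme Cr Cre Sx Sr star ls LL nu)
open Pool.Agent.N969.P15 (Ev)

/-- the squarefree part of the fundamental discriminant `-n` -/
def mD (n : ℕ) : ℤ := if n % 2 = 1 then -(n : ℤ) else -((n / 4 : ℕ) : ℤ)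

/-- fundamental -/
def FD (n : ℕ) : Prop := (Squarefree n ∧ n % 4 = 3) ∨ Ev n

lemma mD_sqf {n : ℕ} (h : FD n) : Squarefree (mD n) := by
  unfold mD
  rcases h with ⟨hsq, h4⟩ | ⟨k, rfl, hsq, h4⟩
  · rw [if_pos (by omega)]
    exact sqf_neg (Int.squarefree_natCast.2 hsq)
  · rw [if_neg (by omega)]
    have e4 : 4 * k / 4 = k := by omega
    rw [e4]
    exact sqf_neg (Int.squarefree_natCast.2 hsq)

lemma PR_mD {n : ℕ} (h : FD n) : PR (mD n) = n.primeFactors := by
  unfold mD PR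
  rcases h with ⟨hsq, h4⟩ | ⟨k, rfl, hsq, h4⟩
  · rw [if_pos (by omega : n % 2 = 1), if_pos (by omega), Int.natAbs_neg, Int.natAbs_natCast]
  · have e4 : 4 * k / 4 = k := by omega
    rw [if_neg (by omega : ¬ 4 * k % 2 = 1), e4, if_neg (by omega), Int.natAbs_neg,
      Int.natAbs_natCast]
    have hk : k ≠ 0 := hsq.ne_zero
    have e : (4 : ℕ) = 2 ^ 2 := by norm_num
    rw [Nat.primeFactors_mul (by norm_num) hk, Nat.primeFactors_mul (by norm_num) hk, e,
      Nat.primeFactors_pow 2 (by norm_num)]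

lemma star_odd {n p : ℕ} (hp : p ≠ 2) : star n p = sgp p := by
  unfold Pool.Agent.N972.P17.star sgp
  rw [if_neg hp]

lemma star_two {n : ℕ} (h : Ev n) : star n 2 = 4 * ps (mD n) 2 := by
  obtain ⟨k, rfl, hsq, h4⟩ := id h
  have hs := mD_sqf (Or.inr h)
  rw [ps_two]
  have e4 : 4 * k / 4 = k := by omega
  have em : mD (4 * k) = -(k : ℤ) := by
    unfold mD
    rw [if_neg (by omega), e4]
  rw [em] at hs ⊢
  obtain ⟨h1, h2⟩ := d2_spec hs
  have ho := oe_mod (-(k : ℤ))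
  unfold Pool.Agent.N972.P17.star
  rw [if_pos rfl]
  rcases h4 with h4 | h4
  · rw [if_pos (by omega)]
    rcases h2 with ⟨-, h2 | h2⟩ | ⟨h2, -⟩
    · rw [h2] at h1
      omega
    · rw [h2]
      norm_num
    · omega
  · rw [if_neg (by omega)]
    rcases h2 with ⟨h2, -⟩ | ⟨-, h2 | h2⟩
    · omega
    · rw [h2] at h1 ⊢
      rw [if_neg (by omega)]
      norm_num
    · rw [h2] at h1 ⊢
      rw [if_pos (by omega)]
      norm_num

lemma two_not {n : ℕ} (h : Squarefree n ∧ n % 4 = 3) {p : ℕ} (hp : p ∈ n.primeFactors) : p ≠ 2 := by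
  rintro rfl
  have := (Nat.mem_primeFactors.1 hp).2.1
  omega

lemma star_neg {n : ℕ} (h : FD n) {q : ℕ} (hq : q ∈ n.primeFactors) :
    star n q < 0 ↔ ps (mD n) q < 0 := by
  by_cases hq2 : q = 2
  · subst hq2
    rcases h with h | h
    · exact absurd rfl (two_not h hq)
    · rw [star_two h]
      omega
  · rw [star_odd hq2, ps_odd hq2]

lemma al_eq {n : ℕ} (h : FD n) {q : ℕ} (hq : q ∈ n.primeFactors) :
    Pool.Agent.N972.P17.al n q = al (mD n) q := by
  unfold Pool.Agent.N972.P17.al al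
  have := star_neg h hq
  by_cases h1 : star n q < 0
  · rw [if_pos h1, if_pos (this.1 h1)]
  · rw [if_neg h1, if_neg (fun h2 => h1 (this.2 h2))]

lemma ls_eq {n : ℕ} (h : FD n) {p q : ℕ} (hp : p ∈ n.primeFactors) (hq : q ∈ n.primeFactors)
    (hpq : p ≠ q) : ls n q p = ra p (ps (mD n) q) := by
  have hqp := (Nat.mem_primeFactors.1 hq).1
  have hpp := (Nat.mem_primeFactors.1 hp).1
  unfold ls ra
  by_cases hp2 : p = 2
  · subst hp2
    have hq2 : q ≠ 2 := hpq.symm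
    have h1 := sgp_mod hqp hq2
    rw [if_pos rfl, star_odd hq2, ps_odd hq2, ch_two]
    by_cases h2 : sgp q % 8 = 1
    · rw [if_pos (Or.inl h2), if_pos h2, if_pos rfl]
    · rw [if_neg (by omega), if_neg h2, if_neg (by decide)]
  · rw [if_neg hp2, ch_odd hp2]
    by_cases hq2 : q = 2
    · subst hq2
      rcases h with h | h
      · exact absurd rfl (two_not h hq)
      · rw [star_two h]
        have h4 : jacobiSym (4 * ps (mD n) 2) p = jacobiSym (ps (mD n) 2) p := by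
          rw [jacobiSym.mul_left]
          have h5 : jacobiSym 4 p = 1 := by
            have e : (4 : ℤ) = 2 ^ 2 := by norm_num
            rw [e]
            refine jacobiSym.sq_one' ?_
            have : Nat.Coprime 2 p := (Nat.coprime_primes Nat.prime_two hpp).2 (Ne.symm hp2)
            exact_mod_cast this
          rw [h5, one_mul]
        rw [h4]
    · rw [star_odd hq2, ps_odd hq2]

lemma LL_eq {n : ℕ} (h : FD n) {p q : ℕ} (hp : p ∈ n.primeFactors) (hq : q ∈ n.primeFactors) :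
    LL n p q = Lm (mD n) p q := by
  unfold LL Lm
  by_cases hpq : p = q
  · rw [if_pos hpq, if_pos hpq, PR_mD h]
    refine Finset.sum_congr rfl fun r hr => ?_
    exact ls_eq h hp (Finset.mem_of_mem_erase hr) (Finset.ne_of_mem_erase hr).symm
  · rw [if_neg hpq, if_neg hpq]
    exact ls_eq h hp hq hpq

lemma nu_eq (p : ℕ) : nu p = ra p 17 := by
  unfold nu ra
  by_cases hp2 : p = 2
  · subst hp2
    rw [if_pos rfl, ch_two]
    rfl
  · rw [if_neg hp2, ch_odd hp2]

lemma sg_core {n : ℕ} (h : FD n) {x y : ℕ → ZMod 2}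
    (h1 : ∀ p ∈ PR (mD n), p ≠ 17 →
      ra p 17 * x p + ∑ q ∈ PR (mD n), Lm (mD n) p q * y q = 0)
    (h2 : ∀ q ∈ PR (mD n), ∑ p ∈ PR (mD n), Lm (mD n) p q * x p + al (mD n) q * y q = 0) :
    (∀ p ∈ n.primeFactors, p ≠ 17 → nu p * x p + ∑ q ∈ n.primeFactors, LL n p q * y q = 0) ∧
    (∀ q ∈ n.primeFactors,
      ∑ p ∈ n.primeFactors, LL n p q * x p + Pool.Agent.N972.P17.al n q * y q = 0) := by
  rw [PR_mD h] at h1 h2
  constructor
  · intro p hp h17
    rw [nu_eq, ← h1 p hp h17]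
    congr 1
    exact Finset.sum_congr rfl fun q hq => by rw [LL_eq h hp hq]
  · intro q hq
    rw [al_eq h hq, ← h2 q hq]
    congr 1
    exact Finset.sum_congr rfl fun p hp => by rw [LL_eq h hp hq]

/-- `17` prime to `n` -/
theorem sg_of_Sx {n : ℕ} (h : FD n) (h17 : ¬ 17 ∣ n) (hS : Sx n) : Sg (mD n) := by
  intro x y _ h1 h2
  obtain ⟨h3, h4⟩ := sg_core h h1 h2
  rw [PR_mD h]
  refine hS x y (fun p hp => h3 p hp ?_) h4
  rintro rfl
  exact h17 (Nat.mem_primeFactors.1 hp).2.1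

/-- `17 ∣ n` -/
theorem sg_of_Sr {n : ℕ} (h : FD n) (hS : Sr n) : Sg (mD n) := by
  intro x y hx h1 h2
  obtain ⟨h3, h4⟩ := sg_core h h1 h2
  rw [PR_mD h]
  exact hS x y hx (fun p hp => h3 p (Finset.mem_of_mem_erase hp) (Finset.ne_of_mem_erase hp)) h4

lemma not_dvd17 {n : ℕ} (h : jacobiSym n 17 = -1) : ¬ 17 ∣ n := by
  rintro ⟨k, rfl⟩
  have h1 : jacobiSym ((17 * k : ℕ) : ℤ) 17 = 0 := by
    rw [jacobiSym.eq_zero_iff_not_coprime, Int.gcd_natCast_natCast]
    norm_num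
  rw [h1] at h
  norm_num at h

lemma FD_Cm {n : ℕ} (h : Cm n) : FD n := Or.inl ⟨h.1, h.2.1⟩
lemma FD_Cme {n : ℕ} (h : Cme n) : FD n := Or.inr h.1
lemma FD_Cr {n : ℕ} (h : Cr n) : FD n := Or.inl ⟨h.1, h.2.1⟩
lemma FD_Cre {n : ℕ} (h : Cre n) : FD n := Or.inr h.1

end Pool.Agent.N875.P17
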