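import Pool.Agent.N875.X15.Glob

/-!
# Local conditions at the prime 2 for the curves `y² = x (x + m) (x - 16 m)`
-/

set_option autoImplicit false

namespace Pool.Agent.N875.P17

open Pool.Agent.N875.X15
open Pool.Agent.Y667.RP (sq_near_one mod_of_sq)

/-- **The second coordinate at 2.** -/
theorem two_v17 {m : ℤ} (hm : m ≠ 0) {u : ℚ_[2]} (hu : u ≠ 0)
    (hv : u + m ≠ 0) (hw : u - 16 * m ≠ 0)
    (hs : IsSquare (u * (u + m) * (u - 16 * m))) :
    IsSquare (u + m) ∨ IsSquare ((u + m) * m) ∨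
      (IsSquare ((u + m) * (5 * m)) ∧ IsSquare (m : ℚ_[2])) := by
  have hm' : (m : ℚ_[2]) ≠ 0 := by exact_mod_cast hm
  have v2 : ((2 : ℚ_[2])).valuation = 1 := by
    have : (2 : ℚ_[2]) = ((2 : ℕ) : ℚ_[2]) := by norm_num
    rw [this, Padic.valuation_p]
  have v16 : (16 * (m : ℚ_[2])).valuation = 4 + (m : ℚ_[2]).valuation := by
    rw [Padic.valuation_mul (by norm_num) hm']
    congr 1
    have : (16 : ℚ_[2]) = 2 ^ 4 := by norm_num
    rw [this, Padic.valuation_pow, v2]
    norm_num
  have neg : ∀ x : ℚ_[2], (-x).valuation = x.valuation := by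
    intro x
    by_cases hx : x = 0
    · rw [hx, neg_zero]
    exact (norm_eq_iff (neg_ne_zero.2 hx) hx).1 (norm_neg x)
  rcases le_or_gt (u.valuation + 3) (4 + (m : ℚ_[2]).valuation) with c1 | c1
  · left
    have h1 := (close2 hw hu (by
      rw [sub_sub_cancel_left]
      exact neg_ne_zero.2 (mul_ne_zero (by norm_num) hm')) (by
      rw [sub_sub_cancel_left, neg, v16]
      exact c1)).1
    have e : u * (u + m) * (u - 16 * m) = ((u - 16 * m) * u) * (u + m) := by ring
    rw [e] at hs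
    exact sq_cancel (mul_ne_zero hw hu) h1 hs
  · rcases le_or_gt ((m : ℚ_[2]).valuation + 3) u.valuation with c2 | c2
    · right; left
      exact (close2 hv hm' (by
        rw [add_sub_cancel_right]
        exact hu) (by
        rw [add_sub_cancel_right]
        exact c2)).1
    · right; right
      have c3 : u.valuation = (m : ℚ_[2]).valuation + 2 := by omega
      have h4 : (u / (4 * m)).valuation = 0 := by
        rw [div_eq_mul_inv, Padic.valuation_mul hu (inv_ne_zero (mul_ne_zero (by norm_num) hm')),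
          Padic.valuation_inv, Padic.valuation_mul (by norm_num) hm', c3]
        have : (4 : ℚ_[2]) = 2 ^ 2 := by norm_num
        rw [this, Padic.valuation_pow, v2]
        push_cast
        ring
      obtain ⟨s, hs1, hs2⟩ := unit_part (div_ne_zero hu (mul_ne_zero (by norm_num : (4 : ℚ_[2]) ≠ 0)
        hm'))
      rw [h4, zpow_zero, one_mul] at hs2
      have hu' : u = 4 * m * s := by
        rw [← hs2]
        field_simp
      have hodd := unit_odd hs1
      have k1 : PadicInt.toZModPow 3 (s * (4 * s + 1) * (s - 4)) = 1 := by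
        rw [map_mul, map_mul, map_add, map_mul, map_sub]
        have e4 : PadicInt.toZModPow (p := 2) 3 4 = 4 := by
          have := map_ofNat (PadicInt.toZModPow (p := 2) 3) 4
          exact this
        rw [map_one, e4]
        have : ∀ t : ZMod (2 ^ 3), t = 1 ∨ t = 3 ∨ t = 5 ∨ t = 7 →
          t * (4 * t + 1) * (t - 4) = 1 := by decide
        apply this
        simpa using hodd
      have k2 : PadicInt.toZModPow 3 (5 * (4 * s + 1)) = 1 := by
        rw [map_mul, map_add, map_mul]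
        have e4 : PadicInt.toZModPow (p := 2) 3 4 = 4 := by
          have := map_ofNat (PadicInt.toZModPow (p := 2) 3) 4
          exact this
        have e5 : PadicInt.toZModPow (p := 2) 3 5 = 5 := by
          have := map_ofNat (PadicInt.toZModPow (p := 2) 3) 5
          exact this
        rw [map_one, e4, e5]
        have : ∀ t : ZMod (2 ^ 3), t = 1 ∨ t = 3 ∨ t = 5 ∨ t = 7 →
          5 * (4 * t + 1) = 1 := by decide
        apply this
        simpa using hodd
      have q1 := sq_of_mod8 _ k1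
      have q2 := sq_of_mod8 _ k2
      have c4 : ((4 : ℤ_[2]) : ℚ_[2]) = 4 := rfl
      have c5 : ((5 : ℤ_[2]) : ℚ_[2]) = 5 := rfl
      push_cast at q1 q2
      rw [c4] at q1
      rw [c4, c5] at q2
      constructor
      · have e : (u + m) * (5 * m) = (m * m) * (5 * (4 * (s : ℚ_[2]) + 1)) := by
          rw [hu']
          ring
        rw [e]
        exact (IsSquare.mul_self _).mul q2
      · have e : u * (u + m) * (u - 16 * m) = ((4 * m * (4 * m)) *
            ((s : ℚ_[2]) * (4 * (s : ℚ_[2]) + 1) * ((s : ℚ_[2]) - 4))) * m := by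
          rw [hu']
          ring
        rw [e] at hs
        refine sq_cancel ?_ ((IsSquare.mul_self _).mul q1) hs
        intro h0
        have : u * (u + m) * (u - 16 * m) = 0 := by rw [e, h0, zero_mul]
        exact mul_ne_zero (mul_ne_zero hu hv) hw this

/-- **The first coordinate at 2**, `m ≡ 1 mod 4`. -/
theorem two_u17 {m : ℤ} (hm4 : m % 4 = 1) {u : ℚ_[2]} (hu : u ≠ 0)
    (hv : u + m ≠ 0) (hw : u - 16 * m ≠ 0)
    (hs : IsSquare (u * (u + m) * (u - 16 * m))) : Even u.valuation := by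
  have hm : m ≠ 0 := by rintro rfl; simp at hm4
  have hm' : (m : ℚ_[2]) ≠ 0 := by exact_mod_cast hm
  have v2 : ((2 : ℚ_[2])).valuation = 1 := by
    have : (2 : ℚ_[2]) = ((2 : ℕ) : ℚ_[2]) := by norm_num
    rw [this, Padic.valuation_p]
  have hunit : ∀ n : ℤ, ¬ (2 : ℤ) ∣ n → (n : ℚ_[2]).valuation = 0 := by
    intro n hn
    have hn0 : (n : ℚ_[2]) ≠ 0 := by
      have : n ≠ 0 := by rintro rfl; simp at hn
      exact_mod_cast this
    have h1 : ‖(n : ℚ_[2])‖ = 1 := by
      refine le_antisymm (Padic.norm_int_le_one n) ?_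
      rw [← not_lt, Padic.norm_intCast_lt_one_iff]
      exact_mod_cast hn
    have h2 : ‖(n : ℚ_[2])‖ = ‖(1 : ℚ_[2])‖ := by rw [h1, norm_one]
    rw [norm_eq_iff hn0 one_ne_zero] at h2
    rw [h2, Padic.valuation_one]
  have v9 : (m : ℚ_[2]).valuation = 0 := hunit m (by omega)
  have v16 : (-(16 * (m : ℚ_[2]))).valuation = 4 := by
    have e : -(16 * (m : ℚ_[2])) = 2 ^ 4 * ((-m : ℤ) : ℚ_[2]) := by push_cast; ring
    have h0 : ((-m : ℤ) : ℚ_[2]) ≠ 0 := by exact_mod_cast neg_ne_zero.2 hm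
    rw [e, Padic.valuation_mul (by norm_num) h0, hunit (-m) (by omega), Padic.valuation_pow, v2]
    norm_num
  have h9 : (m : ℚ_[2]) ≠ 0 := hm'
  have h16 : -(16 * (m : ℚ_[2])) ≠ 0 := neg_ne_zero.2 (mul_ne_zero (by norm_num) hm')
  have hsum : Even (u.valuation + (u + m).valuation + (u - 16 * m).valuation) := by
    have := even_val (mul_ne_zero (mul_ne_zero hu hv) hw) hs
    rwa [Padic.valuation_mul (mul_ne_zero hu hv) hw, Padic.valuation_mul hu hv] at this
  by_contra hodd
  rw [Int.not_even_iff_odd] at hodd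
  obtain ⟨k, hk⟩ := hodd
  obtain ⟨r, hr⟩ := hsum
  obtain ⟨s, hs1, hs2⟩ := unit_part hu
  have hodd := unit_odd hs1
  obtain ⟨y, hy⟩ := hs
  have key : ∀ t : ℤ_[2], (∃ z : ℚ_[2], z ^ 2 = t) → PadicInt.toZModPow 3 t ≠ 3 ∧
      PadicInt.toZModPow 3 t ≠ 7 := by
    rintro t ⟨z, hz⟩
    obtain ⟨r, hr⟩ := int_of_sq hz
    rw [← hr, map_pow]
    have : ∀ t : ZMod (2 ^ 3), t ^ 2 ≠ 3 ∧ t ^ 2 ≠ 7 := by decide
    exact this _
  have c8 : PadicInt.toZModPow (p := 2) 3 8 = 8 := map_ofNat (PadicInt.toZModPow (p := 2) 3) 8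
  have c2 : PadicInt.toZModPow (p := 2) 3 2 = 2 := map_ofNat (PadicInt.toZModPow (p := 2) 3) 2
  have d8 : ((8 : ℤ_[2]) : ℚ_[2]) = 8 := rfl
  have d2 : ((2 : ℤ_[2]) : ℚ_[2]) = 2 := rfl
  have hmm := mod8_int hm4
  rcases lt_or_ge u.valuation 0 with c | c
  · have e1 := val_add_eq hu h9 hv (by rw [v9]; exact c)
    have e2 := val_add_eq hu h16 (by rwa [← sub_eq_add_neg]) (by rw [v16]; omega)
    rw [← sub_eq_add_neg] at e2
    omega
  · rcases le_or_gt u.valuation 3 with c' | c'
    · have c'' : u.valuation = 1 ∨ u.valuation = 3 := by omega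
      rcases c'' with c'' | c''
      · rw [c'', zpow_one] at hs2
        have h1 := key (s * (s - 8 * m) * (2 * s + m)) ⟨y / 2, by
          push_cast
          rw [d8, d2, div_pow, pow_two, ← hy, hs2]
          ring⟩
        rw [map_mul, map_mul, map_sub, map_add, map_mul, map_mul, c8, c2] at h1
        have h2 : ∀ t μ : ZMod (2 ^ 3), (t = 1 ∨ t = 3 ∨ t = 5 ∨ t = 7) → (μ = 1 ∨ μ = 5) →
          ¬ (t * (t - 8 * μ) * (2 * t + μ) ≠ 3 ∧ t * (t - 8 * μ) * (2 * t + μ) ≠ 7) := by
          decide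
        exact h2 _ _ (by simpa using hodd) hmm h1
      · have e3 : (2 : ℚ_[2]) ^ (3 : ℤ) = 8 := by norm_num
        rw [c'', e3] at hs2
        have h1 := key (s * (s - 2 * m) * (8 * s + m)) ⟨y / 8, by
          push_cast
          rw [d8, d2, div_pow, pow_two, ← hy, hs2]
          ring⟩
        rw [map_mul, map_mul, map_sub, map_add, map_mul, map_mul, c8, c2] at h1
        have h2 : ∀ t μ : ZMod (2 ^ 3), (t = 1 ∨ t = 3 ∨ t = 5 ∨ t = 7) → (μ = 1 ∨ μ = 5) →
          ¬ (t * (t - 2 * μ) * (8 * t + μ) ≠ 3 ∧ t * (t - 2 * μ) * (8 * t + μ) ≠ 7) := by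
          decide
        exact h2 _ _ (by simpa using hodd) hmm h1
    · have e1 := val_add_eq h9 hu (by rwa [add_comm]) (by rw [v9]; omega)
      have e2 := val_add_eq h16 hu (by rwa [add_comm, ← sub_eq_add_neg]) (by rw [v16]; omega)
      rw [add_comm] at e1
      rw [add_comm, ← sub_eq_add_neg] at e2
      omega

end Pool.Agent.N875.P17
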